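import Pool.Agent.H729R2.Point

open scoped ContDiff
open Set MeasureTheory Filter Topology

namespace Pool.Agent.H729R2

noncomputable section

set_option linter.unusedSectionVars false

/-- `O(1/N)` on `A` -/
def O1 (A : Set X) (F : ℕ → X → ℝ) : Prop :=
  ∃ C : ℝ, 0 ≤ C ∧ ∀ N : ℕ, 1 ≤ N → ∀ z ∈ A, |F N z| ≤ C / N

/-- `O(1)` on `A` -/
def B1 (A : Set X) (F : ℕ → X → ℝ) : Prop :=
  ∃ C : ℝ, 0 ≤ C ∧ ∀ N : ℕ, 1 ≤ N → ∀ z ∈ A, |F N z| ≤ C

variable {A : Set X} {F G : ℕ → X → ℝ}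

lemma O1.add (hF : O1 A F) (hG : O1 A G) : O1 A (fun N z => F N z + G N z) := by
  obtain ⟨C, h0, h⟩ := hF
  obtain ⟨C', h0', h'⟩ := hG
  refine ⟨C + C', by positivity, fun N hN z hz => (abs_add_le _ _).trans ?_⟩
  rw [add_div]
  exact add_le_add (h N hN z hz) (h' N hN z hz)

lemma O1.neg (hF : O1 A F) : O1 A (fun N z => - F N z) := by
  obtain ⟨C, h0, h⟩ := hF
  exact ⟨C, h0, fun N hN z hz => by rw [abs_neg]; exact h N hN z hz⟩

lemma O1.congr (hF : O1 A F) (h : ∀ N : ℕ, 1 ≤ N → ∀ z ∈ A, G N z = F N z) : O1 A G := by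
  obtain ⟨C, h0, hC⟩ := hF
  exact ⟨C, h0, fun N hN z hz => by rw [h N hN z hz]; exact hC N hN z hz⟩

lemma O1.sub (hF : O1 A F) (hG : O1 A G) : O1 A (fun N z => F N z - G N z) :=
  (hF.add hG.neg).congr fun N _ z _ => by ring

lemma O1.sum {ι : Type} (s : Finset ι) {F : ι → ℕ → X → ℝ} (h : ∀ i ∈ s, O1 A (F i)) :
    O1 A (fun N z => ∑ i ∈ s, F i N z) := by
  classical
  induction s using Finset.induction_on with
  | empty => exact ⟨0, le_rfl, fun N _ z _ => by simp⟩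
  | insert i s hi ih =>
    simp only [Finset.sum_insert hi]
    exact (h i (Finset.mem_insert_self i s)).add
      (ih fun j hj => h j (Finset.mem_insert_of_mem hj))

lemma O1.mul (hF : O1 A F) (hG : B1 A G) : O1 A (fun N z => F N z * G N z) := by
  obtain ⟨C, h0, h⟩ := hF
  obtain ⟨C', h0', h'⟩ := hG
  refine ⟨C * C', by positivity, fun N hN z hz => ?_⟩
  rw [abs_mul]
  have hN' : (0:ℝ) < N := by exact_mod_cast hN
  calc |F N z| * |G N z| ≤ C / N * C' :=
        mul_le_mul (h N hN z hz) (h' N hN z hz) (abs_nonneg _) (by positivity)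
    _ = C * C' / N := by ring

lemma O1.toB1 (hF : O1 A F) : B1 A F := by
  obtain ⟨C, h0, h⟩ := hF
  refine ⟨C, h0, fun N hN z hz => (h N hN z hz).trans ?_⟩
  have hN' : (1:ℝ) ≤ N := by exact_mod_cast hN
  exact div_le_self h0 hN'

lemma B1.add (hF : B1 A F) (hG : B1 A G) : B1 A (fun N z => F N z + G N z) := by
  obtain ⟨C, h0, h⟩ := hF
  obtain ⟨C', h0', h'⟩ := hG
  exact ⟨C + C', by positivity, fun N hN z hz =>
    (abs_add_le _ _).trans (add_le_add (h N hN z hz) (h' N hN z hz))⟩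

lemma B1.mul (hF : B1 A F) (hG : B1 A G) : B1 A (fun N z => F N z * G N z) := by
  obtain ⟨C, h0, h⟩ := hF
  obtain ⟨C', h0', h'⟩ := hG
  refine ⟨C * C', by positivity, fun N hN z hz => ?_⟩
  rw [abs_mul]
  exact mul_le_mul (h N hN z hz) (h' N hN z hz) (abs_nonneg _) h0

lemma B1.neg (hF : B1 A F) : B1 A (fun N z => - F N z) := by
  obtain ⟨C, h0, h⟩ := hF
  exact ⟨C, h0, fun N hN z hz => by rw [abs_neg]; exact h N hN z hz⟩

lemma B1.congr (hF : B1 A F) (h : ∀ N : ℕ, 1 ≤ N → ∀ z ∈ A, G N z = F N z) : B1 A G := by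
  obtain ⟨C, h0, hC⟩ := hF
  exact ⟨C, h0, fun N hN z hz => by rw [h N hN z hz]; exact hC N hN z hz⟩

lemma B1.sum {ι : Type} (s : Finset ι) {F : ι → ℕ → X → ℝ} (h : ∀ i ∈ s, B1 A (F i)) :
    B1 A (fun N z => ∑ i ∈ s, F i N z) := by
  classical
  induction s using Finset.induction_on with
  | empty => exact ⟨0, le_rfl, fun N _ z _ => by simp⟩
  | insert i s hi ih =>
    simp only [Finset.sum_insert hi]
    exact (h i (Finset.mem_insert_self i s)).add
      (ih fun j hj => h j (Finset.mem_insert_of_mem hj))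

lemma B1.const (hA : IsCompact A) {f : X → ℝ} (hf : Continuous f) : B1 A (fun _ => f) := by
  obtain ⟨C, hC⟩ := bounded_on hA hf
  exact ⟨|C|, abs_nonneg C, fun N _ z hz => (hC z hz).trans (le_abs_self C)⟩

lemma B1.cos (θ : ℕ → X → ℝ) : B1 A (fun N z => Real.cos (θ N z)) :=
  ⟨1, zero_le_one, fun _ _ _ _ => Real.abs_cos_le_one _⟩

lemma B1.sin (θ : ℕ → X → ℝ) : B1 A (fun N z => Real.sin (θ N z)) :=
  ⟨1, zero_le_one, fun _ _ _ _ => Real.abs_sin_le_one _⟩

lemma B1.real (c : ℝ) : B1 A (fun _ _ => c) := ⟨|c|, abs_nonneg c, fun _ _ _ _ => le_rfl⟩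

lemma O1.inv : O1 A (fun N _ => (N:ℝ)⁻¹) :=
  ⟨1, zero_le_one, fun N hN z _ => by
    rw [abs_of_nonneg (by positivity), one_div]⟩

/-- Eulerian phase -/
def phx (k : Fin 3 → ℝ) : X → ℝ := fun z => ∑ i, k i * z.2 i
/-- Lagrangian phase -/
def phy (u : Fin 3 → X → ℝ) (k : Fin 3 → ℝ) : X → ℝ := fun z => ∑ i, k i * lab u i z

lemma phx_smooth (k : Fin 3 → ℝ) : ContDiff ℝ ∞ (phx k) :=
  ContDiff.sum fun i _ => contDiff_const.mul (contDiff_euclidean.1 contDiff_snd i)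

lemma D_coord (j i : Fin 3) (z : X) : D (ev j) (fun z : X => z.2 i) z = if i = j then 1 else 0 := by
  unfold D
  have h : (fun z : X => z.2 i) = fun z : X =>
      ((EuclideanSpace.proj i : E3 →L[ℝ] ℝ).comp (ContinuousLinearMap.snd ℝ ℝ E3)) z := by
    ext z; rfl
  rw [h, ContinuousLinearMap.fderiv]
  simp [ev]

lemma coord_smooth (i : Fin 3) : ContDiff ℝ ∞ (fun z : X => z.2 i) :=
  contDiff_euclidean.1 contDiff_snd i

lemma D_phx (k : Fin 3 → ℝ) (j : Fin 3) (z : X) : D (ev j) (phx k) z = k j := by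
  unfold phx
  rw [D_sum _ (fun i _ => contDiff_const.mul (coord_smooth i))]
  have : ∀ i, D (ev j) (fun z : X => k i * z.2 i) z = k i * (if i = j then 1 else 0) := by
    intro i
    rw [D_const_mul (coord_smooth i)]
    simp only [D_coord]
  simp [this]

lemma Dt_phx (k : Fin 3 → ℝ) (z : X) : D et (phx k) z = 0 := by
  unfold phx
  rw [D_sum _ (fun i _ => contDiff_const.mul (coord_smooth i))]
  refine Finset.sum_eq_zero fun i _ => ?_
  rw [D_const_mul (coord_smooth i)]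
  beta_reduce
  unfold D
  have h : (fun z : X => z.2 i) = fun z : X =>
      ((EuclideanSpace.proj i : E3 →L[ℝ] ℝ).comp (ContinuousLinearMap.snd ℝ ℝ E3)) z := by
    ext z; rfl
  rw [h, ContinuousLinearMap.fderiv]
  simp [et]

variable {u : Fin 3 → X → ℝ}

lemma phy_smooth {Y : Fin 3 → X → ℝ} (hY : ∀ i, ContDiff ℝ ∞ (Y i)) (k : Fin 3 → ℝ) :
    ContDiff ℝ ∞ (fun z => ∑ i, k i * Y i z) :=
  ContDiff.sum fun i _ => contDiff_const.mul (hY i)

lemma D_phy {Y : Fin 3 → X → ℝ} (hY : ∀ i, ContDiff ℝ ∞ (Y i)) (k : Fin 3 → ℝ) (v z : X) :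
    D v (fun z => ∑ i, k i * Y i z) z = ∑ i, k i * D v (Y i) z := by
  rw [D_sum _ (fun i _ => contDiff_const.mul (hY i))]
  refine Finset.sum_congr rfl fun i _ => ?_
  rw [D_const_mul (hY i)]

variable (S : St) (k : Fin 3 → ℝ) (ζ : X → ℝ) (ε : ℝ)

/-- component of the error in direction `k` -/
def edk (z : X) : ℝ := ∑ i, S.e i z * k i
/-- amplitude of the oscillating part of the gradient of the pressure of the first solution -/
def Qf (z : X) : ℝ := ζ z * edk S k z / (ε * S.R1 z * ∑ i, k i ^ 2)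

/-- amplitudes -/
def Af : Fin 5 → Fin 3 → X → ℝ :=
  ![fun i z => -(ε * ζ z) * S.b i z,
    fun i z => ((S.R1 z / S.R2 z) * (ε * ζ z)) * S.gp i z,
    fun i z => ((S.R1 z / S.R2 z) * Qf S k ζ ε z) * k i,
    fun i z => -(ε / 2 * (S.R1 z / S.R2 z) * Qf S k ζ ε z) * k i,
    fun i z => (ε / 2 * (S.R1 z / S.R2 z) * Qf S k ζ ε z) * k i]

/-- phases -/
def Pf : Fin 5 → X → ℝ :=
  ![phy S.u k, phx k, phx k, fun z => phx k z + phy S.u k z, fun z => 2 * phx k z]

/-- data at a point -/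
def pnt (N : ℕ) (z : X) : Pt where
  a := vec fun i => S.acc i z
  b := vec fun i => S.b i z
  g := vec fun i => S.gp i z
  k := vec k
  R1 := S.R1 z
  R2 := S.R2 z
  ζ := ζ z
  ε := ε
  cx := Real.cos (N * phx k z)
  cy := Real.cos (N * phy S.u k z)
  sx := Real.sin (N * phx k z)
  sy := Real.sin (N * phy S.u k z)

/-- the new state -/
def nst (w : Fin 3 → X → ℝ) (π : X → ℝ) (N : ℕ) : St where
  u := fun i z => S.u i z + w i z
  r := fun x => S.r x * (1 + ε * Real.cos (N * ∑ i, k i * x i))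
  p := fun z => S.p z + (N:ℝ)⁻¹ * (Qf S k ζ ε z * Real.sin (N * phx k z))
  q := fun z => S.q z + π z

/-- requirements for the construction -/
structure Req (K₀ : Set X) : Prop where
  good : Good K₀ S
  hK : IsCompact K₀
  k0 : k ≠ 0
  ζs : ContDiff ℝ ∞ ζ
  ζc : HasCompactSupport ζ
  ζt : ∀ z ∈ tsupport ζ, (∃ i, S.u i z ≠ 0) ∧ (∑ i, k i * D et (lab S.u i) z ≠ 0 ∧
        ∑ j, (k j + ∑ i, k i * D (ev j) (lab S.u i) z) ^ 2 ≠ 0)
  ζ0 : ∀ z, 0 ≤ ζ z
  ζ1 : ∀ z, ζ z ≤ 1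
  ε0 : 0 < ε
  ε1 : ε ≤ 1 / 10

variable {S k ζ ε}

lemma sum_sq_ne (hk : k ≠ 0) : ∑ i, k i ^ 2 ≠ 0 := by
  intro h0
  apply hk
  ext i
  have := (Finset.sum_eq_zero_iff_of_nonneg (fun i _ => sq_nonneg (k i))).1 h0 i
    (Finset.mem_univ i)
  simpa using this

namespace Req

variable {K₀ : Set X} (h : Req S k ζ ε K₀)
include h

lemma κ0 : ∑ i, k i ^ 2 ≠ 0 := sum_sq_ne h.k0

lemma R1lo (z : X) : 1 / 2 ≤ S.R1 z := h.good.rlo _
lemma R1hi (z : X) : S.R1 z ≤ 2 := h.good.rhi _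
lemma R2lo (z : X) : 1 / 2 ≤ S.R2 z := h.good.rlo _
lemma R2hi (z : X) : S.R2 z ≤ 2 := h.good.rhi _

lemma edks : ContDiff ℝ ∞ (edk S k) :=
  ContDiff.sum fun i _ => (h.good.es h.hK i).mul contDiff_const

lemma Qfs : ContDiff ℝ ∞ (Qf S k ζ ε) := by
  unfold Qf
  refine (h.ζs.mul h.edks).div ((contDiff_const.mul h.good.R1s).mul contDiff_const) fun z => ?_
  have h1 := h.R1lo z
  have h2 := h.κ0
  have h3 := h.ε0
  positivity

lemma Qf_tsupport : tsupport (Qf S k ζ ε) ⊆ tsupport ζ := by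
  refine closure_minimal (fun z hz => ?_) (isClosed_tsupport _)
  refine subset_tsupport _ fun h0 => hz ?_
  simp [Qf, h0]

lemma ratio : ContDiff ℝ ∞ (fun z => S.R1 z / S.R2 z) :=
  h.good.R1s.div (h.good.R2s h.hK) fun z => by linarith [h.R2lo z]

lemma Afs (m : Fin 5) (i : Fin 3) : ContDiff ℝ ∞ (Af S k ζ ε m i) := by
  have hr := h.ratio
  have hQ := h.Qfs
  fin_cases m
  · exact ((contDiff_const.mul h.ζs).neg).mul (h.good.bs i)
  · exact (hr.mul (contDiff_const.mul h.ζs)).mul (h.good.gps i)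
  · exact (hr.mul hQ).mul contDiff_const
  · exact (((contDiff_const.mul hr).mul hQ).neg).mul contDiff_const
  · exact (((contDiff_const.mul hr).mul hQ)).mul contDiff_const

lemma Af_tsupport (m : Fin 5) (i : Fin 3) : tsupport (Af S k ζ ε m i) ⊆ tsupport ζ := by
  refine closure_minimal (fun z hz => ?_) (isClosed_tsupport _)
  refine subset_tsupport _ fun h0 => hz ?_
  fin_cases m <;> simp [Af, Qf, h0]

lemma phys : ContDiff ℝ ∞ (phy S.u k) :=
  phy_smooth (h.good.lab_isLabel h.hK).smooth k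

lemma Pfs (m : Fin 5) : ContDiff ℝ ∞ (Pf S k m) := by
  fin_cases m
  · exact h.phys
  · exact phx_smooth k
  · exact phx_smooth k
  · exact (phx_smooth k).add h.phys
  · exact contDiff_const.mul (phx_smooth k)

lemma Pf_nd (m : Fin 5) (z : X) (hz : z ∈ tsupport ζ) :
    ∑ j, (D (ev j) (Pf S k m) z) ^ 2 ≠ 0 := by
  obtain ⟨h1, h2, h3⟩ := h.ζt z hz
  have hY := h.good.lab_isLabel h.hK
  have hxx : ∑ j, (D (ev j) (phx k) z) ^ 2 ≠ 0 := by
    simp only [D_phx]; exact h.κ0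
  fin_cases m
  · change ∑ j, (D (ev j) (phy S.u k) z) ^ 2 ≠ 0
    intro h0
    have h4 : ∀ j, D (ev j) (phy S.u k) z = 0 := by
      intro j
      have := (Finset.sum_eq_zero_iff_of_nonneg (fun j _ => sq_nonneg
        (D (ev j) (phy S.u k) z))).1 h0 j (Finset.mem_univ j)
      simpa using this
    apply h2
    have h5 : ∑ i, k i * (D et (lab S.u i) z + ∑ j, S.u j z * D (ev j) (lab S.u i) z) = 0 := by
      simp only [hY.transport, mul_zero, Finset.sum_const_zero]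
    simp only [mul_add, Finset.sum_add_distrib] at h5
    have h6 : ∑ i, k i * ∑ j, S.u j z * D (ev j) (lab S.u i) z = 0 := by
      have : ∑ i, k i * ∑ j, S.u j z * D (ev j) (lab S.u i) z
          = ∑ j, S.u j z * D (ev j) (phy S.u k) z := by
        unfold phy
        simp only [D_phy hY.smooth, Finset.mul_sum]
        rw [Finset.sum_comm]
        refine Finset.sum_congr rfl fun j _ => Finset.sum_congr rfl fun i _ => by ring
      rw [this]
      simp [h4]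
    linarith
  · exact hxx
  · exact hxx
  · change ∑ j, (D (ev j) (fun z => phx k z + phy S.u k z) z) ^ 2 ≠ 0
    have : ∀ j, D (ev j) (fun z => phx k z + phy S.u k z) z
        = k j + ∑ i, k i * D (ev j) (lab S.u i) z := by
      intro j
      rw [D_add (phx_smooth k) h.phys]
      simp only [D_phx]
      unfold phy
      rw [D_phy hY.smooth]
    simp only [this]
    exact h3
  · change ∑ j, (D (ev j) (fun z => 2 * phx k z) z) ^ 2 ≠ 0
    have : ∀ j, D (ev j) (fun z => 2 * phx k z) z = 2 * k j := by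
      intro j
      rw [D_const_mul (phx_smooth k)]
      simp only [D_phx]
    simp only [this, mul_pow, ← Finset.mul_sum]
    exact mul_ne_zero (by norm_num) h.κ0

lemma pnt_e (N : ℕ) (z : X) : (pnt S k ζ ε N z).e = vec fun i => S.e i z := by
  ext i
  simp [Pt.e, pnt, St.e]

lemma pnt_s (N : ℕ) (z : X) : (pnt S k ζ ε N z).s = edk S k z := by
  unfold Pt.s
  rw [h.pnt_e]
  rfl

lemma pnt_κ (N : ℕ) (z : X) : (pnt S k ζ ε N z).κ = ∑ i, k i ^ 2 := rfl

lemma pnt_Q (N : ℕ) (z : X) : (pnt S k ζ ε N z).Q = Qf S k ζ ε z := by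
  unfold Pt.Q
  rw [h.pnt_s, h.pnt_κ]
  rfl

lemma pnt_cs (N : ℕ) (z : X) : (pnt S k ζ ε N z).cs =
    Real.cos (N * (phx k z + phy S.u k z)) := by
  rw [mul_add, Real.cos_add]
  rfl

lemma pnt_c2 (N : ℕ) (z : X) : (pnt S k ζ ε N z).c2 =
    Real.cos (N * (2 * phx k z)) := by
  have : (N:ℝ) * (2 * phx k z) = 2 * (N * phx k z) := by ring
  rw [this, Real.cos_two_mul]
  rfl

lemma pnt_cθ (N : ℕ) (z : X) : (pnt S k ζ ε N z).cθ =
    Real.cos (N * (phx k z - phy S.u k z)) := by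
  rw [mul_sub, Real.cos_sub]
  rfl

lemma pnt_ok (N : ℕ) (z : X) : (pnt S k ζ ε N z).Ok where
  κ0 := h.κ0
  ε0 := h.ε0
  ε1 := h.ε1
  R10 := h.R1lo z
  R11 := h.R1hi z
  R20 := h.R2lo z
  R21 := h.R2hi z
  ζ0 := h.ζ0 z
  ζ1 := h.ζ1 z
  hcx := Real.abs_cos_le_one _
  hcy := Real.abs_cos_le_one _
  hcs := by rw [h.pnt_cs]; exact Real.abs_cos_le_one _
  hc2 := by rw [h.pnt_c2]; exact Real.abs_cos_le_one _

lemma pnt_G (N : ℕ) (z : X) (i : Fin 3) : (pnt S k ζ ε N z).G i =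
    ∑ m, Af S k ζ ε m i z * Real.cos (N * Pf S k m z) := by
  have hQ := h.pnt_Q N z
  have hcs := h.pnt_cs N z
  have hc2 := h.pnt_c2 N z
  unfold Pt.G
  rw [hQ, hcs, hc2]
  simp only [Fin.sum_univ_five, PiLp.add_apply, PiLp.smul_apply, smul_eq_mul]
  simp [Af, Pf, pnt]
  ring

end Req

end

end Pool.Agent.H729R2
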