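import Pool.Agent.H729R2.Approx2

open scoped ContDiff
open Set MeasureTheory Filter Topology

namespace Pool.Agent.H729R2

noncomputable section

set_option linter.unusedSectionVars false

/-- time slab -/
def slab (T : ℝ) : Set X := {z | 0 ≤ z.1 ∧ z.1 ≤ T}

variable {S : St} {k : Fin 3 → ℝ} {ζ : X → ℝ} {ε : ℝ} {K₀ : Set X}

namespace Mic

variable {w : ℕ → Fin 3 → X → ℝ} {π : ℕ → X → ℝ} {C : ℝ}
variable (h : Req S k ζ ε K₀) (m : Mic S k ζ ε w π C)
include h m

lemma b_eq (N : ℕ) (i : Fin 3) (z : X) : (nst S k ζ ε (w N) (π N) N).b i z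
    = S.b i z + (- (∑ j, D (ev j) (D (ev j) (w N i)) z) + D (ev i) (π N) z) := by
  have hg := h.good
  unfold St.b
  have e1 : ∀ j, D (ev j) (D (ev j) ((nst S k ζ ε (w N) (π N) N).u i)) z
      = D (ev j) (D (ev j) (S.u i)) z + D (ev j) (D (ev j) (w N i)) z := by
    intro j
    have : (nst S k ζ ε (w N) (π N) N).u i = fun z => S.u i z + w N i z := rfl
    rw [this, D_add (hg.hu i) (m.ws N i),
      D_add (D_smooth (hg.hu i) (ev j)) (D_smooth (m.ws N i) (ev j))]
  have e2 : D (ev i) (nst S k ζ ε (w N) (π N) N).q z = D (ev i) S.q z + D (ev i) (π N) z := by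
    have : (nst S k ζ ε (w N) (π N) N).q = fun z => S.q z + π N z := rfl
    rw [this, D_add hg.hq (m.πs N)]
  rw [e2, Finset.sum_congr rfl fun j _ => e1 j, Finset.sum_add_distrib]
  ring

lemma b_close (i : Fin 3) : O1 K₀ (fun N z => (nst S k ζ ε (w N) (π N) N).b i z
    - (S.b i z + (pnt S k ζ ε N z).G i)) := by
  refine ⟨C, m.C0, fun N hN z _ => ?_⟩
  beta_reduce
  rw [m.b_eq h, h.pnt_G]
  have := m.ap N hN i z
  convert this using 2
  ring

lemma gp_eq {N : ℕ} (hN : 1 ≤ N) (i : Fin 3) (z : X) : (nst S k ζ ε (w N) (π N) N).gp i z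
    = S.gp i z + ((N:ℝ)⁻¹ * (D (ev i) (Qf S k ζ ε) z * Real.sin (N * phx k z))
      + Qf S k ζ ε z * Real.cos (N * phx k z) * k i) := by
  have hg := h.good
  have hN' : (N:ℝ) ≠ 0 := by
    have : (1:ℝ) ≤ N := by exact_mod_cast hN
    linarith
  have hsin : ContDiff ℝ ∞ (fun z => Real.sin (N * phx k z)) :=
    Real.contDiff_sin.comp (contDiff_const.mul (phx_smooth k))
  unfold St.gp
  have : (nst S k ζ ε (w N) (π N) N).p =
      fun z => S.p z + (N:ℝ)⁻¹ * (Qf S k ζ ε z * Real.sin (N * phx k z)) := rfl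
  rw [this, D_add hg.hp (contDiff_const.mul (h.Qfs.mul hsin)), D_const_mul (h.Qfs.mul hsin),
    D_mul h.Qfs hsin, D_sin (phx_smooth k)]
  simp only [D_phx]
  field_simp

lemma gp_close (i : Fin 3) : O1 K₀ (fun N z => (nst S k ζ ε (w N) (π N) N).gp i z
    - (S.gp i z + Qf S k ζ ε z * Real.cos (N * phx k z) * k i)) := by
  have h1 : O1 K₀ (fun N z => (N:ℝ)⁻¹ * (D (ev i) (Qf S k ζ ε) z * Real.sin (N * phx k z))) :=
    O1.inv.mul ((B1.const h.hK (D_smooth h.Qfs (ev i)).continuous).mul (B1.sin _))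
  refine h1.congr fun N hN z _ => ?_
  rw [m.gp_eq h hN]
  ring

lemma w_close (i : Fin 3) : O1 K₀ (fun N z => w N i z) := by
  refine ⟨C, m.C0, fun N hN z _ => (m.w0 N hN i z).trans ?_⟩
  have hN' : (1:ℝ) ≤ N := by exact_mod_cast hN
  refine div_le_div_of_nonneg_left m.C0 (by linarith) (by nlinarith)

lemma acc_close (i : Fin 3) : O1 K₀ (fun N z => (nst S k ζ ε (w N) (π N) N).acc i z
    - S.acc i z) := by
  have hg := h.good
  have h1 : O1 K₀ (fun N z => D et (w N i) z) := ⟨C, m.C0, fun N hN z _ => m.wt N hN i z⟩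
  have h2 : ∀ j, O1 K₀ (fun N z => D (ev j) (w N i) z) := fun j =>
    ⟨C, m.C0, fun N hN z _ => m.wx N hN i j z⟩
  have h3 : ∀ j, O1 K₀ (fun N z => D (ev j) (w N i) z * S.u j z) := fun j =>
    (h2 j).mul (B1.const h.hK (hg.hu j).continuous)
  have h4 : ∀ j, O1 K₀ (fun N z => w N j z * D (ev j) (S.u i) z) := fun j =>
    (m.w_close h j).mul (B1.const h.hK (D_smooth (hg.hu i) (ev j)).continuous)
  have h5 : ∀ j, O1 K₀ (fun N z => w N j z * D (ev j) (w N i) z) := fun j =>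
    (m.w_close h j).mul (h2 j).toB1
  refine (h1.add (O1.sum Finset.univ fun j _ => ((h3 j).add (h4 j)).add (h5 j))).congr
    fun N hN z _ => ?_
  unfold St.acc
  have : ∀ l, (nst S k ζ ε (w N) (π N) N).u l = fun z => S.u l z + w N l z := fun _ => rfl
  simp only [this]
  rw [D_add (hg.hu i) (m.ws N i)]
  have e1 : ∀ j, D (ev j) (fun z => S.u i z + w N i z) z
      = D (ev j) (S.u i) z + D (ev j) (w N i) z := fun j =>
    congrFun (D_add (hg.hu i) (m.ws N i) (ev j)) z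
  simp only [e1]
  have e2 : ∀ j, (S.u j z + w N j z) * (D (ev j) (S.u i) z + D (ev j) (w N i) z)
      = S.u j z * D (ev j) (S.u i) z + (D (ev j) (w N i) z * S.u j z
        + w N j z * D (ev j) (S.u i) z + w N j z * D (ev j) (w N i) z) := fun j => by ring
  rw [Finset.sum_congr rfl fun j _ => e2 j, Finset.sum_add_distrib (f := fun j =>
    S.u j z * D (ev j) (S.u i) z)]
  ring

lemma R2_close (T₀ : ℝ) : O1 (slab T₀) (fun N z => (nst S k ζ ε (w N) (π N) N).R2 z
    - S.R2 z * (1 + ε * Real.cos (N * phy S.u k z))) := by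
  have hg := h.good
  obtain ⟨L, hL⟩ := hg.rlip
  obtain ⟨CL, hCL0, hCL⟩ := lab_close hg.hu (hg.ucs h.hK) T₀
  have hε := h.ε0
  have htK : tsupport ζ ⊆ K₀ := fun z hz' => by
    obtain ⟨i, hi⟩ := (h.ζt z hz').1
    exact hg.uK i (subset_tsupport _ hi)
  refine ⟨4 * L * CL * C + 2 * ε * ((∑ i, |k i|) * (2 * (CL * C))),
    by have := m.C0; positivity, fun N hN z hz => ?_⟩
  have hN' : (1:ℝ) ≤ N := by exact_mod_cast hN
  have hC0 := m.C0
  set u' : Fin 3 → X → ℝ := fun i z => S.u i z + w N i z with hu'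
  have hcl : ∀ i, tsupport (u' i) ⊆ K₀ := by
    intro i
    refine closure_minimal (fun z hz => ?_) h.hK.isClosed
    by_contra hcon
    apply hz
    have e1 : S.u i z = 0 := image_eq_zero_of_notMem_tsupport fun h' => hcon (hg.uK i h')
    have e2 : w N i z = 0 := m.wz h N i fun h' => hcon (htK h')
    simp [hu', e1, e2]
  have hY := hCL u' (fun i => (hg.hu i).add (m.ws N i))
    (fun i => hcs_of_tsupport_subset h.hK (hcl i)) (C / (N:ℝ) ^ 2)
    (fun i z => by simpa [hu'] using m.w0 N hN i z) z hz.1 hz.2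
  have hN2 : (N:ℝ) ≤ (N:ℝ) ^ 2 := by nlinarith
  set y' : E3 := vec fun i => lab u' i z with hy'
  set y : E3 := vec fun i => lab S.u i z with hy
  have hd : dist y' y ≤ 2 * (CL * (C / (N:ℝ) ^ 2)) := by
    rw [dist_eq_norm]
    have : y' - y = vec fun i => lab u' i z - lab S.u i z := by
      ext i; simp [hy', hy]
    rw [this]
    exact norm_vec_le hY
  have hc : |Real.cos (N * ∑ i, k i * y' i) - Real.cos (N * ∑ i, k i * y i)|
      ≤ N * ((∑ i, |k i|) * dist y' y) := m.lip_cos h N y' y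
  have hr := hL.dist_le_mul y' y
  rw [Real.dist_eq] at hr
  have e1 : (nst S k ζ ε (w N) (π N) N).R2 z - S.R2 z * (1 + ε * Real.cos (N * phy S.u k z))
      = (S.r y' - S.r y) * (1 + ε * Real.cos (N * ∑ i, k i * y' i))
        + S.r y * (ε * (Real.cos (N * ∑ i, k i * y' i) - Real.cos (N * ∑ i, k i * y i))) := by
    have f1 : (nst S k ζ ε (w N) (π N) N).R2 z
        = S.r y' * (1 + ε * Real.cos (N * ∑ i, k i * y' i)) := rfl
    have f2 : S.R2 z = S.r y := rfl
    have f3 : phy S.u k z = ∑ i, k i * y i := rfl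
    rw [f1, f2, f3]
    ring
  have hb : |1 + ε * Real.cos (N * ∑ i, k i * y' i)| ≤ 2 := by
    refine (abs_add_le _ _).trans ?_
    rw [abs_one, abs_mul, abs_of_pos hε]
    have := mul_le_mul h.ε1 (Real.abs_cos_le_one (N * ∑ i, k i * y' i)) (abs_nonneg _)
      (by norm_num)
    linarith
  have hry : |S.r y| ≤ 2 := abs_le.2 ⟨by linarith [hg.rlo y], hg.rhi y⟩
  beta_reduce
  rw [e1]
  refine (abs_add_le _ _).trans ?_
  rw [abs_mul, abs_mul, abs_mul, abs_of_pos hε]
  have hd0 : 0 ≤ dist y' y := dist_nonneg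
  have hk0 : 0 ≤ ∑ i, |k i| := Finset.sum_nonneg fun i _ => abs_nonneg _
  have f1 := mul_le_mul hr hb (abs_nonneg _) (by positivity)
  have f2 := mul_le_mul hry (mul_le_mul_of_nonneg_left hc hε.le) (by positivity) (by norm_num)
  refine (add_le_add f1 f2).trans ?_
  have g1 : (L:ℝ) * dist y' y * 2 ≤ 4 * L * CL * C / N := by
    have : (L:ℝ) * dist y' y * 2 ≤ L * (2 * (CL * (C / (N:ℝ) ^ 2))) * 2 := by gcongr
    refine this.trans ?_
    have h3 : C / (N:ℝ) ^ 2 ≤ C / N := div_le_div_of_nonneg_left hC0 (by linarith) hN2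
    calc (L:ℝ) * (2 * (CL * (C / (N:ℝ) ^ 2))) * 2 ≤ L * (2 * (CL * (C / (N:ℝ)))) * 2 := by gcongr
      _ = _ := by ring
  have g2 : 2 * (ε * ((N:ℝ) * ((∑ i, |k i|) * dist y' y)))
      ≤ 2 * ε * ((∑ i, |k i|) * (2 * (CL * C))) / N := by
    have : 2 * (ε * ((N:ℝ) * ((∑ i, |k i|) * dist y' y)))
      ≤ 2 * (ε * ((N:ℝ) * ((∑ i, |k i|) * (2 * (CL * (C / (N:ℝ) ^ 2)))))) := by gcongr
    refine this.trans (le_of_eq ?_)
    field_simp
  rw [add_div]
  exact add_le_add g1 g2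

/-- the new error is close to the model error -/
lemma e_close {T₀ : ℝ} (hKT : K₀ ⊆ slab T₀) (i : Fin 3) :
    O1 K₀ (fun N z => (nst S k ζ ε (w N) (π N) N).e i z - (pnt S k ζ ε N z).et' i) := by
  have hg := h.good
  have hR2 : O1 K₀ (fun N z => (nst S k ζ ε (w N) (π N) N).R2 z
      - S.R2 z * (1 + ε * Real.cos (N * phy S.u k z))) := by
    obtain ⟨C, h0, hC⟩ := m.R2_close h T₀
    exact ⟨C, h0, fun N hN z hz => hC N hN z (hKT hz)⟩
  have hGb : B1 K₀ (fun N z => (pnt S k ζ ε N z).G i) := by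
    refine (B1.sum (Finset.univ : Finset (Fin 5)) fun l _ => (B1.const h.hK
      (h.Afs l i).continuous).mul (B1.cos (fun N z => N * Pf S k l z))).congr fun N hN z _ => ?_
    rw [h.pnt_G]
  have hbt : B1 K₀ (fun N z => S.b i z + (pnt S k ζ ε N z).G i) :=
    (B1.const h.hK (hg.bs i).continuous).add hGb
  have hb := m.b_close h i
  have hb' : B1 K₀ (fun N z => (nst S k ζ ε (w N) (π N) N).b i z) :=
    (hb.toB1.add hbt).congr fun N _ z _ => by ring
  have hR2t : B1 K₀ (fun N z => S.R2 z * (1 + ε * Real.cos (N * phy S.u k z))) :=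
    (B1.const h.hK (hg.R2s h.hK).continuous).mul ((B1.real 1).add ((B1.real ε).mul (B1.cos _)))
  have hR1t : B1 K₀ (fun N z => S.R1 z * (1 + ε * Real.cos (N * phx k z))) :=
    (B1.const h.hK hg.R1s.continuous).mul ((B1.real 1).add ((B1.real ε).mul (B1.cos _)))
  refine ((((m.acc_close h i).add (hR2.mul hb')).add (hb.mul hR2t)).sub
    ((m.gp_close h i).mul hR1t)).congr fun N hN z _ => ?_
  unfold St.e
  have e1 : (nst S k ζ ε (w N) (π N) N).R1 z = S.R1 z * (1 + ε * Real.cos (N * phx k z)) := rfl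
  have e2 : (pnt S k ζ ε N z).et' i = S.acc i z
      + (S.R2 z * (1 + ε * Real.cos (N * phy S.u k z))) * (S.b i z + (pnt S k ζ ε N z).G i)
      - (S.R1 z * (1 + ε * Real.cos (N * phx k z))) *
        (S.gp i z + Qf S k ζ ε z * Real.cos (N * phx k z) * k i) := by
    have hQ := h.pnt_Q N z
    unfold Pt.et'
    rw [hQ]
    simp only [PiLp.add_apply, PiLp.sub_apply, PiLp.smul_apply, smul_eq_mul]
    rfl
  rw [e1, e2]
  ring

end Mic

end

end Pool.Agent.H729R2
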