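import Mathlib

/-!
# Weak solutions of the multifluid incompressible MHD system

The definitions follow the problem file: the spaces `H`, `V`, `W`, the data, and weak solutions
`(ρ, u, B)` on `Ω × [0,T]`.  Time dependent objects are functions `ℝ → ℝ³ → _`; the Jacobian
matrix of a field `v` is written `J` with `J i j = ∂ⱼ vᵢ`.
-/

open MeasureTheory Set Filter Topology
open scoped ContDiff ENNReal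

namespace Pool.Agent.H729R2.MHD

noncomputable section

/-- the space `ℝ³` -/
abbrev R3 := EuclideanSpace ℝ (Fin 3)

/-- `∂ⱼ g` for a scalar function `g` on `ℝ³` -/
def pdx (j : Fin 3) (g : R3 → ℝ) (x : R3) : ℝ := fderiv ℝ g x (EuclideanSpace.single j 1)

/-- the space derivative `∂ⱼ g` for a scalar function `g` of `(t, x)` -/
def dx (j : Fin 3) (g : ℝ × R3 → ℝ) (z : ℝ × R3) : ℝ :=
  fderiv ℝ g z (0, EuclideanSpace.single j 1)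

/-- the time derivative `∂ₜ g` for a scalar function `g` of `(t, x)` -/
def dt (g : ℝ × R3 → ℝ) (z : ℝ × R3) : ℝ := fderiv ℝ g z (1, 0)

/-- the cylinder `(0,T) × Ω` -/
def Cyl (Ω : Set R3) (T : ℝ) : Set (ℝ × R3) := Ioo 0 T ×ˢ Ω

/-- the curl of a field with Jacobian matrix `J`, `J i j = ∂ⱼ vᵢ` -/
def curl (J : Fin 3 → Fin 3 → ℝ) : Fin 3 → ℝ :=
  ![J 2 1 - J 1 2, J 0 2 - J 2 0, J 1 0 - J 0 1]

/-- `v ∈ H`: `v ∈ L²(Ω)³` with `div v = 0` in `Ω` and `v · n = 0` on `∂Ω`, in the weak form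
`∫_Ω v · ∇ψ = 0` for all `ψ ∈ C^∞(ℝ³)` -/
structure InH (Ω : Set R3) (v : R3 → R3) : Prop where
  mem : MemLp v 2 (volume.restrict Ω)
  orth : ∀ ψ : R3 → ℝ, ContDiff ℝ ∞ ψ → ∫ x in Ω, ∑ i, v x i * pdx i ψ x = 0

/-- `v ∈ H¹(Ω)³` with weak Jacobian matrix `J` -/
structure InH1 (Ω : Set R3) (v : R3 → R3) (J : R3 → Fin 3 → Fin 3 → ℝ) : Prop where
  mem : MemLp v 2 (volume.restrict Ω)
  memJ : ∀ i j, MemLp (fun x => J x i j) 2 (volume.restrict Ω)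
  weak : ∀ i j, ∀ ψ : R3 → ℝ, ContDiff ℝ ∞ ψ → HasCompactSupport ψ → tsupport ψ ⊆ Ω →
    ∫ x in Ω, v x i * pdx j ψ x = - ∫ x in Ω, J x i j * ψ x

/-- `v ∈ V` with Jacobian matrix `J`: `v ∈ H¹₀(Ω)³`, the closure of `C_c^∞(Ω)³` in `H¹(Ω)³`, and
`div v = 0` -/
structure InV (Ω : Set R3) (v : R3 → R3) (J : R3 → Fin 3 → Fin 3 → ℝ) : Prop where
  h1 : InH1 Ω v J
  bdry : ∀ ε : ℝ≥0∞, 0 < ε → ∃ φ : R3 → R3, ContDiff ℝ ∞ φ ∧ HasCompactSupport φ ∧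
    tsupport φ ⊆ Ω ∧ eLpNorm (fun x => φ x - v x) 2 (volume.restrict Ω) ≤ ε ∧
    ∀ i j, eLpNorm (fun x => pdx j (fun y => φ y i) x - J x i j) 2 (volume.restrict Ω) ≤ ε
  div : ∀ᵐ x ∂(volume.restrict Ω), ∑ i, J x i i = 0

/-- `v ∈ W` with Jacobian matrix `J`: `v ∈ H¹(Ω)³`, `div v = 0` and `v · n = 0` on `∂Ω`, the
latter in the weak form `∫_Ω v · ∇ψ = 0` for all `ψ ∈ C^∞(ℝ³)` -/
structure InW (Ω : Set R3) (v : R3 → R3) (J : R3 → Fin 3 → Fin 3 → ℝ) : Prop where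
  h1 : InH1 Ω v J
  div : ∀ᵐ x ∂(volume.restrict Ω), ∑ i, J x i i = 0
  normal : ∀ ψ : R3 → ℝ, ContDiff ℝ ∞ ψ → ∫ x in Ω, ∑ i, v x i * pdx i ψ x = 0

/-- `v ∈ L^∞(0,T;H) ∩ C([0,T];H_w)` -/
structure InCw (Ω : Set R3) (T : ℝ) (v : ℝ → R3 → R3) : Prop where
  meas : AEStronglyMeasurable (fun z : ℝ × R3 => v z.1 z.2) (volume.restrict (Cyl Ω T))
  inH : ∀ t ∈ Icc 0 T, InH Ω (v t)
  bdd : ∃ C : ℝ≥0∞, C ≠ ⊤ ∧ ∀ t ∈ Icc 0 T, eLpNorm (v t) 2 (volume.restrict Ω) ≤ C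
  cont : ∀ h : R3 → R3, InH Ω h →
    ContinuousOn (fun t => ∫ x in Ω, ∑ i, v t x i * h x i) (Icc 0 T)

/-- `v ∈ L²(0,T;Y)` with Jacobian matrix `J`, where `Y` is `InV Ω` (the space `V`) or `InW Ω`
(the space `W`) -/
structure InL2 (Y : (R3 → R3) → (R3 → Fin 3 → Fin 3 → ℝ) → Prop) (Ω : Set R3) (T : ℝ)
    (v : ℝ → R3 → R3) (J : ℝ → R3 → Fin 3 → Fin 3 → ℝ) : Prop where
  mem : MemLp (fun z : ℝ × R3 => v z.1 z.2) 2 (volume.restrict (Cyl Ω T))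
  memJ : ∀ i j, MemLp (fun z : ℝ × R3 => J z.1 z.2 i j) 2 (volume.restrict (Cyl Ω T))
  space : ∀ᵐ t ∂(volume.restrict (Ioo 0 T)), Y (v t) (J t)

/-- `0 ≤ ρ ∈ L^∞(Ω × (0,T))` and `ρ ∈ C([0,T];L^p(Ω))` for all finite `p ≥ 1` -/
structure InDens (Ω : Set R3) (T : ℝ) (ρ : ℝ → R3 → ℝ) : Prop where
  meas : AEStronglyMeasurable (fun z : ℝ × R3 => ρ z.1 z.2) (volume.restrict (Cyl Ω T))
  bdd : ∃ C : ℝ, ∀ᵐ z ∂(volume.restrict (Cyl Ω T)), 0 ≤ ρ z.1 z.2 ∧ ρ z.1 z.2 ≤ C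
  mem : ∀ p : ℝ≥0∞, 1 ≤ p → p ≠ ⊤ → ∀ t ∈ Icc 0 T, MemLp (ρ t) p (volume.restrict Ω)
  cont : ∀ p : ℝ≥0∞, 1 ≤ p → p ≠ ⊤ → ∀ t₀ ∈ Icc 0 T,
    Tendsto (fun t => eLpNorm (fun x => ρ t x - ρ t₀ x) p (volume.restrict Ω))
      (𝓝[Icc 0 T] t₀) (𝓝 0)

/-- a coefficient (`η` or `σ`): continuous on `[0,∞)` with positive lower and finite upper bound -/
def Coeff (c : ℝ → ℝ) : Prop :=
  ContinuousOn c (Ici 0) ∧ ∃ a b : ℝ, 0 < a ∧ ∀ s, 0 ≤ s → a ≤ c s ∧ c s ≤ b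

/-- the data of the problem: `ρ₀ ∈ L^∞(Ω)` with `ess inf ρ₀ > 0`, `u₀, B₀ ∈ H`,
`f ∈ L²(0,T;L²(Ω)³)` and the coefficients -/
structure IsData (Ω : Set R3) (T : ℝ) (η σ : ℝ → ℝ) (ρ₀ : R3 → ℝ) (u₀ B₀ : R3 → R3)
    (f : ℝ → R3 → R3) : Prop where
  visc : Coeff η
  cond : Coeff σ
  dens : AEStronglyMeasurable ρ₀ (volume.restrict Ω) ∧
    ∃ a b : ℝ, 0 < a ∧ ∀ᵐ x ∂(volume.restrict Ω), a ≤ ρ₀ x ∧ ρ₀ x ≤ b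
  vel : InH Ω u₀
  mag : InH Ω B₀
  force : MemLp (fun z : ℝ × R3 => f z.1 z.2) 2 (volume.restrict (Cyl Ω T))

/-- smooth test fields compactly supported in `Ω × [0,T)`: restrictions to `t ≥ 0` of elements of
`C_c^∞((-∞,T) × Ω)³` -/
def Test (Ω : Set R3) (T : ℝ) (φ : ℝ × R3 → R3) : Prop :=
  ContDiff ℝ ∞ φ ∧ HasCompactSupport φ ∧ tsupport φ ⊆ Iio T ×ˢ Ω

/-- the transport equation `∂ₜρ + div (ρu) = 0` in `𝒟'((0,T) × Ω)` -/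
def Transport (Ω : Set R3) (T : ℝ) (ρ : ℝ → R3 → ℝ) (u : ℝ → R3 → R3) : Prop :=
  ∀ ψ : ℝ × R3 → ℝ, ContDiff ℝ ∞ ψ → HasCompactSupport ψ → tsupport ψ ⊆ Cyl Ω T →
    ∫ z in Cyl Ω T, ρ z.1 z.2 * (dt ψ z + ∑ j, u z.1 z.2 j * dx j ψ z) = 0

/-- the weak form of the momentum equation with initial data `ρ₀ u₀`: for all test fields `φ` with
`div φ = 0` in `[0,T) × Ω`,
`- ∫ ρ u·∂ₜφ - ∫_Ω ρ₀ u₀·φ(0) - ∫ ρ u⊗u : ∇φ + ∫ η(ρ) (∇u + ∇uᵀ) : ∇φ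
  = ∫ ρ f·φ + ∫ (curl B × B)·φ` -/
def Momentum (Ω : Set R3) (T : ℝ) (η : ℝ → ℝ) (ρ₀ : R3 → ℝ) (u₀ : R3 → R3) (f : ℝ → R3 → R3)
    (ρ : ℝ → R3 → ℝ) (u : ℝ → R3 → R3) (Ju : ℝ → R3 → Fin 3 → Fin 3 → ℝ) (B : ℝ → R3 → R3)
    (JB : ℝ → R3 → Fin 3 → Fin 3 → ℝ) : Prop :=
  ∀ φ : ℝ × R3 → R3, Test Ω T φ →
    (∀ z ∈ Ico 0 T ×ˢ Ω, ∑ i, dx i (fun y => φ y i) z = 0) →
    - (∫ z in Cyl Ω T, ρ z.1 z.2 * ∑ i, u z.1 z.2 i * dt (fun y => φ y i) z)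
    - (∫ x in Ω, ρ₀ x * ∑ i, u₀ x i * φ (0, x) i)
    - (∫ z in Cyl Ω T, ρ z.1 z.2 * ∑ i, ∑ j, u z.1 z.2 i * u z.1 z.2 j * dx j (fun y => φ y i) z)
    + (∫ z in Cyl Ω T, η (ρ z.1 z.2) *
        ∑ i, ∑ j, (Ju z.1 z.2 i j + Ju z.1 z.2 j i) * dx j (fun y => φ y i) z)
    = (∫ z in Cyl Ω T, ρ z.1 z.2 * ∑ i, f z.1 z.2 i * φ z i)
      + ∫ z in Cyl Ω T, ∑ i, crossProduct (curl (JB z.1 z.2)) (B z.1 z.2).ofLp i * φ z i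

/-- the weak form of the induction equation with initial datum `B₀`: for all test fields `φ`,
`- ∫ B·∂ₜφ - ∫_Ω B₀·φ(0) + ∫ σ(ρ)⁻¹ curl B · curl φ = ∫ (u × B)·curl φ` -/
def Induction (Ω : Set R3) (T : ℝ) (σ : ℝ → ℝ) (B₀ : R3 → R3) (ρ : ℝ → R3 → ℝ)
    (u : ℝ → R3 → R3) (B : ℝ → R3 → R3) (JB : ℝ → R3 → Fin 3 → Fin 3 → ℝ) : Prop :=
  ∀ φ : ℝ × R3 → R3, Test Ω T φ →
    - (∫ z in Cyl Ω T, ∑ i, B z.1 z.2 i * dt (fun y => φ y i) z)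
    - (∫ x in Ω, ∑ i, B₀ x i * φ (0, x) i)
    + (∫ z in Cyl Ω T, 1 / σ (ρ z.1 z.2) *
        ∑ i, curl (JB z.1 z.2) i * curl (fun i j => dx j (fun y => φ y i) z) i)
    = ∫ z in Cyl Ω T, ∑ i, crossProduct (u z.1 z.2).ofLp (B z.1 z.2).ofLp i *
        curl (fun i j => dx j (fun y => φ y i) z) i

/-- weak solutions `(ρ, u, B)` on `Ω × [0,T]` with the given data; moreover `ρ(0) = ρ₀` -/
structure WeakSol (Ω : Set R3) (T : ℝ) (η σ : ℝ → ℝ) (ρ₀ : R3 → ℝ) (u₀ B₀ : R3 → R3)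
    (f : ℝ → R3 → R3) (ρ : ℝ → R3 → ℝ) (u B : ℝ → R3 → R3) : Prop where
  dens : InDens Ω T ρ
  vel : InCw Ω T u
  mag : InCw Ω T B
  init : ∀ᵐ x ∂(volume.restrict Ω), ρ 0 x = ρ₀ x
  transport : Transport Ω T ρ u
  eqs : ∃ Ju JB : ℝ → R3 → Fin 3 → Fin 3 → ℝ, InL2 (InV Ω) Ω T u Ju ∧ InL2 (InW Ω) Ω T B JB ∧
    Momentum Ω T η ρ₀ u₀ f ρ u Ju B JB ∧ Induction Ω T σ B₀ ρ u B JB

end

end Pool.Agent.H729R2.MHD
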