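import Pool.Agent.H729R2.LimId
import Pool.Agent.H729R2.Defs

open scoped ContDiff ENNReal
open Set MeasureTheory Filter Topology

namespace Pool.Agent.H729R2

noncomputable section

open MHD

set_option linter.unusedSectionVars false

/-- continuity of the slices -/
lemma slice_cont {F : X → ℝ} (hF : Continuous F) (t : ℝ) : Continuous fun x : E3 => F (t, x) :=
  hF.comp (continuous_const.prodMk continuous_id)

lemma slice_smooth {F : X → ℝ} (hF : ContDiff ℝ ∞ F) (t : ℝ) :
    ContDiff ℝ ∞ fun x : E3 => F (t, x) :=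
  hF.comp (contDiff_const.prodMk contDiff_id)

lemma pdx_slice {F : X → ℝ} (hF : ContDiff ℝ ∞ F) (j : Fin 3) (t : ℝ) (x : E3) :
    pdx j (fun y : E3 => F (t, y)) x = D (ev j) F (t, x) := by
  unfold pdx D
  have h1 : HasFDerivAt (fun y : E3 => ((t, y) : X)) (ContinuousLinearMap.inr ℝ ℝ E3) x := by
    have := (hasFDerivAt_const t x).prodMk (hasFDerivAt_id (𝕜 := ℝ) x)
    exact this
  have h2 := ((smooth_diff hF) (t, x)).hasFDerivAt.comp x h1
  have h3 : fderiv ℝ (fun y : E3 => F (t, y)) x
      = (fderiv ℝ F (t, x)).comp (ContinuousLinearMap.inr ℝ ℝ E3) := h2.fderiv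
  rw [h3]
  simp [ev]

lemma finite_vol {Ω : Set E3} (hb : Bornology.IsBounded Ω) : IsFiniteMeasure (volume.restrict Ω) :=
  ⟨by rw [Measure.restrict_apply_univ]; exact hb.measure_lt_top⟩

lemma pdx_cont {F : E3 → ℝ} (hF : ContDiff ℝ ∞ F) (j : Fin 3) : Continuous (pdx j F) := by
  unfold pdx
  exact ((hF.fderiv_right (m := ∞) (by simp)).clm_apply contDiff_const).continuous

lemma pdx_supp {F : E3 → ℝ} (j : Fin 3) {x : E3} (hx : x ∉ tsupport F) : pdx j F x = 0 := by
  unfold pdx
  have : fderiv ℝ F x = 0 := by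
    have h := tsupport_fderiv_subset ℝ (f := F)
    exact image_eq_zero_of_notMem_tsupport fun h' => hx (h h')
  rw [this]
  rfl

/-- integration by parts in space -/
lemma ibp3 {F G : E3 → ℝ} (hF : ContDiff ℝ ∞ F) (hG : ContDiff ℝ ∞ G)
    (hc : HasCompactSupport F ∨ HasCompactSupport G) (j : Fin 3) :
    ∫ x, F x * pdx j G x = - ∫ x, pdx j F x * G x := by
  have hF' := pdx_cont hF j
  have hG' := pdx_cont hG j
  have c1 : HasCompactSupport fun x => pdx j F x * G x := by
    rcases hc with hc | hc
    · exact HasCompactSupport.intro hc fun x hx => by rw [pdx_supp j hx, zero_mul]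
    · exact HasCompactSupport.intro hc fun x hx => by
        rw [image_eq_zero_of_notMem_tsupport hx, mul_zero]
  have c2 : HasCompactSupport fun x => F x * pdx j G x := by
    rcases hc with hc | hc
    · exact HasCompactSupport.intro hc fun x hx => by
        rw [image_eq_zero_of_notMem_tsupport hx, zero_mul]
    · exact HasCompactSupport.intro hc fun x hx => by rw [pdx_supp j hx, mul_zero]
  have c3 : HasCompactSupport fun x => F x * G x := by
    rcases hc with hc | hc
    · exact hc.mul_right
    · exact hc.mul_left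
  exact integral_mul_fderiv_eq_neg_fderiv_mul_of_integrable
    ((hF'.mul hG.continuous).integrable_of_hasCompactSupport c1)
    ((hF.continuous.mul hG').integrable_of_hasCompactSupport c2)
    ((hF.continuous.mul hG.continuous).integrable_of_hasCompactSupport c3)
    (fun x _ => hF.differentiable (by simp) x)
    (fun x _ => hG.differentiable (by simp) x)

/-- continuous densities -/
lemma dens_of_cont {Ω : Set E3} (hΩ : IsOpen Ω) (hb : Bornology.IsBounded Ω) {T : ℝ}
    {ρ : ℝ → E3 → ℝ} (hc : Continuous fun z : X => ρ z.1 z.2) {C : ℝ}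
    (h0 : ∀ t x, 0 ≤ ρ t x ∧ ρ t x ≤ C) : InDens Ω T ρ := by
  have hfin := finite_vol hb
  have hct : ∀ t, Continuous (ρ t) := fun t => hc.comp (continuous_const.prodMk continuous_id)
  refine ⟨hc.aestronglyMeasurable, ⟨C, Eventually.of_forall fun z => h0 _ _⟩, ?_, ?_⟩
  · intro p _ _ t _
    exact MemLp.of_bound (hct t).aestronglyMeasurable C (Eventually.of_forall fun x => by
      rw [Real.norm_eq_abs, abs_of_nonneg (h0 t x).1]; exact (h0 t x).2)
  · intro p hp hp' t₀ _
    refine tendsto_nhdsWithin_of_tendsto_nhds ?_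
    rw [ENNReal.tendsto_nhds_zero]
    intro ε hε
    -- choose a real bound
    set M : ℝ≥0∞ := (volume.restrict Ω) univ ^ p.toReal⁻¹ with hM
    have hMt : M ≠ ⊤ := by
      rw [hM]
      exact ENNReal.rpow_ne_top_of_nonneg (by positivity) (measure_ne_top _ _)
    have h1 : Tendsto (fun c : ℝ => M * ENNReal.ofReal c) (𝓝[>] 0) (𝓝 0) := by
      have h2 : Tendsto (fun c : ℝ => ENNReal.ofReal c) (𝓝[>] 0) (𝓝 0) := by
        have := (ENNReal.continuous_ofReal.tendsto (0:ℝ))
        rw [ENNReal.ofReal_zero] at this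
        exact this.mono_left nhdsWithin_le_nhds
      have := ENNReal.Tendsto.const_mul h2 (Or.inr hMt)
      rwa [mul_zero] at this
    obtain ⟨c, hc1, hc2⟩ := ((h1.eventually (ge_mem_nhds hε)).and self_mem_nhdsWithin).exists
    have hK : IsCompact (Icc (t₀ - 1) (t₀ + 1) ×ˢ closure Ω) :=
      isCompact_Icc.prod hb.isCompact_closure
    have hu := hK.uniformContinuousOn_of_continuous (f := fun z : X => ρ z.1 z.2) hc.continuousOn
    rw [Metric.uniformContinuousOn_iff] at hu
    obtain ⟨δ, hδ, hu⟩ := hu c hc2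
    have h3 : ∀ᶠ t in 𝓝 t₀, dist t t₀ < min δ 1 :=
      Metric.ball_mem_nhds t₀ (lt_min hδ one_pos)
    filter_upwards [h3] with t ht
    refine le_trans (eLpNorm_le_of_ae_bound (C := c) ?_) hc1
    refine (ae_restrict_iff' hΩ.measurableSet).2 (Eventually.of_forall fun x hx => ?_)
    have ht' : |t - t₀| < 1 := lt_of_lt_of_le (by rwa [Real.dist_eq] at ht) (min_le_right _ _)
    have h4 := hu (t, x) ⟨⟨by linarith [(abs_lt.1 ht').1], by linarith [(abs_lt.1 ht').2]⟩,
      subset_closure hx⟩ (t₀, x) ⟨⟨by linarith, by linarith⟩, subset_closure hx⟩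
      (by rw [Prod.dist_eq]; simp only [dist_self]
          exact max_lt (lt_of_lt_of_le ht (min_le_left _ _)) hδ)
    rw [Real.dist_eq] at h4
    exact h4.le

end

end Pool.Agent.H729R2
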