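import Pool.Agent.H729R2.Fin1

open scoped ContDiff ENNReal
open Set MeasureTheory Filter Topology

namespace Pool.Agent.H729R2

noncomputable section

open MHD

set_option linter.unusedSectionVars false

namespace Lims

variable {K₀ : Set X} {T b : ℝ} {S : ℕ → St} {uL : Fin 3 → X → ℝ} {xL : Fin 3 → Fin 3 → X → ℝ}
    {rL : E3 → ℝ} {RL : X → ℝ} {fL : Fin 3 → X → ℝ}
    (h : Lims K₀ T b S uL xL rL RL fL) (hK : IsCompact K₀)
include h hK

lemma tendsto_u (i : Fin 3) (z : X) : Tendsto (fun n => (S n).u i z) atTop (𝓝 (uL i z)) :=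
  (h.bt_u hK (isCompact_singleton (x := z)) i).lim z rfl

lemma tendsto_x (i j : Fin 3) (z : X) :
    Tendsto (fun n => D (ev j) ((S n).u i) z) atTop (𝓝 (xL i j z)) :=
  (h.bt_x hK (isCompact_singleton (x := z)) i j).lim z rfl

lemma u_zero (i : Fin 3) {z : X} (hz : z ∉ K₀) : uL i z = 0 := by
  refine tendsto_nhds_unique (h.tendsto_u hK i z) ?_
  have : ∀ n, (S n).u i z = 0 := fun n =>
    image_eq_zero_of_notMem_tsupport fun h' => hz ((h.good n).uK i h')
  simp only [this]
  exact tendsto_const_nhds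

lemma x_zero (i j : Fin 3) {z : X} (hz : z ∉ K₀) : xL i j z = 0 := by
  refine tendsto_nhds_unique (h.tendsto_x hK i j z) ?_
  have : ∀ n, D (ev j) ((S n).u i) z = 0 := fun n =>
    D_eq_zero_of_notMem _ fun h' => hz ((h.good n).uK i h')
  simp only [this]
  exact tendsto_const_nhds

lemma x_div (z : X) : ∑ i, xL i i z = 0 := by
  refine tendsto_nhds_unique (tendsto_finsetSum _ fun i _ => h.tendsto_x hK i i z) ?_
  simp only [(h.good _).div]
  exact tendsto_const_nhds

/-- uniform bounds for the velocities -/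
lemma u_bdd : ∃ C : ℝ, 0 ≤ C ∧ (∀ n i z, |(S n).u i z| ≤ C) ∧ (∀ i z, |uL i z| ≤ C) ∧
    (∀ n i j z, |D (ev j) ((S n).u i) z| ≤ C) ∧ ∀ i j z, |xL i j z| ≤ C := by
  have h1 : ∀ i, ∃ C : ℝ, 0 ≤ C ∧ ∀ n, ∀ z ∈ K₀, |(S n).u i z| ≤ C := fun i =>
    (h.bt_u hK hK i).bdd
  have h2 : ∀ i j, ∃ C : ℝ, 0 ≤ C ∧ ∀ n, ∀ z ∈ K₀, |D (ev j) ((S n).u i) z| ≤ C := fun i j =>
    (h.bt_x hK hK i j).bdd
  choose C1 p1 q1 using h1
  choose C2 p2 q2 using h2
  have s1 : ∀ i, C1 i ≤ ∑ i, C1 i := fun i =>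
    Finset.single_le_sum (fun i _ => p1 i) (Finset.mem_univ i)
  have s2 : ∀ i j, C2 i j ≤ ∑ i, ∑ j, C2 i j := fun i j =>
    (Finset.single_le_sum (fun j _ => p2 i j) (Finset.mem_univ j)).trans
      (Finset.single_le_sum (f := fun i => ∑ j, C2 i j)
        (fun i _ => Finset.sum_nonneg fun j _ => p2 i j) (Finset.mem_univ i))
  have n1 : 0 ≤ ∑ i, C1 i := Finset.sum_nonneg fun i _ => p1 i
  have n2 : 0 ≤ ∑ i, ∑ j, C2 i j := Finset.sum_nonneg fun i _ => Finset.sum_nonneg fun j _ => p2 i j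
  have a1 : ∀ n i z, |(S n).u i z| ≤ ∑ i, C1 i + ∑ i, ∑ j, C2 i j := by
    intro n i z
    by_cases hz : z ∈ K₀
    · linarith [q1 i n z hz, s1 i]
    · rw [image_eq_zero_of_notMem_tsupport fun h' => hz ((h.good n).uK i h'), abs_zero]
      positivity
  have a2 : ∀ n i j z, |D (ev j) ((S n).u i) z| ≤ ∑ i, C1 i + ∑ i, ∑ j, C2 i j := by
    intro n i j z
    by_cases hz : z ∈ K₀
    · linarith [q2 i j n z hz, s2 i j]
    · rw [D_eq_zero_of_notMem _ fun h' => hz ((h.good n).uK i h'), abs_zero]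
      positivity
  exact ⟨_, by positivity, a1, fun i z => le_of_tendsto' (h.tendsto_u hK i z).abs fun n => a1 n i z,
    a2, fun i j z => le_of_tendsto' (h.tendsto_x hK i j z).abs fun n => a2 n i j z⟩

omit hK in
lemma vec_cont : Continuous fun z : X => vec fun i => uL i z := by
  have := contDiff_vec (n := 0) (f := uL) fun i => contDiff_zero.2 (h.uc i)
  exact this.continuous

/-- the projection of the support -/
lemma proj_compact : IsCompact (Prod.snd '' K₀) := hK.image continuous_snd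

lemma int_slice {Ω : Set E3} (_hΩ : IsOpen Ω) (hKΩ : K₀ ⊆ Cyl Ω T) (n : ℕ) (i j : Fin 3) (t : ℝ)
    {ψ : E3 → ℝ} (hψ : ContDiff ℝ ∞ ψ) :
    ∫ x in Ω, (S n).u i (t, x) * pdx j ψ x = - ∫ x in Ω, D (ev j) ((S n).u i) (t, x) * ψ x := by
  have hP := h.proj_compact hK
  have hz : ∀ x, x ∉ Ω → (t, x) ∉ K₀ := fun x hx hc => hx (hKΩ hc).2
  have hcs : HasCompactSupport fun x : E3 => (S n).u i (t, x) :=
    HasCompactSupport.intro hP fun x hx =>
      image_eq_zero_of_notMem_tsupport fun h' => hx ⟨(t, x), (h.good n).uK i h', rfl⟩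
  rw [setIntegral_eq_integral_of_forall_compl_eq_zero (fun x hx => by
      rw [image_eq_zero_of_notMem_tsupport fun h' => hz x hx ((h.good n).uK i h'), zero_mul]),
    setIntegral_eq_integral_of_forall_compl_eq_zero (fun x hx => by
      rw [D_eq_zero_of_notMem _ fun h' => hz x hx ((h.good n).uK i h'), zero_mul]),
    ibp3 (slice_smooth ((h.good n).hu i) t) hψ (Or.inl hcs)]
  simp only [pdx_slice ((h.good n).hu i)]

/-- dominated convergence on slices -/
lemma lim_slice {Ω : Set E3} (hb : Bornology.IsBounded Ω) {F : ℕ → X → ℝ} {f : X → ℝ}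
    (hF : ∀ n, Continuous (F n)) {C : ℝ} (hC : ∀ n z, |F n z| ≤ C)
    (hl : ∀ z, Tendsto (fun n => F n z) atTop (𝓝 (f z))) (hz : ∀ n z, z ∉ K₀ → F n z = 0) (t : ℝ)
    {g : E3 → ℝ} (hg : Continuous g) :
    Tendsto (fun n => ∫ x in Ω, F n (t, x) * g x) atTop (𝓝 (∫ x in Ω, f (t, x) * g x)) := by
  have hfin := finite_vol hb
  have hP := h.proj_compact hK
  obtain ⟨C', hC'⟩ := hP.exists_bound_of_continuousOn hg.continuousOn
  have hC0 : 0 ≤ C := (abs_nonneg _).trans (hC 0 0)
  refine tendsto_integral_of_dominated_convergence (fun _ => C * |C'|)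
    (fun n => ((slice_cont (hF n) t).mul hg).aestronglyMeasurable) (integrable_const _)
    (fun n => Eventually.of_forall fun x => ?_) (Eventually.of_forall fun x => (hl _).mul_const _)
  rw [norm_mul, Real.norm_eq_abs]
  by_cases hx : x ∈ Prod.snd '' K₀
  · exact mul_le_mul (hC n _) ((hC' x hx).trans (le_abs_self _)) (norm_nonneg _) hC0
  · rw [hz n (t, x) fun h' => hx ⟨_, h', rfl⟩, abs_zero, zero_mul]
    positivity

lemma orth_lim {Ω : Set E3} (hΩ : IsOpen Ω) (hb : Bornology.IsBounded Ω) (hKΩ : K₀ ⊆ Cyl Ω T)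
    (t : ℝ) {ψ : E3 → ℝ} (hψ : ContDiff ℝ ∞ ψ) (i j : Fin 3) :
    ∫ x in Ω, uL i (t, x) * pdx j ψ x = - ∫ x in Ω, xL i j (t, x) * ψ x := by
  obtain ⟨C, hC0, c1, c2, c3, c4⟩ := h.u_bdd hK
  have t1 := h.lim_slice hK hb (F := fun n => (S n).u i) (f := uL i)
    (fun n => ((h.good n).hu i).continuous) (fun n z => c1 n i z) (h.tendsto_u hK i)
    (fun n z hz => image_eq_zero_of_notMem_tsupport fun h' => hz ((h.good n).uK i h')) t
    (pdx_cont hψ j)
  have t2 := h.lim_slice hK hb (F := fun n => D (ev j) ((S n).u i)) (f := xL i j)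
    (fun n => (D_smooth ((h.good n).hu i) (ev j)).continuous) (fun n z => c3 n i j z)
    (h.tendsto_x hK i j)
    (fun n z hz => D_eq_zero_of_notMem _ fun h' => hz ((h.good n).uK i h')) t
    hψ.continuous
  have t3 := t1.congr fun n => h.int_slice hK hΩ hKΩ n i j t hψ
  exact tendsto_nhds_unique t3 t2.neg

lemma slice_mem {Ω : Set E3} (hb : Bornology.IsBounded Ω) (t : ℝ) :
    MemLp (fun x => vec fun i => uL i (t, x)) 2 (volume.restrict Ω) := by
  have hfin := finite_vol hb
  obtain ⟨C, hC0, c1, c2, c3, c4⟩ := h.u_bdd hK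
  refine MemLp.of_bound ?_ (2 * C) (Eventually.of_forall fun x => norm_vec_le fun i => c2 i _)
  exact (h.vec_cont.comp (continuous_const.prodMk continuous_id)).aestronglyMeasurable

lemma inH {Ω : Set E3} (hΩ : IsOpen Ω) (hb : Bornology.IsBounded Ω) (hKΩ : K₀ ⊆ Cyl Ω T)
    (t : ℝ) : InH Ω (fun x => vec fun i => uL i (t, x)) := by
  have hfin := finite_vol hb
  obtain ⟨C, hC0, c1, c2, c3, c4⟩ := h.u_bdd hK
  refine ⟨h.slice_mem hK hb t, fun ψ hψ => ?_⟩
  simp only [vec_apply]
  have hP := h.proj_compact hK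
  have hint : ∀ i, Integrable (fun x => uL i (t, x) * pdx i ψ x) (volume.restrict Ω) := by
    intro i
    have : Continuous fun x : E3 => uL i (t, x) * pdx i ψ x :=
      (slice_cont (h.uc i) t).mul (pdx_cont hψ i)
    exact (this.integrable_of_hasCompactSupport (HasCompactSupport.intro hP fun x hx => by
      rw [h.u_zero hK i fun h' => hx ⟨(t, x), h', rfl⟩, zero_mul])).restrict
  have hint2 : ∀ i, Integrable (fun x => xL i i (t, x) * ψ x) (volume.restrict Ω) := by
    intro i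
    have : Continuous fun x : E3 => xL i i (t, x) * ψ x :=
      (slice_cont (h.xc i i) t).mul hψ.continuous
    exact (this.integrable_of_hasCompactSupport (HasCompactSupport.intro hP fun x hx => by
      rw [h.x_zero hK i i fun h' => hx ⟨(t, x), h', rfl⟩, zero_mul])).restrict
  rw [integral_finsetSum _ fun i _ => hint i]
  simp only [h.orth_lim hK hΩ hb hKΩ t hψ, Finset.sum_neg_distrib]
  rw [← integral_finsetSum _ fun i _ => hint2 i]
  have : ∀ x, ∑ i, xL i i (t, x) * ψ x = 0 := fun x => by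
    rw [← Finset.sum_mul, h.x_div hK, zero_mul]
  simp only [this, integral_zero, neg_zero]

lemma inCw {Ω : Set E3} (hΩ : IsOpen Ω) (hb : Bornology.IsBounded Ω) (hKΩ : K₀ ⊆ Cyl Ω T) :
    InCw Ω T (fun t x => vec fun i => uL i (t, x)) := by
  have hfin := finite_vol hb
  obtain ⟨C, hC0, c1, c2, c3, c4⟩ := h.u_bdd hK
  refine ⟨h.vec_cont.aestronglyMeasurable, fun t _ => h.inH hK hΩ hb hKΩ t, ?_, ?_⟩
  · refine ⟨(volume.restrict Ω) univ ^ (2:ℝ≥0∞).toReal⁻¹ * ENNReal.ofReal (2 * C),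
      ENNReal.mul_ne_top (ENNReal.rpow_ne_top_of_nonneg (by positivity) (measure_ne_top _ _))
        ENNReal.ofReal_ne_top, fun t _ => ?_⟩
    exact eLpNorm_le_of_ae_bound (Eventually.of_forall fun x => norm_vec_le fun i => c2 i _)
  · intro g hg
    refine Continuous.continuousOn ?_
    simp only [vec_apply]
    have hgi : ∀ i, Integrable (fun x => g x i) (volume.restrict Ω) := by
      intro i
      have h1 : Integrable g (volume.restrict Ω) := hg.mem.integrable (by norm_num)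
      exact (EuclideanSpace.proj i : E3 →L[ℝ] ℝ).integrable_comp h1
    refine continuous_of_dominated (bound := fun x => ∑ i, C * |g x i|) (fun t => ?_) (fun t => ?_)
      (integrable_finsetSum _ fun i _ => (hgi i).abs.const_mul C) ?_
    · exact Finset.aestronglyMeasurable_fun_sum _ fun i _ =>
        (slice_cont (h.uc i) t).aestronglyMeasurable.mul (hgi i).aestronglyMeasurable
    · refine Eventually.of_forall fun x => ?_
      refine (norm_sum_le _ _).trans (Finset.sum_le_sum fun i _ => ?_)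
      rw [norm_mul, Real.norm_eq_abs, Real.norm_eq_abs]
      exact mul_le_mul_of_nonneg_right (c2 i _) (abs_nonneg _)
    · refine Eventually.of_forall fun x => ?_
      refine continuous_finsetSum _ fun i _ => Continuous.mul ?_ continuous_const
      exact (h.uc i).comp (continuous_id.prodMk continuous_const)

lemma inH1 {Ω : Set E3} (hΩ : IsOpen Ω) (hb : Bornology.IsBounded Ω) (hKΩ : K₀ ⊆ Cyl Ω T)
    (t : ℝ) : InH1 Ω (fun x => vec fun i => uL i (t, x)) (fun x i j => xL i j (t, x)) := by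
  have hfin := finite_vol hb
  obtain ⟨C, hC0, c1, c2, c3, c4⟩ := h.u_bdd hK
  refine ⟨h.slice_mem hK hb t, fun i j => ?_, fun i j ψ hψ _ _ => ?_⟩
  · exact MemLp.of_bound (slice_cont (h.xc i j) t).aestronglyMeasurable C
      (Eventually.of_forall fun x => c4 i j _)
  · exact h.orth_lim hK hΩ hb hKΩ t hψ i j

lemma inV {Ω : Set E3} (hΩ : IsOpen Ω) (hb : Bornology.IsBounded Ω) (hKΩ : K₀ ⊆ Cyl Ω T)
    (t : ℝ) : InV Ω (fun x => vec fun i => uL i (t, x)) (fun x i j => xL i j (t, x)) := by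
  have hfin := finite_vol hb
  refine ⟨h.inH1 hK hΩ hb hKΩ t, fun ε hε => ?_, Eventually.of_forall fun x => h.x_div hK _⟩
  -- choose a real bound
  set M : ℝ≥0∞ := (volume.restrict Ω) univ ^ (2:ℝ≥0∞).toReal⁻¹ with hM
  have hMt : M ≠ ⊤ := ENNReal.rpow_ne_top_of_nonneg (by positivity) (measure_ne_top _ _)
  have h1 : Tendsto (fun c : ℝ => M * ENNReal.ofReal c) (𝓝[>] 0) (𝓝 0) := by
    have h2 : Tendsto (fun c : ℝ => ENNReal.ofReal c) (𝓝[>] 0) (𝓝 0) := by
      have := (ENNReal.continuous_ofReal.tendsto (0:ℝ))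
      rw [ENNReal.ofReal_zero] at this
      exact this.mono_left nhdsWithin_le_nhds
    have := ENNReal.Tendsto.const_mul h2 (Or.inr hMt)
    rwa [mul_zero] at this
  obtain ⟨c, hc1, hc2⟩ := ((h1.eventually (ge_mem_nhds hε)).and self_mem_nhdsWithin).exists
  have hc2' : 0 < c := hc2
  obtain ⟨a, ha0, ha⟩ := h.ul
  obtain ⟨a', ha0', ha'⟩ := h.xl
  obtain ⟨n, hn1, hn2⟩ := ((ha0.eventually (ge_mem_nhds (half_pos hc2'))).and
    (ha0'.eventually (ge_mem_nhds hc2'))).exists
  have hP := h.proj_compact hK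
  refine ⟨fun x => vec fun i => (S n).u i (t, x), contDiff_vec fun i =>
    slice_smooth ((h.good n).hu i) t, ?_, ?_, ?_, ?_⟩
  · refine HasCompactSupport.intro hP fun x hx => ?_
    ext i
    exact image_eq_zero_of_notMem_tsupport (f := (S n).u i)
      fun h' => hx ⟨(t, x), (h.good n).uK i h', rfl⟩
  · have hsub : Prod.snd '' K₀ ⊆ Ω := by
      rintro x ⟨z, hz, rfl⟩
      exact (hKΩ hz).2
    refine subset_trans (closure_minimal (fun x hx => ?_) hP.isClosed) hsub
    by_contra hcon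
    apply hx
    ext i
    exact image_eq_zero_of_notMem_tsupport (f := (S n).u i)
      fun h' => hcon ⟨(t, x), (h.good n).uK i h', rfl⟩
  · refine le_trans (eLpNorm_le_of_ae_bound (C := c) (Eventually.of_forall fun x => ?_)) hc1
    have e1 : (vec (fun i => (S n).u i (t, x)) - vec (fun i => uL i (t, x)) : E3)
        = vec fun i => (S n).u i (t, x) - uL i (t, x) := by
      ext i; simp
    rw [e1]
    refine (norm_vec_le (c := c / 2) fun i => (ha i n _).trans hn1).trans (le_of_eq ?_)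
    ring
  · intro i j
    refine le_trans (eLpNorm_le_of_ae_bound (C := c) (Eventually.of_forall fun x => ?_)) hc1
    simp only [vec_apply]
    rw [pdx_slice ((h.good n).hu i), Real.norm_eq_abs]
    exact (ha' i j n _).trans hn2

lemma inL2V {Ω : Set E3} (hΩ : IsOpen Ω) (hb : Bornology.IsBounded Ω) (hKΩ : K₀ ⊆ Cyl Ω T) :
    InL2 (InV Ω) Ω T (fun t x => vec fun i => uL i (t, x)) (fun t x i j => xL i j (t, x)) := by
  refine ⟨?_, fun i j => ?_, Eventually.of_forall fun t => h.inV hK hΩ hb hKΩ t⟩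
  · refine MemLp.restrict _ (h.vec_cont.memLp_of_hasCompactSupport
      (HasCompactSupport.intro hK fun z hz => ?_))
    ext i
    exact h.u_zero hK i hz
  · refine MemLp.restrict _ ((h.xc i j).memLp_of_hasCompactSupport
      (HasCompactSupport.intro hK fun z hz => h.x_zero hK i j hz))

end Lims

end

end Pool.Agent.H729R2
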