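import Pool.Agent.H729R2.Fin2

open scoped ContDiff ENNReal
open Set MeasureTheory Filter Topology

namespace Pool.Agent.H729R2

noncomputable section

open MHD

set_option linter.unusedSectionVars false

lemma zero_inH (Ω : Set E3) : InH Ω (0 : E3 → E3) :=
  ⟨MemLp.zero, fun ψ _ => by simp⟩

lemma zero_inCw (Ω : Set E3) (T : ℝ) : InCw Ω T (0 : ℝ → E3 → E3) := by
  refine ⟨aestronglyMeasurable_const (b := (0 : E3)), fun t _ => zero_inH Ω,
    ⟨0, by simp, fun t _ => ?_⟩, fun g _ => ?_⟩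
  · change eLpNorm (0 : E3 → E3) 2 _ ≤ 0
    rw [eLpNorm_zero]
  · have : (fun t : ℝ => ∫ x in Ω, ∑ i, (0 : ℝ → E3 → E3) t x i * g x i) = fun _ => 0 := by
      ext t
      simp
    rw [this]
    exact continuousOn_const

lemma zero_inH1 (Ω : Set E3) : InH1 Ω (0 : E3 → E3) (fun _ _ _ => 0) :=
  ⟨MemLp.zero, fun _ _ => MemLp.zero', fun i j ψ _ _ _ => by simp⟩

lemma zero_inV (Ω : Set E3) : InV Ω (0 : E3 → E3) (fun _ _ _ => 0) := by
  refine ⟨zero_inH1 Ω, fun ε _ => ⟨0, contDiff_const, HasCompactSupport.zero, ?_, ?_, ?_⟩,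
    Eventually.of_forall fun x => by simp⟩
  · rw [tsupport_eq_empty_iff.2 rfl]; exact empty_subset _
  · have : (fun x : E3 => (0 : E3 → E3) x - (0 : E3 → E3) x) = 0 := by ext x; simp
    rw [this, eLpNorm_zero]
    exact zero_le
  · intro i j
    have : (fun x : E3 => pdx j (fun y => (0 : E3 → E3) y i) x - 0) = 0 := by
      ext x
      have h2 : (fun y : E3 => (0 : E3 → E3) y i) = fun _ => 0 := by ext y; simp
      rw [h2]
      simp [pdx]
    rw [this, eLpNorm_zero]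
    exact zero_le

lemma zero_inW (Ω : Set E3) : InW Ω (0 : E3 → E3) (fun _ _ _ => 0) :=
  ⟨zero_inH1 Ω, Eventually.of_forall fun x => by simp, fun ψ _ => by simp⟩

lemma zero_inL2V (Ω : Set E3) (T : ℝ) :
    InL2 (InV Ω) Ω T (0 : ℝ → E3 → E3) (fun _ _ _ _ => 0) :=
  ⟨MemLp.zero' (ε := E3), fun _ _ => MemLp.zero', Eventually.of_forall fun _ => zero_inV Ω⟩

lemma zero_inL2W (Ω : Set E3) (T : ℝ) :
    InL2 (InW Ω) Ω T (0 : ℝ → E3 → E3) (fun _ _ _ _ => 0) :=
  ⟨MemLp.zero' (ε := E3), fun _ _ => MemLp.zero', Eventually.of_forall fun _ => zero_inW Ω⟩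

lemma curl_zero : curl (fun _ _ => 0) = 0 := by
  ext i
  fin_cases i <;> simp [curl]

lemma zero_induction (Ω : Set E3) (T : ℝ) (σ : ℝ → ℝ) (ρ : ℝ → E3 → ℝ) (u : ℝ → E3 → E3) :
    Induction Ω T σ 0 ρ u (0 : ℝ → E3 → E3) (fun _ _ _ _ => 0) := by
  intro φ _
  simp [curl_zero]

section comp

variable {Ω : Set E3} {T : ℝ} {φ : X → E3}

lemma test_smooth (h : Test Ω T φ) (i : Fin 3) : ContDiff ℝ ∞ fun y => φ y i :=
  contDiff_euclidean.1 h.1 i

lemma test_hcs (h : Test Ω T φ) (i : Fin 3) : HasCompactSupport fun y => φ y i :=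
  HasCompactSupport.intro h.2.1 fun z hz => by
    rw [image_eq_zero_of_notMem_tsupport hz]; rfl

end comp

lemma cyl_meas {Ω : Set E3} (hΩ : IsOpen Ω) (T : ℝ) : MeasurableSet (Cyl Ω T) :=
  (isOpen_Ioo.prod hΩ).measurableSet

lemma cyl_to_K {Ω : Set E3} (hΩ : IsOpen Ω) {T : ℝ} {K : Set X} (hK : K ⊆ Cyl Ω T) {F : X → ℝ}
    (hF : ∀ z, z ∉ K → F z = 0) : ∫ z in Cyl Ω T, F z = ∫ z in K, F z :=
  setIntegral_eq_of_subset_of_forall_sdiff_eq_zero (cyl_meas hΩ T) hK fun z hz => hF z hz.2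

namespace Lims

variable {K₀ : Set X} {T b : ℝ} {S : ℕ → St} {uL : Fin 3 → X → ℝ} {xL : Fin 3 → Fin 3 → X → ℝ}
    {rL : E3 → ℝ} {RL : X → ℝ} {fL : Fin 3 → X → ℝ}
    (h : Lims K₀ T b S uL xL rL RL fL) (hK : IsCompact K₀)
include h hK

lemma force_int (i : Fin 3) {a : X → ℝ} (ha : Continuous a) :
    IntegrableOn (fun z => a z * fL i z) K₀ := by
  obtain ⟨C, hC⟩ := bounded_on hK ha
  have h1 : IntegrableOn (fL i) K₀ := by
    have : Integrable (fun z => K₀.indicator (fun _ => (1:ℝ)) z * fL i z) :=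
      (memLp_ind hK).integrable_mul (h.fm i)
    refine (integrable_indicator_iff hK.measurableSet).1 (this.congr
      (Eventually.of_forall fun z => ?_))
    by_cases hz : z ∈ K₀ <;> simp [hz]
  refine Integrable.bdd_mul (c := C) h1 ha.aestronglyMeasurable ?_
  exact (ae_restrict_iff' hK.measurableSet).2 (Eventually.of_forall fun z hz => hC z hz)

omit hK in
lemma rpos (hb : b ≤ 1 / 2) (x : E3) : 0 < rL x := by
  have := (abs_le.1 (h.rb x)).1
  linarith

omit hK in
lemma Rpos (hb : b ≤ 1 / 2) (z : X) : 0 < RL z := by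
  have := (abs_le.1 (h.Rb z)).1
  linarith

omit hK in
lemma P2c (hb : b ≤ 1 / 2) : Continuous fun z => 1 / RL z :=
  continuous_const.div h.Rc fun z => (h.Rpos hb z).ne'

omit hK in
lemma P1c (hb : b ≤ 1 / 2) : Continuous fun x => 1 / rL x :=
  continuous_const.div h.rc fun z => (h.rpos hb z).ne'

/-- the momentum equation for the second solution -/
lemma momentum2 {Ω : Set E3} (hΩ : IsOpen Ω) (hKΩ : K₀ ⊆ Cyl Ω T) (hb : b ≤ 1 / 2)
    (ρ₀ : E3 → ℝ) :
    Momentum Ω T (fun _ => 1) ρ₀ 0 (fun t x => vec fun i => fL i (t, x))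
      (fun t x => 1 / RL (t, x)) (fun t x => vec fun i => uL i (t, x))
      (fun t x i j => xL i j (t, x)) 0 (fun _ _ _ _ => 0) := by
  intro φ hφ hdiv
  have hs := test_smooth hφ
  have hc := test_hcs hφ
  have hKT : K₀ ⊆ slab T := fun z hz => ⟨(hKΩ hz).1.1.le, (hKΩ hz).1.2.le⟩
  have hdiv' : ∀ z ∈ K₀, ∑ i, D (ev i) (fun y => φ y i) z = 0 := fun z hz =>
    hdiv z ⟨⟨(hKΩ hz).1.1.le, (hKΩ hz).1.2⟩, (hKΩ hz).2⟩
  have hmain := h.second_lim hK hKT (φ := fun i y => φ y i) hs hc hdiv'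
  have hP := h.P2c hb
  have hDc : ∀ i v, Continuous (D v (fun y => φ y i)) := fun i v => (D_smooth (hs i) v).continuous
  have hφc : ∀ i, Continuous fun y => φ y i := fun i => (hs i).continuous
  have hI : ∀ {F : X → ℝ}, Continuous F → IntegrableOn F K₀ := fun hF =>
    hF.continuousOn.integrableOn_compact hK
  have i1 : ∀ i, IntegrableOn (fun z => 1 / RL z * (uL i z * D et (fun y => φ y i) z)) K₀ :=
    fun i => hI (hP.mul ((h.uc i).mul (hDc i et)))
  have i3 : ∀ i, IntegrableOn (fun z => 1 / RL z * (uL i z *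
      ∑ j, uL j z * D (ev j) (fun y => φ y i) z)) K₀ := fun i => hI (hP.mul ((h.uc i).mul
        (continuous_finsetSum _ fun j _ => (h.uc j).mul (hDc i (ev j)))))
  have i4 : ∀ i j, IntegrableOn (fun z => (xL i j z + xL j i z) *
      D (ev j) (fun y => φ y i) z) K₀ := fun i j =>
    hI (((h.xc i j).add (h.xc j i)).mul (hDc i (ev j)))
  have i4' : ∀ i, IntegrableOn (fun z => ∑ j, (xL i j z + xL j i z) *
      D (ev j) (fun y => φ y i) z) K₀ := fun i => hI (continuous_finsetSum _ fun j _ =>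
      ((h.xc i j).add (h.xc j i)).mul (hDc i (ev j)))
  -- the terms
  have T1 : ∫ z in Cyl Ω T, 1 / RL (z.1, z.2) * ∑ i, (vec fun i => uL i (z.1, z.2)) i *
      dt (fun y => φ y i) z = ∑ i, ∫ z in K₀, 1 / RL z * (uL i z * D et (fun y => φ y i) z) := by
    rw [cyl_to_K hΩ hKΩ fun z hz => by simp [h.u_zero hK _ hz],
      ← integral_finsetSum _ fun i _ => i1 i]
    refine integral_congr_ae (Eventually.of_forall fun z => ?_)
    beta_reduce
    rw [Finset.mul_sum]
    rfl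
  have T3 : ∫ z in Cyl Ω T, 1 / RL (z.1, z.2) * ∑ i, ∑ j, (vec fun i => uL i (z.1, z.2)) i *
      (vec fun i => uL i (z.1, z.2)) j * dx j (fun y => φ y i) z
      = ∑ i, ∫ z in K₀, 1 / RL z * (uL i z * ∑ j, uL j z * D (ev j) (fun y => φ y i) z) := by
    rw [cyl_to_K hΩ hKΩ fun z hz => by simp [h.u_zero hK _ hz],
      ← integral_finsetSum _ fun i _ => i3 i]
    refine integral_congr_ae (Eventually.of_forall fun z => ?_)
    beta_reduce
    rw [Finset.mul_sum]
    refine Finset.sum_congr rfl fun i _ => ?_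
    congr 1
    rw [Finset.mul_sum]
    refine Finset.sum_congr rfl fun j _ => ?_
    simp only [vec_apply]
    rw [mul_assoc]
    rfl
  have T4 : ∫ z in Cyl Ω T, (1:ℝ) * ∑ i, ∑ j, (xL i j (z.1, z.2) + xL j i (z.1, z.2)) *
      dx j (fun y => φ y i) z
      = ∑ i, ∑ j, ∫ z in K₀, (xL i j z + xL j i z) * D (ev j) (fun y => φ y i) z := by
    rw [cyl_to_K hΩ hKΩ fun z hz => by simp [h.x_zero hK _ _ hz]]
    have : ∀ i, ∑ j, ∫ z in K₀, (xL i j z + xL j i z) * D (ev j) (fun y => φ y i) z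
        = ∫ z in K₀, ∑ j, (xL i j z + xL j i z) * D (ev j) (fun y => φ y i) z := fun i =>
      (integral_finsetSum _ fun j _ => i4 i j).symm
    simp only [this]
    rw [← integral_finsetSum _ fun i _ => i4' i]
    refine integral_congr_ae (Eventually.of_forall fun z => ?_)
    beta_reduce
    rw [one_mul]
    rfl
  have i5 : ∀ i, IntegrableOn (fun z => (1 / RL z * φ z i) * fL i z) K₀ := fun i =>
    h.force_int hK i (hP.mul (hφc i))
  have T5 : ∫ z in Cyl Ω T, 1 / RL (z.1, z.2) * ∑ i, (vec fun i => fL i (z.1, z.2)) i * φ z i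
      = ∑ i, ∫ z in K₀, (1 / RL z * φ z i) * fL i z := by
    rw [cyl_to_K hΩ hKΩ fun z hz => by simp [h.fz _ _ hz],
      ← integral_finsetSum _ fun i _ => i5 i]
    refine integral_congr_ae (Eventually.of_forall fun z => ?_)
    beta_reduce
    rw [Finset.mul_sum]
    refine Finset.sum_congr rfl fun i _ => ?_
    simp only [vec_apply]
    ring
  have T13 : ∑ i, ∫ z in K₀, 1 / RL z * (uL i z * (D et (fun y => φ y i) z
      + ∑ j, uL j z * D (ev j) (fun y => φ y i) z))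
      = (∑ i, ∫ z in K₀, 1 / RL z * (uL i z * D et (fun y => φ y i) z))
        + ∑ i, ∫ z in K₀, 1 / RL z * (uL i z * ∑ j, uL j z * D (ev j) (fun y => φ y i) z) := by
    rw [← Finset.sum_add_distrib]
    refine Finset.sum_congr rfl fun i _ => ?_
    rw [← integral_add (i1 i) (i3 i)]
    refine integral_congr_ae (Eventually.of_forall fun z => ?_)
    beta_reduce
    ring
  rw [T13] at hmain
  have e1 : ∫ z in Cyl Ω T, ∑ i, crossProduct (curl (fun _ _ => (0:ℝ)))
      ((0 : ℝ → E3 → E3) z.1 z.2).ofLp i * φ z i = 0 := by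
    simp [curl_zero]
  have e2 : ∫ x in Ω, ρ₀ x * ∑ i, (0 : E3 → E3) x i * φ (0, x) i = 0 := by simp
  rw [e1, e2, T1, T3, T4, T5]
  linarith

/-- the momentum equation for the first solution -/
lemma momentum1 {Ω : Set E3} (hΩ : IsOpen Ω) (hKΩ : K₀ ⊆ Cyl Ω T) (hb : b ≤ 1 / 2)
    (ρ₀ : E3 → ℝ) :
    Momentum Ω T (fun _ => 1) ρ₀ 0 (fun t x => vec fun i => fL i (t, x))
      (fun _ x => 1 / rL x) 0 (fun _ _ _ _ => 0) 0 (fun _ _ _ _ => 0) := by
  intro φ hφ hdiv
  have hs := test_smooth hφ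
  have hc := test_hcs hφ
  have hdiv' : ∀ z ∈ K₀, ∑ i, D (ev i) (fun y => φ y i) z = 0 := fun z hz =>
    hdiv z ⟨⟨(hKΩ hz).1.1.le, (hKΩ hz).1.2⟩, (hKΩ hz).2⟩
  have hmain := h.first_lim hK (φ := fun i y => φ y i) hs hc hdiv'
  have hP : Continuous fun z : X => 1 / rL z.2 := (h.P1c hb).comp continuous_snd
  have hφc : ∀ i, Continuous fun y => φ y i := fun i => (hs i).continuous
  have i5 : ∀ i, IntegrableOn (fun z => (1 / rL z.2 * φ z i) * fL i z) K₀ := fun i =>
    h.force_int hK i (hP.mul (hφc i))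
  have T5 : ∫ z in Cyl Ω T, 1 / rL z.2 * ∑ i, (vec fun i => fL i (z.1, z.2)) i * φ z i
      = ∑ i, ∫ z in K₀, (1 / rL z.2 * φ z i) * fL i z := by
    rw [cyl_to_K hΩ hKΩ fun z hz => by simp [h.fz _ _ hz],
      ← integral_finsetSum _ fun i _ => i5 i]
    refine integral_congr_ae (Eventually.of_forall fun z => ?_)
    beta_reduce
    rw [Finset.mul_sum]
    refine Finset.sum_congr rfl fun i _ => ?_
    simp only [vec_apply]
    ring
  rw [T5, hmain]
  simp [curl_zero]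

lemma transport2 {Ω : Set E3} (hΩ : IsOpen Ω) :
    Transport Ω T (fun t x => 1 / RL (t, x)) (fun t x => vec fun i => uL i (t, x)) := by
  intro ψ hψ hc hsub
  have hT : tsupport ψ ⊆ slab T := fun z hz => ⟨(hsub hz).1.1.le, (hsub hz).1.2.le⟩
  have h1 := h.transport_lim hK hψ hc hT
  rw [cyl_to_K hΩ hsub fun z hz => ?_]
  · exact h1
  · have e1 : dt ψ z = 0 := D_eq_zero_of_notMem et hz
    have e2 : ∀ j, dx j ψ z = 0 := fun j => D_eq_zero_of_notMem (ev j) hz
    simp [e1, e2]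

lemma Dt_P1 {S : St} (hg : Good K₀ S) (z : X) : D et (P1 S) z = 0 := by
  have hr : ContDiff ℝ ∞ (fun y => 1 / S.r y) :=
    contDiff_const.div hg.hr fun z => by linarith [hg.rlo z]
  have h1 : HasFDerivAt (fun z : X => 1 / S.r z.2)
      ((fderiv ℝ (fun y => 1 / S.r y) z.2).comp (ContinuousLinearMap.snd ℝ ℝ E3)) z := by
    have h2 : HasFDerivAt (fun z : X => z.2) (ContinuousLinearMap.snd ℝ ℝ E3) z :=
      hasFDerivAt_snd
    exact ((hr.differentiable (by simp)) z.2).hasFDerivAt.comp z h2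
  unfold D
  have : P1 S = fun z : X => 1 / S.r z.2 := rfl
  rw [this, h1.fderiv]
  simp [et]

lemma transport1 {Ω : Set E3} (hΩ : IsOpen Ω) :
    Transport Ω T (fun _ x => 1 / rL x) 0 := by
  intro ψ hψ hc hsub
  rw [cyl_to_K hΩ hsub fun z hz => ?_]
  · have hA : IsCompact (tsupport ψ) := hc
    have h1 : BT (tsupport ψ) (fun n z => P1 (S n) z * D et ψ z)
        (fun z => 1 / rL z.2 * D et ψ z) :=
      (h.bt_P1 hK).mul (BT.const hA (D_smooth hψ et).continuous)
    have h2 := h1.int hA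
    have h3 : ∀ n, ∫ z in tsupport ψ, P1 (S n) z * D et ψ z = 0 := by
      intro n
      rw [setIntegral_eq_integral_of_forall_compl_eq_zero (fun z hz => by
        rw [D_eq_zero_of_notMem _ hz, mul_zero]),
        ibp ((h.good n).P1s hK) hψ hc et]
      simp [h.Dt_P1 hK (h.good n)]
    simp only [h3] at h2
    have h4 := tendsto_nhds_unique h2 tendsto_const_nhds
    refine Eq.trans ?_ h4
    refine integral_congr_ae (Eventually.of_forall fun z => ?_)
    simp [dt, D, et]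
  · have e1 : dt ψ z = 0 := D_eq_zero_of_notMem et hz
    simp [e1]

end Lims

end

end Pool.Agent.H729R2
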