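import Pool.Agent.H729R2.Fin3

open scoped ContDiff ENNReal
open Set MeasureTheory Filter Topology

namespace Pool.Agent.H729R2

noncomputable section

open MHD

set_option linter.unusedSectionVars false

lemma vec_eq_sum (f : Fin 3 → ℝ) : vec f = ∑ i, f i • EuclideanSpace.single i (1:ℝ) := by
  ext j
  fin_cases j <;> simp [Fin.sum_univ_three, vec]

lemma memLp_vec {f : Fin 3 → X → ℝ} {μ : Measure X} (hf : ∀ i, MemLp (f i) 2 μ) :
    MemLp (fun z => vec fun i => f i z) 2 μ := by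
  have h1 : ∀ i, MemLp (fun z => f i z • EuclideanSpace.single i (1:ℝ)) 2 μ := by
    intro i
    refine MemLp.of_le_mul (c := 1) (hf i) ((hf i).1.smul_const _)
      (Eventually.of_forall fun z => ?_)
    rw [norm_smul]
    simp
  have h2 := memLp_finsetSum (Finset.univ : Finset (Fin 3)) fun i _ => h1 i
  refine h2.congr_norm ?_ (Eventually.of_forall fun z => ?_)
  · have : (fun z => vec fun i => f i z) = fun z => ∑ i, f i z • EuclideanSpace.single i (1:ℝ) := by
      ext1 z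
      exact vec_eq_sum _
    rw [this]
    exact h2.1
  · rw [vec_eq_sum]

lemma coeff_one : Coeff (fun _ => 1) :=
  ⟨continuousOn_const, 1, 1, one_pos, fun _ _ => ⟨le_rfl, le_rfl⟩⟩

/-- the main result -/
theorem nonunique {Ω : Set R3} (hΩ : IsOpen Ω) (hbd : Bornology.IsBounded Ω) (hne : Ω.Nonempty)
    {T : ℝ} (hT : 0 < T) {δ : ℝ} (hδ : 0 < δ) {σ : ℝ → ℝ} (hσ : Coeff σ) :
    ∃ (ρ₀ : R3 → ℝ) (f : ℝ → R3 → R3) (ρ : ℝ → R3 → ℝ) (u : ℝ → R3 → R3),
      Continuous ρ₀ ∧ (∀ x, |ρ₀ x - 1| ≤ δ) ∧ IsData Ω T (fun _ => 1) σ ρ₀ 0 0 f ∧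
      WeakSol Ω T (fun _ => 1) σ ρ₀ 0 0 f (fun _ => ρ₀) 0 0 ∧
      WeakSol Ω T (fun _ => 1) σ ρ₀ 0 0 f ρ u 0 ∧
      ¬ ∀ᵐ z ∂(volume.restrict (Cyl Ω T)), u z.1 z.2 = 0 := by
  have hUo : IsOpen (Cyl Ω T) := isOpen_Ioo.prod hΩ
  have hUne : (Cyl Ω T).Nonempty := by
    obtain ⟨x, hx⟩ := hne
    exact ⟨(T / 2, x), ⟨by constructor <;> linarith, hx⟩⟩
  obtain ⟨K₀, S₀, hK, hKU, hg, hr, z₀, i₀, hz₀⟩ := exists_init hUo hUne
  have hKT : K₀ ⊆ slab T := fun z hz => ⟨(hKU hz).1.1.le, (hKU hz).1.2.le⟩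
  set es : ℝ := min (1 / 1000000) (δ / 160) with hes
  have hes0 : 0 < es := lt_min (by norm_num) (by positivity)
  have hes1 : es ≤ 1 / 1000000 := min_le_left _ _
  have hes2 : es ≤ δ / 160 := min_le_right _ _
  have hd : 0 < |S₀.u i₀ z₀| / 2 := by
    have := abs_pos.2 hz₀
    linarith
  obtain ⟨S, uL, xL, rL, RL, fL, h, hu⟩ := exists_lims hT hK hKT hg hr hes0 hes1 hd
  have hb : 80 * es ≤ 1 / 2 := by linarith
  have hρc := h.P1c hb
  have hRc := h.P2c hb
  have hr0 := fun x => h.rpos hb x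
  have hR0 := fun z => h.Rpos hb z
  have hrb : ∀ x, 1 / 2 ≤ 1 / rL x ∧ 1 / rL x ≤ 2 := by
    intro x
    have h1 := abs_le.1 (h.rb x)
    constructor
    · rw [le_div_iff₀ (hr0 x)]; linarith [h1.2]
    · rw [div_le_iff₀ (hr0 x)]; linarith [h1.1]
  have hRb : ∀ z, 1 / 2 ≤ 1 / RL z ∧ 1 / RL z ≤ 2 := by
    intro z
    have h1 := abs_le.1 (h.Rb z)
    constructor
    · rw [le_div_iff₀ (hR0 z)]; linarith [h1.2]
    · rw [div_le_iff₀ (hR0 z)]; linarith [h1.1]
  have hδb : ∀ x, |1 / rL x - 1| ≤ δ := by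
    intro x
    have h1 := h.rb x
    have h2 : 1 / rL x - 1 = -((rL x - 1) * (1 / rL x)) := by
      have := (hr0 x).ne'
      field_simp
      ring
    rw [h2, abs_neg, abs_mul, abs_of_nonneg (by linarith [(hrb x).1] : 0 ≤ 1 / rL x)]
    calc |rL x - 1| * (1 / rL x) ≤ (80 * es) * 2 :=
          mul_le_mul h1 (hrb x).2 (by linarith [(hrb x).1]) (by positivity)
      _ ≤ δ := by linarith
  have hf : MemLp (fun z : X => vec fun i => fL i (z.1, z.2)) 2 (volume.restrict (Cyl Ω T)) :=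
    (memLp_vec h.fm).restrict _
  have hcond : IsData Ω T (fun _ => 1) σ (fun x => 1 / rL x) 0 0
      (fun t x => vec fun i => fL i (t, x)) :=
    ⟨coeff_one, hσ, ⟨hρc.aestronglyMeasurable, 1 / 2, 2, by norm_num,
      Eventually.of_forall fun x => hrb x⟩, zero_inH Ω, zero_inH Ω, hf⟩
  refine ⟨fun x => 1 / rL x, fun t x => vec fun i => fL i (t, x), fun t x => 1 / RL (t, x),
    fun t x => vec fun i => uL i (t, x), hρc, hδb, hcond, ?_, ?_, ?_⟩
  · refine ⟨?_, zero_inCw Ω T, zero_inCw Ω T, Eventually.of_forall fun x => rfl,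
      h.transport1 hK hΩ, fun _ _ _ _ => 0, fun _ _ _ _ => 0, zero_inL2V Ω T, zero_inL2W Ω T,
      h.momentum1 hK hΩ hKU hb _, zero_induction Ω T σ _ _⟩
    exact dens_of_cont hΩ hbd (hρc.comp continuous_snd) (C := 2)
      fun t x => ⟨by linarith [(hrb x).1], (hrb x).2⟩
  · refine ⟨?_, h.inCw hK hΩ hbd hKU, zero_inCw Ω T, ?_, h.transport2 hK hΩ,
      fun t x i j => xL i j (t, x), fun _ _ _ _ => 0, h.inL2V hK hΩ hbd hKU, zero_inL2W Ω T,
      h.momentum2 hK hΩ hKU hb _, zero_induction Ω T σ _ _⟩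
    · exact dens_of_cont hΩ hbd hRc (C := 2) fun t x => ⟨by linarith [(hRb (t, x)).1], (hRb _).2⟩
    · refine Eventually.of_forall fun x => ?_
      have h1 : RL (0, x) = rL x := by
        refine tendsto_nhds_unique (h.Rl (0, x) ⟨le_rfl, hT.le⟩) ?_
        have : ∀ n, (S n).R2 (0, x) = (S n).r x := by
          intro n
          unfold St.R2
          congr 1
          ext i
          exact ((h.good n).lab_isLabel hK).init x i
        simp only [this]
        exact h.rl x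
      change 1 / RL (0, x) = 1 / rL x
      rw [h1]
  · intro hae
    have hz1 : uL i₀ z₀ ≠ 0 := by
      intro h0
      have := hu i₀ z₀
      rw [h0, sub_zero] at this
      linarith [abs_pos.2 hz₀]
    set V : Set X := {z | uL i₀ z ≠ 0} with hV
    have hVo : IsOpen V := isOpen_ne_fun (h.uc i₀) continuous_const
    have hVpos : 0 < volume V := hVo.measure_pos volume ⟨z₀, hz1⟩
    have hVK : V ⊆ Cyl Ω T := fun z hz => by
      by_contra hcon
      exact hz (h.u_zero hK i₀ fun h' => hcon (hKU h'))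
    rw [ae_restrict_iff' hUo.measurableSet, ae_iff] at hae
    have hsub : V ⊆ {z : X | ¬ (z ∈ Cyl Ω T → (vec fun i => uL i (z.1, z.2)) = 0)} := by
      intro z hz hcon
      have h1 := hcon (hVK hz)
      have h2 := congrArg (fun v : E3 => v i₀) h1
      exact hz h2
    exact absurd (measure_mono_null hsub hae) hVpos.ne'

end

end Pool.Agent.H729R2
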