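import Pool.Agent.H729R2.Iter

open scoped ContDiff
open Set MeasureTheory Filter Topology

namespace Pool.Agent.H729R2

noncomputable section

/-- the initial state -/
theorem exists_init {U : Set X} (hU : IsOpen U) (hne : U.Nonempty) :
    ∃ (K₀ : Set X) (S₀ : St), IsCompact K₀ ∧ K₀ ⊆ U ∧ Good K₀ S₀ ∧ (∀ x, S₀.r x = 1) ∧
      ∃ z i, S₀.u i z ≠ 0 := by
  obtain ⟨z₁, hz₁⟩ := hne
  obtain ⟨χ, h1, h2, h3, h4, h5⟩ := exists_contDiff_tsupport_subset (n := ⊤) (hU.mem_nhds hz₁)
  set u : Fin 3 → X → ℝ := ![D (ev 1) χ, fun z => - D (ev 0) χ z, fun _ => 0] with hu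
  have us : ∀ i, ContDiff ℝ ∞ (u i) := by
    intro i
    fin_cases i
    · exact D_smooth h3 _
    · exact (D_smooth h3 _).neg
    · exact contDiff_const
  have h0 : tsupport (fun _ : X => (0:ℝ)) = ∅ := tsupport_eq_empty_iff.2 rfl
  have ut : ∀ i, tsupport (u i) ⊆ tsupport χ := by
    intro i
    fin_cases i
    · exact tsupport_D_subset _ _
    · have : tsupport (fun z => - D (ev 0) χ z) ⊆ tsupport (D (ev 0) χ) := by
        refine closure_mono fun z hz => ?_
        intro h0
        exact hz (by simp [h0])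
      exact this.trans (tsupport_D_subset _ _)
    · change tsupport (fun _ : X => (0:ℝ)) ⊆ _
      rw [h0]
      exact empty_subset _
  refine ⟨tsupport χ, ⟨u, fun _ => 1, fun _ => 0, fun _ => 0⟩, h2, h1, ?_, fun _ => rfl, ?_⟩
  · refine ⟨us, contDiff_const, contDiff_const, contDiff_const, ut, ?_, ?_, ?_, ⟨0, ?_⟩, ?_, ?_⟩
    · rw [h0]; exact empty_subset _
    · rw [h0]; exact empty_subset _
    · intro z
      rw [Fin.sum_univ_three]
      change D (ev 0) (D (ev 1) χ) z + D (ev 1) (fun z => - D (ev 0) χ z) z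
        + D (ev 2) (fun _ => 0) z = 0
      rw [D_neg, D_const, D_comm h3 (ev 0) (ev 1)]
      ring
    · exact LipschitzWith.const _
    · intro x; norm_num
    · intro x; norm_num
  · by_contra hcon
    push Not at hcon
    have hD : ∀ z, D (ev 0) χ z = 0 := by
      intro z
      have := hcon z 1
      change - D (ev 0) χ z = 0 at this
      linarith
    -- constant along ev 0
    have hc : ∀ s : ℝ, χ (z₁ + s • ev 0) = 1 := by
      intro s
      have hd : ∀ s, HasDerivAt (fun s : ℝ => χ (z₁ + s • ev 0)) 0 s := by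
        intro s
        have hc : HasDerivAt (fun s : ℝ => z₁ + s • ev 0) (ev 0) s := by
          have := ((hasDerivAt_id s).smul_const (ev 0)).const_add z₁
          rw [one_smul] at this
          exact this
        have := ((smooth_diff h3) (z₁ + s • ev 0)).hasFDerivAt.comp_hasDerivAt s hc
        have h6 := hD (z₁ + s • ev 0)
        unfold D at h6
        rw [h6] at this
        exact this
      have := is_const_of_deriv_eq_zero (fun s => (hd s).differentiableAt)
        (fun s => (hd s).deriv) s 0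
      rw [this]
      simpa using h5
    obtain ⟨R, hR⟩ := (h2.isBounded).exists_norm_le
    have hmem : ∀ s : ℝ, ‖z₁ + s • ev 0‖ ≤ R := fun s => by
      refine hR _ (subset_tsupport _ ?_)
      rw [Function.mem_support, hc s]
      norm_num
    have hn : ‖ev 0‖ = 1 := by
      simp [ev, Prod.norm_def]
    have h7 := hmem (‖z₁‖ + R + 1)
    have h8 := hmem 0
    have hR0 : 0 ≤ R := (norm_nonneg _).trans h8
    have h9 : ‖(‖z₁‖ + R + 1) • ev 0‖ ≤ ‖z₁ + (‖z₁‖ + R + 1) • ev 0‖ + ‖z₁‖ := by
      have := norm_sub_le (z₁ + (‖z₁‖ + R + 1) • ev 0) z₁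
      rwa [add_sub_cancel_left] at this
    rw [norm_smul, hn, mul_one, Real.norm_eq_abs, abs_of_nonneg (by positivity)] at h9
    linarith

end

end Pool.Agent.H729R2
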