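import Pool.Agent.H729R2.Step2

open scoped ContDiff
open Set MeasureTheory Filter Topology

namespace Pool.Agent.H729R2

noncomputable section

/-- the invariants of the iteration -/
structure Inv (K₀ : Set X) (es D : ℝ) (n : ℕ) (S : St) : Prop where
  good : Good K₀ S
  ee : ee S ≤ D * (955 / 1000 : ℝ) ^ n
  mm : mm S ≤ 500 * D / es * (2 - (98 / 100 : ℝ) ^ n)
  r1 : ∀ x, |S.r x - 1| ≤ 80 * es * (1 - (975 / 1000 : ℝ) ^ n)

/-- the relation between consecutive states -/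
structure Rel (T₀ es D₀ d : ℝ) (n : ℕ) (S S' : St) : Prop where
  f : n2 (nv (fun i z => ff S' i z - ff S i z)) ≤ 3000 * D₀ / es * (98 / 100 : ℝ) ^ n
  u : ∀ i z, |S'.u i z - S.u i z| ≤ d * (1 / 2) ^ (n + 1)
  ux : ∀ i j z, |D (ev j) (S'.u i) z - D (ev j) (S.u i) z| ≤ d * (1 / 2) ^ (n + 1)
  ut : ∀ i z, |D et (S'.u i) z - D et (S.u i) z| ≤ d * (1 / 2) ^ (n + 1)
  r : ∀ x, |S'.r x - S.r x| ≤ 2 * es * (975 / 1000 : ℝ) ^ n
  R2 : ∀ z ∈ slab T₀, |S'.R2 z - S.R2 z| ≤ 2 * es * (975 / 1000 : ℝ) ^ n + d * (1 / 2) ^ (n + 1)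

lemma pow_ineq1 (n : ℕ) : ((975 / 1000 : ℝ) ^ n) ^ 2 ≤ (955 / 1000 : ℝ) ^ n := by
  rw [← pow_mul, mul_comm, pow_mul]
  exact pow_le_pow_left₀ (by positivity) (by norm_num) n

lemma pow_ineq2 (n : ℕ) : (955 / 1000 : ℝ) ^ n / (975 / 1000 : ℝ) ^ n ≤ (98 / 100 : ℝ) ^ n := by
  rw [← div_pow]
  exact pow_le_pow_left₀ (by positivity) (by norm_num) n

lemma pow_ineq3 (n : ℕ) : (1 / 2 : ℝ) ^ (n + 1) ≤ (955 / 1000 : ℝ) ^ n := by
  rw [pow_succ]
  have : (1 / 2 : ℝ) ^ n ≤ (955 / 1000 : ℝ) ^ n := pow_le_pow_left₀ (by norm_num) (by norm_num) n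
  have h2 : 0 < (1 / 2 : ℝ) ^ n := by positivity
  linarith

lemma pow_ineq4 (n : ℕ) : (955 / 1000 : ℝ) ^ n ≤ (98 / 100 : ℝ) ^ n :=
  pow_le_pow_left₀ (by norm_num) (by norm_num) n

lemma pow_ineq5 (n : ℕ) : (975 / 1000 : ℝ) ^ n ≤ (98 / 100 : ℝ) ^ n :=
  pow_le_pow_left₀ (by norm_num) (by norm_num) n

lemma inv_step {T₀ : ℝ} {K₀ : Set X} (hK : IsCompact K₀) (hKT : K₀ ⊆ slab T₀) {es D₀ d : ℝ}
    (hes : 0 < es) (hes1 : es ≤ 1 / 1000000) (hd : 0 < d) (hdD : 100 * d ≤ D₀) (n : ℕ) (S : St)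
    (h : Inv K₀ es D₀ n S) : ∃ S', Inv K₀ es D₀ (n + 1) S' ∧ Rel T₀ es D₀ d n S S' := by
  have hD : 0 < D₀ := by linarith
  set l : ℝ := (975 / 1000 : ℝ) ^ n with hl
  set μ : ℝ := (955 / 1000 : ℝ) ^ n with hμ
  set ν : ℝ := (98 / 100 : ℝ) ^ n with hν
  set δ : ℝ := d * (1 / 2) ^ (n + 1) with hδ
  have l0 : 0 < l := by positivity
  have μ0 : 0 < μ := by positivity
  have ν0 : 0 < ν := by positivity
  have δ0 : 0 < δ := by positivity
  have l1 : l ≤ 1 := pow_le_one₀ (by norm_num) (by norm_num)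
  have μ1 : μ ≤ 1 := pow_le_one₀ (by norm_num) (by norm_num)
  have ν1 : ν ≤ 1 := pow_le_one₀ (by norm_num) (by norm_num)
  have p1 : l ^ 2 ≤ μ := pow_ineq1 n
  have p2 : μ / l ≤ ν := pow_ineq2 n
  have p3 : δ ≤ d * μ := mul_le_mul_of_nonneg_left (pow_ineq3 n) hd.le
  have p4 : μ ≤ ν := pow_ineq4 n
  have p5 : l ≤ ν := pow_ineq5 n
  have hr1 : ∀ x, |S.r x - 1| ≤ 80 * es := by
    intro x
    refine (h.r1 x).trans ?_
    have : 80 * es * (1 - (975 / 1000 : ℝ) ^ n) ≤ 80 * es * 1 :=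
      mul_le_mul_of_nonneg_left (by linarith) (by positivity)
    linarith
  have hrlo : ∀ x, 9 / 10 ≤ S.r x := fun x => by
    have := (abs_le.1 (hr1 x)).1
    linarith
  have hrhi : ∀ x, S.r x ≤ 11 / 10 := fun x => by
    have := (abs_le.1 (hr1 x)).2
    linarith
  set ε : ℝ := es * l with hε
  have ε0 : 0 < ε := by positivity
  have ε1 : ε ≤ 1 / 1000000 := by
    calc es * l ≤ es * 1 := mul_le_mul_of_nonneg_left l1 hes.le
      _ ≤ _ := by linarith
  obtain ⟨S', g', a1, a2, a3, a4, a5, a6, a7, a8⟩ := step hK hKT h.good (ε := ε) (δ := δ) ε0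
    (by linarith) δ0
    (fun x => by nlinarith [hrlo x])
    (fun x => by nlinarith [hrhi x, hrlo x])
  have hm := h.mm
  have he := h.ee
  have e0 := ee_nonneg S
  have m0 := mm_nonneg S
  set B : ℝ := 500 * D₀ / es with hB
  have B0 : 0 < B := by positivity
  have hBe : B * es = 500 * D₀ := by rw [hB]; field_simp
  have hm2 : mm S ≤ 2 * B := hm.trans (by nlinarith)
  have hBD : 500 * 1000000 * D₀ ≤ B := by
    have h1 : 1000000 ≤ 1 / es := by
      rw [le_div_iff₀ hes]; linarith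
    have h2 : B = 500 * D₀ * (1 / es) := by rw [hB]; ring
    rw [h2]
    nlinarith
  -- the quotient term
  have q1 : 5 / ε * ee S ≤ 5 * D₀ / es * ν := by
    have : 5 / ε * ee S ≤ 5 / ε * (D₀ * μ) := mul_le_mul_of_nonneg_left he (by positivity)
    refine this.trans ?_
    have h1 : 5 / ε * (D₀ * μ) = 5 * D₀ / es * (μ / l) := by
      rw [hε]; field_simp
    rw [h1]
    exact mul_le_mul_of_nonneg_left p2 (by positivity)
  have q2 : 5 * D₀ / es = B / 100 := by rw [hB]; ring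
  rw [q2] at q1
  have q3 : ε * B = 500 * D₀ * l := by
    have : ε * B = B * es * l := by rw [hε]; ring
    rw [this, hBe]
  refine ⟨S', ⟨g', ?_, ?_, ?_⟩, ⟨?_, a4, a5, a6, ?_, ?_⟩⟩
  · -- ee
    refine a1.trans ?_
    have hps : (955 / 1000 : ℝ) ^ (n + 1) = μ * (955 / 1000) := pow_succ _ _
    rw [hps]
    have h1 : 2 * ε ^ 2 * mm S ≤ 2000 * es * D₀ * μ := by
      have : 2 * ε ^ 2 * mm S ≤ 2 * ε ^ 2 * (2 * B) := mul_le_mul_of_nonneg_left hm2 (by positivity)
      refine this.trans ?_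
      have h2 : 2 * ε ^ 2 * (2 * B) = 4 * ε * (ε * B) := by ring
      rw [h2, q3]
      have h3 : 4 * ε * (500 * D₀ * l) = 2000 * es * D₀ * l ^ 2 := by rw [hε]; ring
      rw [h3]
      exact mul_le_mul_of_nonneg_left p1 (by positivity)
    have h4 : (92 / 100 + ε) * ee S ≤ (92 / 100 + 1 / 1000000) * (D₀ * μ) :=
      mul_le_mul (by linarith) he e0 (by norm_num)
    have h5 : 2000 * es * D₀ * μ ≤ 2000 * (1 / 1000000) * D₀ * μ := by gcongr
    have h6 : d * μ ≤ D₀ / 100 * μ := mul_le_mul_of_nonneg_right (by linarith) μ0.le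
    have h7 : 0 < D₀ * μ := by positivity
    nlinarith
  · -- mm
    refine a2.trans ?_
    have hps : (98 / 100 : ℝ) ^ (n + 1) = ν * (98 / 100) := pow_succ _ _
    rw [hps]
    have h1 : (1 + 5 * ε) * mm S ≤ B * (2 - ν) + 5 * ε * (2 * B) := by
      have : 5 * ε * mm S ≤ 5 * ε * (2 * B) := mul_le_mul_of_nonneg_left hm2 (by positivity)
      rw [← hν] at hm
      linarith
    have h2 : 5 * ε * (2 * B) = 5000 * D₀ * l := by
      have : 5 * ε * (2 * B) = 10 * (ε * B) := by ring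
      rw [this, q3]; ring
    have h3 : 5000 * D₀ * l ≤ B / 1000 * ν := by
      have : 5000 * D₀ * l ≤ 5000 * D₀ * ν := mul_le_mul_of_nonneg_left p5 (by positivity)
      refine this.trans ?_
      exact mul_le_mul_of_nonneg_right (by linarith) ν0.le
    have h4 : δ ≤ B / 1000 * ν := by
      refine p3.trans ?_
      have : d * μ ≤ D₀ * ν := mul_le_mul (by linarith) p4 μ0.le hD.le
      refine this.trans ?_
      exact mul_le_mul_of_nonneg_right (by linarith) ν0.le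
    have h5 : 0 < B * ν := by positivity
    have h7 : B * (2 - ν) = 2 * B - B * ν := by ring
    have h8 : B * (2 - ν * (98 / 100)) = 2 * B - 98 / 100 * (B * ν) := by ring
    have h9 : B / 1000 * ν = (B * ν) / 1000 := by ring
    have h10 : B / 100 * ν = (B * ν) / 100 := by ring
    rw [h8]
    rw [h7] at h1
    rw [h9] at h3 h4
    rw [h10] at q1
    linarith
  · -- r
    intro x
    have h1 : |S'.r x - 1| ≤ |S'.r x - S.r x| + |S.r x - 1| := by
      have := abs_add_le (S'.r x - S.r x) (S.r x - 1)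
      simpa using this
    have h2 := a7 x
    have h3 := h.r1 x
    have h4 : ε * S.r x ≤ ε * 2 := mul_le_mul_of_nonneg_left (by linarith [hrhi x]) ε0.le
    have hps : (975 / 1000 : ℝ) ^ (n + 1) = l * (975 / 1000) := pow_succ _ _
    rw [hps]
    rw [← hl] at h3
    have h5 : ε = es * l := rfl
    nlinarith
  · -- force
    refine a3.trans ?_
    have h1 : 2 * ε * mm S ≤ 2 * ε * (2 * B) := mul_le_mul_of_nonneg_left hm2 (by positivity)
    have h2 : 2 * ε * (2 * B) = 2000 * D₀ * l := by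
      have : 2 * ε * (2 * B) = 4 * (ε * B) := by ring
      rw [this, q3]; ring
    have h3 : 2000 * D₀ * l ≤ B / 1000 * ν := by
      have : 2000 * D₀ * l ≤ 2000 * D₀ * ν := mul_le_mul_of_nonneg_left p5 (by positivity)
      refine this.trans ?_
      exact mul_le_mul_of_nonneg_right (by linarith) ν0.le
    have h4 : δ ≤ B / 1000 * ν := by
      refine p3.trans ?_
      have : d * μ ≤ D₀ * ν := mul_le_mul (by linarith) p4 μ0.le hD.le
      refine this.trans ?_
      exact mul_le_mul_of_nonneg_right (by linarith) ν0.le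
    have h5 : 0 < B * ν := by positivity
    have h6 : 3000 * D₀ / es * ν = 6 * (B * ν) := by rw [hB]; ring
    have h9 : B / 1000 * ν = (B * ν) / 1000 := by ring
    have h10 : B / 100 * ν = (B * ν) / 100 := by ring
    rw [← hν, h6]
    rw [h9] at h3 h4
    rw [h10] at q1
    linarith
  · -- r difference
    intro x
    refine (a7 x).trans ?_
    have h4 : ε * S.r x ≤ ε * 2 := mul_le_mul_of_nonneg_left (by linarith [hrhi x]) ε0.le
    rw [← hl]
    have h5 : ε = es * l := rfl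
    nlinarith
  · intro z hz
    refine (a8 z hz).trans (le_of_eq ?_)
    rw [← hl, ← hδ, hε]
    ring

/-- the iteration -/
theorem iterate {T₀ : ℝ} {K₀ : Set X} (hK : IsCompact K₀) (hKT : K₀ ⊆ slab T₀) {S₀ : St}
    (hg : Good K₀ S₀) (hr : ∀ x, S₀.r x = 1) {es d : ℝ}
    (hes : 0 < es) (hes1 : es ≤ 1 / 1000000) (hd : 0 < d) :
    ∃ (S : ℕ → St) (D₀ : ℝ), S 0 = S₀ ∧ 0 < D₀ ∧ (∀ n, Inv K₀ es D₀ n (S n)) ∧
      ∀ n, Rel T₀ es D₀ d n (S n) (S (n + 1)) := by
  set D₀ : ℝ := 100 * d + ee S₀ + mm S₀ with hD₀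
  have e0 := ee_nonneg S₀
  have m0 := mm_nonneg S₀
  have hD : 0 < D₀ := by positivity
  have key := fun n S => inv_step (D₀ := D₀) (d := d) hK hKT hes hes1 hd (by linarith) n S
  choose! nx h1 h2 using key
  set S : ℕ → St := fun n => Nat.rec S₀ (fun n S => nx n S) n with hS
  have hI : ∀ n, Inv K₀ es D₀ n (S n) := by
    intro n
    induction n with
    | zero =>
      refine ⟨hg, ?_, ?_, ?_⟩
      · simp only [pow_zero, mul_one]
        change ee S₀ ≤ D₀
        linarith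
      · simp only [pow_zero]
        change mm S₀ ≤ _
        have : D₀ ≤ 500 * D₀ / es := by
          rw [le_div_iff₀ hes]
          nlinarith
        linarith
      · intro x
        have : (S 0).r x = 1 := hr x
        rw [this]
        simp
    | succ n ih => exact h1 n (S n) ih
  exact ⟨S, D₀, rfl, hD, hI, fun n => h2 n (S n) (hI n)⟩

end

end Pool.Agent.H729R2
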