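import Pool.Agent.H729R2.Micro
import Pool.Agent.H664.Flow

open scoped ContDiff
open Set Pool.Agent.H664.Flow

namespace Pool.Agent.H729R2

noncomputable section

/-- vector with given coordinates -/
def vec (f : Fin 3 → ℝ) : E3 := WithLp.toLp 2 f

@[simp] lemma vec_apply (f : Fin 3 → ℝ) (i : Fin 3) : vec f i = f i := rfl

lemma contDiff_vec {n : WithTop ℕ∞} {Z : Type} [NormedAddCommGroup Z] [NormedSpace ℝ Z]
    {f : Fin 3 → Z → ℝ} (hf : ∀ i, ContDiff ℝ n (f i)) :
    ContDiff ℝ n (fun z => vec (fun i => f i z)) :=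
  contDiff_euclidean.2 fun i => hf i

lemma vec_zero : vec (fun _ => 0) = 0 := rfl

lemma norm_vec_le {f : Fin 3 → ℝ} {c : ℝ} (h : ∀ i, |f i| ≤ c) : ‖vec f‖ ≤ 2 * c := by
  have hc : 0 ≤ c := (abs_nonneg _).trans (h 0)
  rw [EuclideanSpace.norm_eq, Real.sqrt_le_left (by positivity)]
  simp only [vec_apply, Real.norm_eq_abs, Fin.sum_univ_three]
  have : ∀ i, |f i| ^ 2 ≤ c ^ 2 := fun i => pow_le_pow_left₀ (abs_nonneg _) (h i) 2
  nlinarith [this 0, this 1, this 2]

/-- the autonomous field of space-time associated with a time dependent field -/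
def fld (u : Fin 3 → X → ℝ) : X → X := fun z => (1, vec (fun i => u i z))

lemma fld_smooth {u : Fin 3 → X → ℝ} (hu : ∀ i, ContDiff ℝ ∞ (u i)) : ContDiff ℝ ∞ (fld u) :=
  contDiff_const.prodMk (contDiff_vec hu)

lemma vec_hasCompactSupport {u : Fin 3 → X → ℝ} (hc : ∀ i, HasCompactSupport (u i)) :
    HasCompactSupport (fun z => vec (fun i => u i z)) := by
  have h : IsCompact (⋃ i, tsupport (u i)) := isCompact_iUnion fun i => hc i
  refine HasCompactSupport.intro h fun z hz => ?_
  simp only [mem_iUnion, not_exists] at hz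
  have : (fun i => u i z) = fun _ => 0 := by
    ext i
    exact image_eq_zero_of_notMem_tsupport (hz i)
  simp only [this]
  rfl

lemma fld_lip {u : Fin 3 → X → ℝ} (hu : ∀ i, ContDiff ℝ ∞ (u i))
    (hc : ∀ i, HasCompactSupport (u i)) : ∃ K : NNReal, LipschitzWith K (fld u) := by
  obtain ⟨C, hC⟩ := ContDiff.lipschitzWith_of_hasCompactSupport (vec_hasCompactSupport hc)
    (contDiff_vec hu) (by simp)
  refine ⟨max 0 C, ?_⟩
  exact (LipschitzWith.const (1:ℝ)).prodMk hC

lemma fld_bdd {u : Fin 3 → X → ℝ} (hu : ∀ i, ContDiff ℝ ∞ (u i))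
    (hc : ∀ i, HasCompactSupport (u i)) : ∃ M : NNReal, ∀ z, ‖fld u z‖ ≤ M := by
  obtain ⟨C, hC⟩ := (vec_hasCompactSupport hc).exists_bound_of_continuous
    (contDiff_vec hu).continuous
  refine ⟨max 1 (Real.toNNReal C), fun z => ?_⟩
  unfold fld
  rw [Prod.norm_def]
  simp only [norm_one, NNReal.coe_max, NNReal.coe_one]
  refine max_le_max le_rfl ((hC z).trans ?_)
  exact Real.le_coe_toNNReal C

lemma exists_flow {u : Fin 3 → X → ℝ} (hu : ∀ i, ContDiff ℝ ∞ (u i))
    (hc : ∀ i, HasCompactSupport (u i)) : ∃ g : ℝ → X → X, IsFlowOf (fld u) g := by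
  obtain ⟨K, hK⟩ := fld_lip hu hc
  obtain ⟨M, hM⟩ := fld_bdd hu hc
  choose γ h0 h1 using exists_solution hK hM
  exact ⟨fun t x => γ x t, ⟨h0, h1⟩⟩

open Classical in
/-- a choice of the flow -/
def flw (u : Fin 3 → X → ℝ) : ℝ → X → X :=
  if h : ∃ g : ℝ → X → X, IsFlowOf (fld u) g then h.choose else fun _ z => z

lemma flw_isFlow {u : Fin 3 → X → ℝ} (hu : ∀ i, ContDiff ℝ ∞ (u i))
    (hc : ∀ i, HasCompactSupport (u i)) : IsFlowOf (fld u) (flw u) := by
  unfold flw
  rw [dif_pos (exists_flow hu hc)]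
  exact (exists_flow hu hc).choose_spec

lemma flw_smooth {u : Fin 3 → X → ℝ} (hu : ∀ i, ContDiff ℝ ∞ (u i))
    (hc : ∀ i, HasCompactSupport (u i)) : ContDiff ℝ ∞ (fun p : ℝ × X => flw u p.1 p.2) := by
  obtain ⟨K, hK⟩ := fld_lip hu hc
  rw [contDiff_infty]
  intro n
  have h1 : ContDiff ℝ ((n + 1 : ℕ) : WithTop ℕ∞) (fun p : ℝ × X => flw u p.1 p.2) :=
    contDiff_flow (X := ⟨fld u, (fld_smooth hu).continuous⟩) (m := n + 1) (by simp)
      ((fld_smooth hu).of_le (by exact_mod_cast le_top)) hK (flw_isFlow hu hc)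
  exact h1.of_le (by exact_mod_cast Nat.le_succ n)

/-- the label map (inverse flow) -/
def lab (u : Fin 3 → X → ℝ) : Fin 3 → X → ℝ := fun i z => (flw u (-z.1) z).2 i

/-- properties of the labels -/
structure IsLabel (u : Fin 3 → X → ℝ) (Y : Fin 3 → X → ℝ) : Prop where
  smooth : ∀ i, ContDiff ℝ ∞ (Y i)
  init : ∀ (x : E3) (i : Fin 3), Y i (0, x) = x i
  transport : ∀ i z, D et (Y i) z + ∑ j, u j z * D (ev j) (Y i) z = 0
  inj : ∀ z (h : Fin 3 → ℝ), (∀ i, ∑ j, h j * D (ev j) (Y i) z = 0) → h = 0
  ne_neg : ∀ z, ¬ ∀ i j, D (ev j) (Y i) z = if i = j then -1 else 0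

lemma flw_fst {u : Fin 3 → X → ℝ} (hu : ∀ i, ContDiff ℝ ∞ (u i))
    (hc : ∀ i, HasCompactSupport (u i)) (s : ℝ) (z : X) : (flw u s z).1 = z.1 + s := by
  have hf := flw_isFlow hu hc
  have h1 : ∀ t, HasDerivAt (fun t => (flw u t z).1 - t) 0 t := by
    intro t
    have := (ContinuousLinearMap.fst ℝ ℝ E3).hasFDerivAt.comp_hasDerivAt t (hf.deriv z t)
    have h2 := this.sub (hasDerivAt_id t)
    refine (h2.congr_deriv ?_)
    simp [fld]
  have h2 := is_const_of_deriv_eq_zero (fun t => (h1 t).differentiableAt)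
    (fun t => (h1 t).deriv) s 0
  simp only [hf.zero, sub_zero] at h2
  linarith

/-- the sum of coordinates representation -/
lemma sum_ev (h : Fin 3 → ℝ) : ((0, vec h) : X) = ∑ j, h j • ev j := by
  refine Prod.ext ?_ ?_
  · simp [ev, Fin.sum_univ_three]
  · ext i
    simp only [ev, Prod.snd_sum, Prod.smul_snd]
    fin_cases i <;> simp [Fin.sum_univ_three, vec]

lemma D_vec {F : X → ℝ} (z : X) (h : Fin 3 → ℝ) :
    fderiv ℝ F z (0, vec h) = ∑ j, h j * D (ev j) F z := by
  rw [sum_ev, map_sum]
  simp [D]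

lemma D_fld {F : X → ℝ} (z : X) (u : Fin 3 → X → ℝ) :
    fderiv ℝ F z (fld u z) = D et F z + ∑ j, u j z * D (ev j) F z := by
  have : fld u z = et + (0, vec (fun i => u i z)) := by
    simp [fld, et]
  rw [this, map_add, D_vec]
  rfl

lemma isLabel_lab {u : Fin 3 → X → ℝ} (hu : ∀ i, ContDiff ℝ ∞ (u i))
    (hc : ∀ i, HasCompactSupport (u i)) : IsLabel u (lab u) := by
  obtain ⟨K, hK⟩ := fld_lip hu hc
  have hf := flw_isFlow hu hc
  have hs := flw_smooth hu hc
  have hY : ∀ i, ContDiff ℝ ∞ (lab u i) := by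
    intro i
    have h1 : ContDiff ℝ ∞ (fun z : X => flw u (-z.1) z) :=
      hs.comp (contDiff_fst.neg.prodMk contDiff_id)
    exact (contDiff_euclidean.1 (contDiff_snd.comp h1)) i
  have hinit : ∀ (x : E3) (i : Fin 3), lab u i (0, x) = x i := by
    intro x i
    simp [lab, hf.zero]
  -- left inverse
  have hinj : ∀ z (h : Fin 3 → ℝ), (∀ i, ∑ j, h j * D (ev j) (lab u i) z = 0) → h = 0 := by
    intro z h hh
    obtain ⟨t, x⟩ := z
    set Gf : E3 → E3 := fun y => (flw u t (0, y)).2 with hGf
    have hGs : ContDiff ℝ ∞ Gf :=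
      contDiff_snd.comp (hs.comp (contDiff_const.prodMk (contDiff_const.prodMk contDiff_id)))
    have hGY : ∀ x' : E3, Gf (vec fun i => lab u i (t, x')) = x' := by
      intro x'
      have e1 : ((0:ℝ), (vec fun i => lab u i (t, x'))) = flw u (-t) (t, x') := by
        refine Prod.ext ?_ ?_
        · rw [flw_fst hu hc]; simp
        · rfl
      simp only [hGf]
      rw [e1, ← hf.add hK, add_neg_cancel, hf.zero]
    -- differentiate along x + s h
    set c : ℝ → X := fun s => (t, x) + s • (0, vec h) with hcdef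
    have hcd : HasDerivAt c (0, vec h) 0 := by
      have := ((hasDerivAt_id (0:ℝ)).smul_const ((0:ℝ), vec h)).const_add (t, x)
      rw [one_smul] at this
      exact this
    have hY0 : ∀ i, HasDerivAt (fun s => lab u i (c s)) 0 0 := by
      intro i
      have hc0 : c 0 = (t, x) := by simp [hcdef]
      have h1 := ((smooth_diff (hY i)) (c 0)).hasFDerivAt.comp_hasDerivAt 0 hcd
      rw [hc0, D_vec, hh i] at h1
      exact h1
    have hV : HasDerivAt (fun s => vec fun i => lab u i (c s)) 0 0 := by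
      rw [hasDerivAt_iff_hasFDerivAt, ← hasFDerivWithinAt_univ, hasFDerivWithinAt_euclidean]
      intro i
      have := (hY0 i).hasFDerivAt.hasFDerivWithinAt (s := univ)
      refine this.congr_fderiv ?_
      ext
      simp
    have h3 : HasDerivAt (fun s => Gf (vec fun i => lab u i (c s))) 0 0 := by
      have := ((hGs.differentiable (by simp)) (vec fun i => lab u i (c 0))).hasFDerivAt.comp_hasDerivAt
        0 hV
      rw [map_zero] at this
      exact this
    have h4 : (fun s => Gf (vec fun i => lab u i (c s))) = fun s => x + s • vec h := by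
      ext1 s
      have : c s = (t, x + s • vec h) := by simp [hcdef]
      rw [this, hGY]
    rw [h4] at h3
    have h5 : HasDerivAt (fun s : ℝ => x + s • vec h) (vec h) 0 := by
      have := ((hasDerivAt_id (0:ℝ)).smul_const (vec h)).const_add x
      simpa using this
    have h6 := h5.unique h3
    ext i
    have := congrArg (fun v : E3 => v i) h6
    simpa using this
  refine ⟨hY, hinit, ?_, hinj, ?_⟩
  · intro i z
    have h1 : ∀ s, lab u i (flw u s z) = lab u i z := by
      intro s
      unfold lab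
      rw [← hf.add hK, flw_fst hu hc]
      have : -(z.1 + s) + s = - z.1 := by ring
      rw [this]
    have h2 : HasDerivAt (fun s => lab u i (flw u s z)) (fderiv ℝ (lab u i) z (fld u z)) 0 := by
      have := ((smooth_diff (hY i)) (flw u 0 z)).hasFDerivAt.comp_hasDerivAt 0 (hf.deriv z 0)
      rw [hf.zero] at this
      exact this
    have h3 : (fun s => lab u i (flw u s z)) = fun _ => lab u i z := by
      ext s; exact h1 s
    rw [h3] at h2
    have h4 := h2.unique (hasDerivAt_const 0 _)
    rw [D_fld] at h4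
    exact h4
  · intro z hz
    obtain ⟨t, x⟩ := z
    -- the Jacobian along the time axis
    set M : ℝ → Matrix (Fin 3) (Fin 3) ℝ := fun s => fun i j => D (ev j) (lab u i) (s, x) with hM
    have hMc : Continuous fun s => (M s).det := by
      refine Continuous.matrix_det ?_
      refine continuous_matrix fun i j => ?_
      exact (D_smooth (hY i) (ev j)).continuous.comp (continuous_id.prodMk continuous_const)
    have hM0 : (M 0).det = 1 := by
      have : M 0 = 1 := by
        ext i j
        simp only [hM]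
        have h1 : D (ev j) (lab u i) (0, x) = if i = j then 1 else 0 := by
          have hcd : HasDerivAt (fun s : ℝ => ((0:ℝ), x) + s • ev j) (ev j) 0 := by
            have := ((hasDerivAt_id (0:ℝ)).smul_const (ev j)).const_add ((0:ℝ), x)
            simpa using this
          have h2 := ((smooth_diff (hY i)) (((0:ℝ), x) + (0:ℝ) • ev j)).hasFDerivAt.comp_hasDerivAt
            0 hcd
          have h3 : (lab u i ∘ fun s : ℝ => ((0:ℝ), x) + s • ev j) =
              fun s => x i + s * (if i = j then 1 else 0) := by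
            ext s
            have : ((0:ℝ), x) + s • ev j = (0, x + s • EuclideanSpace.single j (1:ℝ)) := by
              simp [ev]
            simp only [Function.comp]
            rw [this, hinit]
            simp
          rw [h3] at h2
          have h4 : HasDerivAt (fun s : ℝ => x i + s * (if i = j then 1 else 0))
              (if i = j then 1 else 0) 0 := by
            have := ((hasDerivAt_id (0:ℝ)).mul_const (if i = j then (1:ℝ) else 0)).const_add (x i)
            simpa using this
          have h5 := h2.unique h4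
          simp only [zero_smul, add_zero] at h5
          exact h5
        rw [h1, Matrix.one_apply]
      rw [this, Matrix.det_one]
    have hMt : (M t).det = -1 := by
      have : M t = -1 := by
        ext i j
        simp only [hM, hz i j, Matrix.neg_apply, Matrix.one_apply]
        split_ifs <;> simp
      rw [this, Matrix.det_neg, Matrix.det_one]
      simp only [Fintype.card_fin]
      norm_num
    have hne : ∀ s, (M s).det ≠ 0 := by
      intro s hs
      obtain ⟨v, hv, hv2⟩ := Matrix.exists_mulVec_eq_zero_iff.2 hs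
      apply hv
      apply hinj (s, x) v
      intro i
      have := congrFun hv2 i
      simp only [Matrix.mulVec, dotProduct, Pi.zero_apply, hM] at this
      rw [← this]
      exact Finset.sum_congr rfl fun j _ => by ring
    have := mem_range_of_exists_le_of_exists_ge hMc (c := 0) ⟨t, by rw [hMt]; norm_num⟩
      ⟨0, by rw [hM0]; norm_num⟩
    obtain ⟨s, hs⟩ := this
    exact hne s hs

lemma gronwall_scale (K x : ℝ) (ε : ℝ) :
    gronwallBound 0 K ε x = ε * gronwallBound 0 K 1 x := by
  unfold gronwallBound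
  split_ifs with h
  · ring
  · ring

lemma lab_close {u : Fin 3 → X → ℝ} (hu : ∀ i, ContDiff ℝ ∞ (u i))
    (hc : ∀ i, HasCompactSupport (u i)) (T₀ : ℝ) : ∃ C : ℝ, 0 ≤ C ∧ ∀ u' : Fin 3 → X → ℝ,
    (∀ i, ContDiff ℝ ∞ (u' i)) → (∀ i, HasCompactSupport (u' i)) → ∀ δ : ℝ,
    (∀ i z, |u' i z - u i z| ≤ δ) → ∀ z : X, 0 ≤ z.1 → z.1 ≤ T₀ →
    ∀ i, |lab u' i z - lab u i z| ≤ C * δ := by
  obtain ⟨K, hK⟩ := fld_lip hu hc
  have hf := flw_isFlow hu hc
  refine ⟨2 * gronwallBound 0 K 1 (max T₀ 0), ?_, ?_⟩
  · have : gronwallBound 0 K 1 0 ≤ gronwallBound 0 K 1 (max T₀ 0) :=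
      gronwallBound_mono le_rfl zero_le_one K.2 (le_max_right _ _)
    rw [gronwallBound_x0] at this
    linarith
  intro u' hu' hc' δ hδ z hz0 hzT i
  have hf' := flw_isFlow hu' hc'
  have hδ0 : 0 ≤ δ := (abs_nonneg _).trans (hδ 0 z)
  have hKn : LipschitzWith K (fun y => - fld u y) := hK.neg
  have hder : ∀ {v : Fin 3 → X → ℝ} (hv : IsFlowOf (fld v) (flw v)) (s : ℝ),
      HasDerivAt (fun s => flw v (-s) z) (- fld v (flw v (-s) z)) s := by
    intro v hv s
    have := (hv.deriv z (-s)).scomp s (hasDerivAt_neg s)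
    rw [neg_one_smul] at this
    exact this
  have h1 := dist_le_of_approx_trajectories_ODE (v := fun _ y => - fld u y) (K := K)
    (f := fun s => flw u' (-s) z) (f' := fun s => - fld u' (flw u' (-s) z))
    (g := fun s => flw u (-s) z) (g' := fun s => - fld u (flw u (-s) z)) (a := 0) (b := z.1)
    (εf := 2 * δ) (εg := 0) (δ := 0) (fun _ => hKn)
    (fun s _ => (hder hf' s).continuousAt.continuousWithinAt)
    (fun s _ => (hder hf' s).hasDerivWithinAt)
    (fun s _ => by
      rw [dist_neg_neg, dist_eq_norm]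
      have : fld u' (flw u' (-s) z) - fld u (flw u' (-s) z) =
          (0, vec fun i => u' i (flw u' (-s) z) - u i (flw u' (-s) z)) := by
        refine Prod.ext ?_ ?_
        · simp [fld]
        · ext i; simp [fld]
      rw [this, Prod.norm_def]
      simp only [norm_zero]
      exact max_le (by linarith) (norm_vec_le fun i => hδ i _))
    (fun s _ => (hder hf s).continuousAt.continuousWithinAt)
    (fun s _ => (hder hf s).hasDerivWithinAt)
    (fun s _ => by simp)
    (by simp [hf.zero, hf'.zero]) z.1 ⟨hz0, le_rfl⟩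
  have h2 : |lab u' i z - lab u i z| ≤ dist (flw u' (-z.1) z) (flw u (-z.1) z) := by
    have e1 : |lab u' i z - lab u i z| = ‖(flw u' (-z.1) z - flw u (-z.1) z).2 i‖ := by
      simp [lab]
    rw [e1, dist_eq_norm]
    exact (PiLp.norm_apply_le _ i).trans (norm_snd_le _)
  refine h2.trans (h1.trans ?_)
  rw [add_zero, gronwall_scale, sub_zero]
  have h3 : gronwallBound 0 K 1 z.1 ≤ gronwallBound 0 K 1 (max T₀ 0) :=
    gronwallBound_mono le_rfl zero_le_one K.2 (hzT.trans (le_max_left _ _))
  nlinarith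

end

end Pool.Agent.H729R2
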