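import Pool.Agent.H729R2.Norm

open scoped ContDiff
open Set MeasureTheory Filter Topology

namespace Pool.Agent.H729R2

noncomputable section

/-- uniform limits -/
lemma exists_ulim {α : Type} [TopologicalSpace α] (F : ℕ → α → ℝ) (hc : ∀ n, Continuous (F n))
    (b : ℕ → ℝ) (hs : Summable b) (h : ∀ n x, |F (n + 1) x - F n x| ≤ b n) :
    ∃ f : α → ℝ, Continuous f ∧ (∀ x, Tendsto (fun n => F n x) atTop (𝓝 (f x))) ∧
      ∀ n x, |F n x - f x| ≤ ∑' m, b (n + m) := by
  have hd : ∀ x n, dist (F n x) (F n.succ x) ≤ b n := fun x n => by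
    rw [dist_comm, Real.dist_eq]; exact h n x
  have hC : ∀ x, ∃ y, Tendsto (fun n => F n x) atTop (𝓝 y) := fun x =>
    cauchySeq_tendsto_of_complete (cauchySeq_of_dist_le_of_summable b (hd x) hs)
  choose f hf using hC
  have hb : ∀ n x, |F n x - f x| ≤ ∑' m, b (n + m) := fun n x => by
    have := dist_le_tsum_of_dist_le_of_tendsto b (hd x) hs (hf x) n
    rwa [Real.dist_eq] at this
  refine ⟨f, ?_, hf, hb⟩
  have hu : TendstoUniformly F f atTop := by
    rw [Metric.tendstoUniformly_iff]
    intro ε hε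
    have h0 : Tendsto (fun n => ∑' m, b (n + m)) atTop (𝓝 0) := by
      have := tendsto_sum_nat_add b
      simpa [add_comm] using this
    filter_upwards [h0.eventually (gt_mem_nhds hε)] with n hn x
    rw [dist_comm, Real.dist_eq]
    exact (hb n x).trans_lt hn
  exact hu.continuous (Eventually.frequently (Eventually.of_forall hc))

/-- limits in `L²` -/
lemma exists_L2lim {K₀ : Set X} (hK : IsCompact K₀) (g : ℕ → X → ℝ)
    (hg : ∀ n, MemLp (g n) 2 (volume : Measure X)) (hz : ∀ n z, z ∉ K₀ → g n z = 0)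
    (b : ℕ → ℝ) (hs : Summable b) (h : ∀ n, n2 (fun z => g (n + 1) z - g n z) ≤ b n) :
    ∃ f : X → ℝ, MemLp f 2 (volume : Measure X) ∧ (∀ z, z ∉ K₀ → f z = 0) ∧
      Tendsto (fun n => n2 (fun z => g n z - f z)) atTop (𝓝 0) := by
  set G : ℕ → Lp ℝ 2 (volume : Measure X) := fun n => (hg n).toLp (g n) with hG
  have hd : ∀ n, dist (G n) (G n.succ) ≤ b n := by
    intro n
    rw [dist_comm, hG]
    simp only [Lp.dist_def]
    refine le_trans (le_of_eq ?_) (h n)
    unfold n2
    congr 1
    refine eLpNorm_congr_ae ?_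
    filter_upwards [(hg (n + 1)).coeFn_toLp, (hg n).coeFn_toLp] with z h1 h2
    simp only [Pi.sub_apply, Nat.succ_eq_add_one]
    rw [h1, h2]
  obtain ⟨Gl, hGl⟩ := cauchySeq_tendsto_of_complete (cauchySeq_of_dist_le_of_summable b hd hs)
  have hm0 : MemLp (Gl : X → ℝ) 2 (volume : Measure X) := Lp.memLp Gl
  have h0 : Tendsto (fun n => n2 (fun z => g n z - Gl z)) atTop (𝓝 0) := by
    have h1 := tendsto_iff_dist_tendsto_zero.1 hGl
    refine h1.congr fun n => ?_
    rw [hG]
    simp only [Lp.dist_def]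
    unfold n2
    congr 1
    refine eLpNorm_congr_ae ?_
    filter_upwards [(hg n).coeFn_toLp] with z h1
    simp only [Pi.sub_apply]
    rw [h1]
  refine ⟨K₀.indicator Gl, hm0.indicator hK.measurableSet, fun z hz => by simp [hz], ?_⟩
  refine squeeze_zero (fun n => n2_nonneg _) (fun n => ?_) h0
  have hm1 : MemLp (fun z => g n z - Gl z) 2 (volume : Measure X) := (hg n).sub hm0
  unfold n2
  refine ENNReal.toReal_mono hm1.2.ne (eLpNorm_mono fun z => ?_)
  by_cases hz' : z ∈ K₀
  · simp [hz']
  · simp [hz', hz n z hz']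

/-- bounded pointwise convergence on a set -/
structure BT (A : Set X) (F : ℕ → X → ℝ) (f : X → ℝ) : Prop where
  cont : ∀ n, Continuous (F n)
  bdd : ∃ C : ℝ, 0 ≤ C ∧ ∀ n, ∀ z ∈ A, |F n z| ≤ C
  lim : ∀ z ∈ A, Tendsto (fun n => F n z) atTop (𝓝 (f z))

variable {A : Set X} {F G : ℕ → X → ℝ} {f g : X → ℝ}

lemma BT.add (hF : BT A F f) (hG : BT A G g) : BT A (fun n z => F n z + G n z)
    (fun z => f z + g z) := by
  refine ⟨fun n => (hF.cont n).add (hG.cont n), ?_, fun z hz => (hF.lim z hz).add (hG.lim z hz)⟩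
  obtain ⟨C, h0, h⟩ := hF.bdd
  obtain ⟨C', h0', h'⟩ := hG.bdd
  exact ⟨C + C', by positivity, fun n z hz =>
    (abs_add_le _ _).trans (add_le_add (h n z hz) (h' n z hz))⟩

lemma BT.neg (hF : BT A F f) : BT A (fun n z => - F n z) (fun z => - f z) := by
  refine ⟨fun n => (hF.cont n).neg, ?_, fun z hz => (hF.lim z hz).neg⟩
  obtain ⟨C, h0, h⟩ := hF.bdd
  exact ⟨C, h0, fun n z hz => by rw [abs_neg]; exact h n z hz⟩

lemma BT.sub (hF : BT A F f) (hG : BT A G g) : BT A (fun n z => F n z - G n z)
    (fun z => f z - g z) := by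
  have := hF.add hG.neg
  simpa [sub_eq_add_neg] using this

lemma BT.mul (hF : BT A F f) (hG : BT A G g) : BT A (fun n z => F n z * G n z)
    (fun z => f z * g z) := by
  refine ⟨fun n => (hF.cont n).mul (hG.cont n), ?_, fun z hz => (hF.lim z hz).mul (hG.lim z hz)⟩
  obtain ⟨C, h0, h⟩ := hF.bdd
  obtain ⟨C', h0', h'⟩ := hG.bdd
  refine ⟨C * C', by positivity, fun n z hz => ?_⟩
  rw [abs_mul]
  exact mul_le_mul (h n z hz) (h' n z hz) (abs_nonneg _) h0

lemma BT.const (hA : IsCompact A) (hf : Continuous f) : BT A (fun _ => f) f := by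
  obtain ⟨C, hC⟩ := bounded_on hA hf
  exact ⟨fun _ => hf, ⟨|C|, abs_nonneg C, fun n z hz => (hC z hz).trans (le_abs_self C)⟩,
    fun z _ => tendsto_const_nhds⟩

lemma BT.sum {ι : Type} (s : Finset ι) {F : ι → ℕ → X → ℝ} {f : ι → X → ℝ}
    (h : ∀ i ∈ s, BT A (F i) (f i)) :
    BT A (fun n z => ∑ i ∈ s, F i n z) (fun z => ∑ i ∈ s, f i z) := by
  classical
  induction s using Finset.induction_on with
  | empty =>
    exact ⟨fun n => by simpa using continuous_const, ⟨0, le_rfl, fun n z _ => by simp⟩,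
      fun z _ => by simp⟩
  | insert i s hi ih =>
    simp only [Finset.sum_insert hi]
    exact (h i (Finset.mem_insert_self i s)).add
      (ih fun j hj => h j (Finset.mem_insert_of_mem hj))

lemma BT.mono {B : Set X} (h : BT A F f) (hB : B ⊆ A) : BT B F f := by
  obtain ⟨C, h0, hC⟩ := h.bdd
  exact ⟨h.cont, ⟨C, h0, fun n z hz => hC n z (hB hz)⟩, fun z hz => h.lim z (hB hz)⟩

/-- reciprocals -/
lemma BT.inv (h : BT A F f) (hF : ∀ n z, 1 / 2 ≤ F n z) :
    BT A (fun n z => 1 / F n z) (fun z => 1 / f z) := by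
  have hf : ∀ z ∈ A, 1 / 2 ≤ f z := fun z hz => ge_of_tendsto' (h.lim z hz) fun n => hF n z
  refine ⟨fun n => continuous_const.div (h.cont n) fun z => by linarith [hF n z],
    ⟨2, by norm_num, fun n z _ => ?_⟩, fun z hz => ?_⟩
  · have := hF n z
    rw [abs_of_nonneg (by positivity), div_le_iff₀ (by linarith)]
    linarith
  · exact tendsto_const_nhds.div (h.lim z hz) (by linarith [hf z hz])

lemma BT.int (hA : IsCompact A) (h : BT A F f) :
    Tendsto (fun n => ∫ z in A, F n z) atTop (𝓝 (∫ z in A, f z)) := by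
  obtain ⟨C, h0, hC⟩ := h.bdd
  refine tendsto_integral_of_dominated_convergence (fun _ => C)
    (fun n => (h.cont n).aestronglyMeasurable) ?_ (fun n => ?_) ?_
  · exact integrableOn_const hA.measure_lt_top.ne
  · exact (ae_restrict_iff' hA.measurableSet).2 (Eventually.of_forall fun z hz => hC n z hz)
  · exact (ae_restrict_iff' hA.measurableSet).2 (Eventually.of_forall fun z hz => h.lim z hz)

/-- Cauchy-Schwarz on a compact set -/
lemma cs_bound (hA : IsCompact A) {a g : X → ℝ} (hg : MemLp g 2 (volume : Measure X))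
    {C : ℝ} (h0 : 0 ≤ C) (hC : ∀ z ∈ A, |a z| ≤ C) : |∫ z in A, a z * g z| ≤ C * vK A * n2 g := by
  have hind := memLp_ind hA
  have hi : Integrable (fun z => |A.indicator (fun _ => (1:ℝ)) z| * |g z|) := by
    have : Integrable (fun z => A.indicator (fun _ => (1:ℝ)) z * g z) := hind.integrable_mul hg
    simpa [abs_mul] using this.abs
  have h1 : |∫ z in A, a z * g z| ≤ ∫ z in A, C * |g z| := by
    rw [← Real.norm_eq_abs]
    refine (norm_integral_le_integral_norm (fun z => a z * g z)).trans ?_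
    refine integral_mono_of_nonneg (Eventually.of_forall fun z => norm_nonneg _) ?_ ?_
    · refine (Integrable.const_mul ?_ C)
      have h2 : Integrable (A.indicator fun z => |g z|) := by
        refine hi.congr (Eventually.of_forall fun z => ?_)
        by_cases hz : z ∈ A <;> simp [hz]
      exact (integrable_indicator_iff hA.measurableSet).1 h2
    · refine (ae_restrict_iff' hA.measurableSet).2 (Eventually.of_forall fun z hz => ?_)
      change ‖a z * g z‖ ≤ C * |g z|
      rw [norm_mul, Real.norm_eq_abs, Real.norm_eq_abs]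
      exact mul_le_mul_of_nonneg_right (hC z hz) (abs_nonneg _)
  refine h1.trans ?_
  rw [integral_const_mul, mul_assoc]
  refine mul_le_mul_of_nonneg_left ?_ h0
  have h3 : ∫ z in A, |g z| = ∫ z, |A.indicator (fun _ => (1:ℝ)) z| * |g z| := by
    rw [← integral_indicator hA.measurableSet]
    refine integral_congr_ae (Eventually.of_forall fun z => ?_)
    by_cases hz : z ∈ A <;> simp [hz]
  rw [h3]
  have h4 := integral_mul_norm_le_Lp_mul_Lq (μ := (volume : Measure X))
    (f := A.indicator fun _ => (1:ℝ)) (g := g) Real.HolderConjugate.two_two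
    (by simpa using hind) (by simpa using hg)
  simp only [Real.norm_eq_abs] at h4
  refine h4.trans (le_of_eq ?_)
  have h5 : ∀ {f : X → ℝ}, MemLp f 2 (volume : Measure X) →
      (∫ z, |f z| ^ (2:ℝ)) ^ (1 / (2:ℝ)) = n2 f := by
    intro f hf
    have h6 := n2_sq hf
    have h7 : ∫ z, |f z| ^ (2:ℝ) = n2 f ^ 2 := by
      rw [h6]
      refine integral_congr_ae (Eventually.of_forall fun z => ?_)
      beta_reduce
      rw [Real.rpow_two, sq_abs]
    rw [h7, ← Real.sqrt_eq_rpow, Real.sqrt_sq (n2_nonneg _)]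
  rw [h5 hind, h5 hg]
  rfl

lemma BT.intL2 (hA : IsCompact A) (h : BT A F f) {G : ℕ → X → ℝ} {g : X → ℝ}
    (hG : ∀ n, MemLp (G n) 2 (volume : Measure X)) (hg : MemLp g 2 (volume : Measure X))
    (ht : Tendsto (fun n => n2 (fun z => G n z - g z)) atTop (𝓝 0)) :
    Tendsto (fun n => ∫ z in A, F n z * G n z) atTop (𝓝 (∫ z in A, f z * g z)) := by
  obtain ⟨C, h0, hC⟩ := h.bdd
  have hgi : IntegrableOn g A := by
    have : Integrable (fun z => A.indicator (fun _ => (1:ℝ)) z * g z) :=
      (memLp_ind hA).integrable_mul hg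
    refine (integrable_indicator_iff hA.measurableSet).1 (this.congr
      (Eventually.of_forall fun z => ?_))
    by_cases hz : z ∈ A <;> simp [hz]
  have hbi : ∀ {u : X → ℝ} {n : ℕ}, IntegrableOn u A → IntegrableOn (fun z => F n z * u z) A := by
    intro u n hu
    refine Integrable.bdd_mul (c := C) hu (h.cont n).aestronglyMeasurable ?_
    exact (ae_restrict_iff' hA.measurableSet).2 (Eventually.of_forall fun z hz => hC n z hz)
  -- first part
  have t1 : Tendsto (fun n => ∫ z in A, F n z * (G n z - g z)) atTop (𝓝 0) := by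
    refine squeeze_zero_norm (a := fun n => C * vK A * n2 (fun z => G n z - g z)) (fun n => ?_) ?_
    · exact cs_bound hA ((hG n).sub hg) h0 (hC n)
    · have := ht.const_mul (C * vK A)
      simpa using this
  have t2 : Tendsto (fun n => ∫ z in A, F n z * g z) atTop (𝓝 (∫ z in A, f z * g z)) := by
    refine tendsto_integral_of_dominated_convergence (fun z => C * |g z|)
      (fun n => (h.cont n).aestronglyMeasurable.mul hgi.aestronglyMeasurable)
      (hgi.abs.const_mul C) (fun n => ?_) ?_
    · refine (ae_restrict_iff' hA.measurableSet).2 (Eventually.of_forall fun z hz => ?_)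
      rw [norm_mul, Real.norm_eq_abs, Real.norm_eq_abs]
      exact mul_le_mul_of_nonneg_right (hC n z hz) (abs_nonneg _)
    · refine (ae_restrict_iff' hA.measurableSet).2 (Eventually.of_forall fun z hz => ?_)
      exact (h.lim z hz).mul_const _
  have t3 := t1.add t2
  rw [zero_add] at t3
  refine t3.congr fun n => ?_
  have hGi : IntegrableOn (G n) A := by
    have : Integrable (fun z => A.indicator (fun _ => (1:ℝ)) z * G n z) :=
      (memLp_ind hA).integrable_mul (hG n)
    refine (integrable_indicator_iff hA.measurableSet).1 (this.congr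
      (Eventually.of_forall fun z => ?_))
    by_cases hz : z ∈ A <;> simp [hz]
  have hsub : IntegrableOn (fun z => G n z - g z) A := hGi.sub hgi
  rw [← integral_add (hbi hsub) (hbi hgi)]
  refine integral_congr_ae (Eventually.of_forall fun z => ?_)
  beta_reduce
  ring

end

end Pool.Agent.H729R2
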