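import Pool.Agent.H729R2.Limits

open scoped ContDiff
open Set MeasureTheory Filter Topology

namespace Pool.Agent.H729R2

noncomputable section

set_option linter.unusedSectionVars false

namespace Lims

variable {K₀ : Set X} {T b : ℝ} {S : ℕ → St} {uL : Fin 3 → X → ℝ} {xL : Fin 3 → Fin 3 → X → ℝ}
    {rL : E3 → ℝ} {RL : X → ℝ} {fL : Fin 3 → X → ℝ}
    (h : Lims K₀ T b S uL xL rL RL fL) (hK : IsCompact K₀) (hKT : K₀ ⊆ slab T)
include h hK

lemma bt_u {A : Set X} (hA : IsCompact A) (i : Fin 3) : BT A (fun n => (S n).u i) (uL i) := by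
  obtain ⟨c, h0, hc⟩ := h.ul
  exact BT.of_unif hA (fun n => ((h.good n).hu i).continuous) (h.uc i) h0 (hc i)

lemma bt_x {A : Set X} (hA : IsCompact A) (i j : Fin 3) :
    BT A (fun n => D (ev j) ((S n).u i)) (xL i j) := by
  obtain ⟨c, h0, hc⟩ := h.xl
  exact BT.of_unif hA (fun n => (D_smooth ((h.good n).hu i) (ev j)).continuous) (h.xc i j) h0
    (hc i j)

lemma bt_P2 {A : Set X} (hAT : A ⊆ slab T) :
    BT A (fun n => P2 (S n)) (fun z => 1 / RL z) := by
  refine BT.inv ⟨fun n => ((h.good n).R2s hK).continuous, ⟨2, by norm_num, fun n z _ => ?_⟩,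
    fun z hz => h.Rl z (hAT hz)⟩ (fun n z => (h.good n).rlo _)
  exact abs_le.2 ⟨by have : 1 / 2 ≤ (S n).R2 z := (h.good n).rlo _; linarith, (h.good n).rhi _⟩

lemma bt_P1 {A : Set X} : BT A (fun n => P1 (S n)) (fun z => 1 / rL z.2) := by
  refine BT.inv ⟨fun n => (h.good n).R1s.continuous, ⟨2, by norm_num, fun n z _ => ?_⟩,
    fun z hz => h.rl z.2⟩ (fun n z => (h.good n).rlo _)
  exact abs_le.2 ⟨by have : 1 / 2 ≤ (S n).R1 z := (h.good n).rlo _; linarith, (h.good n).rhi _⟩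

lemma transport_lim {ψ : X → ℝ} (hψ : ContDiff ℝ ∞ ψ) (hc : HasCompactSupport ψ)
    (hT : tsupport ψ ⊆ slab T) :
    ∫ z in tsupport ψ, 1 / RL z * (D et ψ z + ∑ j, uL j z * D (ev j) ψ z) = 0 := by
  have hA : IsCompact (tsupport ψ) := hc
  have h1 : BT (tsupport ψ)
      (fun n z => P2 (S n) z * (D et ψ z + ∑ j, (S n).u j z * D (ev j) ψ z))
      (fun z => 1 / RL z * (D et ψ z + ∑ j, uL j z * D (ev j) ψ z)) :=
    (h.bt_P2 hK hT).mul ((BT.const hA (D_smooth hψ et).continuous).add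
      (BT.sum Finset.univ fun j _ => (h.bt_u hK hA j).mul
        (BT.const hA (D_smooth hψ (ev j)).continuous)))
  have h2 := h1.int hA
  have h3 : ∀ n, ∫ z in tsupport ψ, P2 (S n) z * (D et ψ z + ∑ j, (S n).u j z * D (ev j) ψ z)
      = 0 := by
    intro n
    rw [setIntegral_eq_integral_of_forall_compl_eq_zero (fun z hz => ?_)]
    · exact (h.good n).transport_eq hK hψ hc
    · rw [D_eq_zero_of_notMem _ hz]
      have : ∀ j, D (ev j) ψ z = 0 := fun j => D_eq_zero_of_notMem _ hz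
      simp [this]
  simp only [h3] at h2
  exact (tendsto_nhds_unique h2 tendsto_const_nhds)

include hKT

lemma second_lim {φ : Fin 3 → X → ℝ} (hφ : ∀ i, ContDiff ℝ ∞ (φ i))
    (hc : ∀ i, HasCompactSupport (φ i)) (hdiv : ∀ z ∈ K₀, ∑ i, D (ev i) (φ i) z = 0) :
    (∑ i, ∫ z in K₀, 1 / RL z * (uL i z * (D et (φ i) z + ∑ j, uL j z * D (ev j) (φ i) z)))
      - (∑ i, ∑ j, ∫ z in K₀, (xL i j z + xL j i z) * D (ev j) (φ i) z)
      + ∑ i, ∫ z in K₀, (1 / RL z * φ i z) * fL i z = 0 := by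
  have hP := h.bt_P2 hK hKT
  have hφc : ∀ i, BT K₀ (fun _ => φ i) (φ i) := fun i => BT.const hK (hφ i).continuous
  have t1 : ∀ i, Tendsto (fun n => ∫ z in K₀, P2 (S n) z * ((S n).u i z * (D et (φ i) z
      + ∑ j, (S n).u j z * D (ev j) (φ i) z))) atTop
      (𝓝 (∫ z in K₀, 1 / RL z * (uL i z * (D et (φ i) z + ∑ j, uL j z * D (ev j) (φ i) z)))) :=
    fun i => BT.int hK (hP.mul ((h.bt_u hK hK i).mul ((BT.const hK
      (D_smooth (hφ i) et).continuous).add (BT.sum Finset.univ fun j _ => (h.bt_u hK hK j).mul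
        (BT.const hK (D_smooth (hφ i) (ev j)).continuous)))))
  have t2 : ∀ i j, Tendsto (fun n => ∫ z in K₀, (D (ev j) ((S n).u i) z
      + D (ev i) ((S n).u j) z) * D (ev j) (φ i) z) atTop
      (𝓝 (∫ z in K₀, (xL i j z + xL j i z) * D (ev j) (φ i) z)) :=
    fun i j => BT.int hK (((h.bt_x hK hK i j).add (h.bt_x hK hK j i)).mul
      (BT.const hK (D_smooth (hφ i) (ev j)).continuous))
  have t3 : ∀ i, Tendsto (fun n => ∫ z in K₀, (P2 (S n) z * φ i z) * ff (S n) i z) atTop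
      (𝓝 (∫ z in K₀, (1 / RL z * φ i z) * fL i z)) := fun i =>
    BT.intL2 hK (hP.mul (hφc i)) (fun n =>
      memLp_cc (((h.good n).R1s.mul ((h.good n).gps i)).continuous)
      (HasCompactSupport.intro hK fun z hz => by simp [ff, (h.good n).gp_zero hz]))
      (h.fm i) (h.fl i)
  have t4 : ∀ i, Tendsto (fun n => ∫ z in K₀, (P2 (S n) z * φ i z) * (S n).e i z) atTop
      (𝓝 0) := by
    intro i
    have := BT.intL2 hK (hP.mul (hφc i)) (G := fun n => (S n).e i) (g := fun _ => 0) (fun n =>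
      memLp_cc ((h.good n).es hK i).continuous
      (HasCompactSupport.intro hK fun z hz => (h.good n).e_zero hz i))
      MemLp.zero' (by simpa using h.el i)
    simpa using this
  have T1 := tendsto_finsetSum Finset.univ fun i _ => t1 i
  have T2 := tendsto_finsetSum Finset.univ fun i _ =>
    tendsto_finsetSum Finset.univ fun j _ => t2 i j
  have T3 := tendsto_finsetSum Finset.univ fun i _ => t3 i
  have T4 := (tendsto_finsetSum Finset.univ fun i _ => t4 i).neg
  have T := (T1.sub T2).add T3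
  have T' := T.congr fun n => (h.good n).second_eq hK hφ hc hdiv
  have := tendsto_nhds_unique T' T4
  simpa using this

omit hKT

lemma first_lim {φ : Fin 3 → X → ℝ} (hφ : ∀ i, ContDiff ℝ ∞ (φ i))
    (hc : ∀ i, HasCompactSupport (φ i)) (hdiv : ∀ z ∈ K₀, ∑ i, D (ev i) (φ i) z = 0) :
    ∑ i, ∫ z in K₀, (1 / rL z.2 * φ i z) * fL i z = 0 := by
  have hP := h.bt_P1 hK (A := K₀)
  have hφc : ∀ i, BT K₀ (fun _ => φ i) (φ i) := fun i => BT.const hK (hφ i).continuous
  have t3 : ∀ i, Tendsto (fun n => ∫ z in K₀, (P1 (S n) z * φ i z) * ff (S n) i z) atTop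
      (𝓝 (∫ z in K₀, (1 / rL z.2 * φ i z) * fL i z)) := fun i =>
    BT.intL2 hK (hP.mul (hφc i)) (fun n =>
      memLp_cc (((h.good n).R1s.mul ((h.good n).gps i)).continuous)
      (HasCompactSupport.intro hK fun z hz => by simp [ff, (h.good n).gp_zero hz]))
      (h.fm i) (h.fl i)
  have T3 := tendsto_finsetSum Finset.univ fun i _ => t3 i
  have T' := T3.congr fun n => (h.good n).first_eq hK hφ hc hdiv
  exact (tendsto_nhds_unique T' tendsto_const_nhds)

end Lims

end

end Pool.Agent.H729R2
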