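import Pool.Agent.H729R2.Weak
import Pool.Agent.H729R2.Init

open scoped ContDiff
open Set MeasureTheory Filter Topology

namespace Pool.Agent.H729R2

noncomputable section

set_option linter.unusedSectionVars false

/-- the limits of the iteration -/
structure Lims (K₀ : Set X) (T b : ℝ) (S : ℕ → St) (uL : Fin 3 → X → ℝ) (xL : Fin 3 → Fin 3 → X → ℝ)
    (rL : E3 → ℝ) (RL : X → ℝ) (fL : Fin 3 → X → ℝ) : Prop where
  good : ∀ n, Good K₀ (S n)
  uc : ∀ i, Continuous (uL i)
  ul : ∃ c : ℕ → ℝ, Tendsto c atTop (𝓝 0) ∧ ∀ i n z, |(S n).u i z - uL i z| ≤ c n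
  xc : ∀ i j, Continuous (xL i j)
  xl : ∃ c : ℕ → ℝ, Tendsto c atTop (𝓝 0) ∧ ∀ i j n z, |D (ev j) ((S n).u i) z - xL i j z| ≤ c n
  rc : Continuous rL
  rl : ∀ x, Tendsto (fun n => (S n).r x) atTop (𝓝 (rL x))
  Rc : Continuous RL
  Rl : ∀ z ∈ slab T, Tendsto (fun n => (S n).R2 z) atTop (𝓝 (RL z))
  rb : ∀ x, |rL x - 1| ≤ b
  Rb : ∀ z, |RL z - 1| ≤ b
  fm : ∀ i, MemLp (fL i) 2 (volume : Measure X)
  fz : ∀ i z, z ∉ K₀ → fL i z = 0
  fl : ∀ i, Tendsto (fun n => n2 (fun z => ff (S n) i z - fL i z)) atTop (𝓝 0)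
  el : ∀ i, Tendsto (fun n => n2 ((S n).e i)) atTop (𝓝 0)

/-- the limits exist -/
theorem exists_lims {T : ℝ} (hT : 0 < T) {K₀ : Set X} (hK : IsCompact K₀) (hKT : K₀ ⊆ slab T)
    {S₀ : St} (hg : Good K₀ S₀) (hr : ∀ x, S₀.r x = 1) {es d : ℝ}
    (hes : 0 < es) (hes1 : es ≤ 1 / 1000000) (hd : 0 < d) :
    ∃ S uL xL rL RL fL, Lims K₀ T (80 * es) S uL xL rL RL fL ∧
      ∀ i z, |S₀.u i z - uL i z| ≤ d := by
  obtain ⟨S, D₀, h0, hD, hI, hR⟩ := iterate hK hKT hg hr hes hes1 hd
  have hgood : ∀ n, Good K₀ (S n) := fun n => (hI n).good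
  -- summable rates
  have hs1 : Summable (fun n : ℕ => d * (1 / 2 : ℝ) ^ (n + 1)) := by
    have : Summable (fun n : ℕ => (1 / 2 : ℝ) ^ n) := summable_geometric_two
    have h2 := (this.mul_left (d * (1 / 2)))
    refine h2.congr fun n => ?_
    rw [pow_succ]; ring
  have hs2 : Summable (fun n : ℕ => 2 * es * (975 / 1000 : ℝ) ^ n) :=
    (summable_geometric_of_lt_one (by norm_num) (by norm_num)).mul_left _
  have hs3 : Summable (fun n : ℕ => 2 * es * (975 / 1000 : ℝ) ^ n + d * (1 / 2 : ℝ) ^ (n + 1)) :=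
    hs2.add hs1
  have hs4 : Summable (fun n : ℕ => 3000 * D₀ / es * (98 / 100 : ℝ) ^ n) :=
    (summable_geometric_of_lt_one (by norm_num) (by norm_num)).mul_left _
  have hz : ∀ {b : ℕ → ℝ}, Tendsto (fun n => ∑' m, b (n + m)) atTop (𝓝 0) := by
    intro b
    have := tendsto_sum_nat_add b
    simpa [add_comm] using this
  have hsum : ∑' m : ℕ, d * (1 / 2 : ℝ) ^ (0 + m + 1) ≤ d := by
    have h1 : ∀ m : ℕ, d * (1 / 2 : ℝ) ^ (0 + m + 1) = d / 2 / 2 ^ m := by
      intro m
      rw [zero_add, pow_succ, one_div, inv_pow]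
      field_simp
    simp only [h1]
    exact (tsum_geometric_two' d).le
  -- velocity
  have hu := fun i => exists_ulim (fun n => (S n).u i) (fun n => ((hgood n).hu i).continuous)
    _ hs1 (fun n z => (hR n).u i z)
  choose uL uc ul ub using hu
  have hx := fun i j => exists_ulim (fun n => D (ev j) ((S n).u i))
    (fun n => (D_smooth ((hgood n).hu i) (ev j)).continuous)
    _ hs1 (fun n z => (hR n).ux i j z)
  choose xL xc xl xb using hx
  obtain ⟨rL, rc, rl, -⟩ := exists_ulim (fun n => (S n).r) (fun n => (hgood n).hr.continuous)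
    _ hs2 (fun n x => (hR n).r x)
  -- the transported density, extended by clamping the time
  set cl : X → X := fun z => (max 0 (min z.1 T), z.2) with hcl
  have hclc : Continuous cl := by
    refine Continuous.prodMk ?_ continuous_snd
    exact continuous_const.max (continuous_fst.min continuous_const)
  have hcls : ∀ z, cl z ∈ slab T := fun z =>
    ⟨le_max_left _ _, max_le hT.le (min_le_right _ _)⟩
  have hcle : ∀ z ∈ slab T, cl z = z := fun z hz => by
    refine Prod.ext ?_ rfl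
    simp only [hcl]
    rw [min_eq_left hz.2, max_eq_right hz.1]
  obtain ⟨RL, Rc, Rl, -⟩ := exists_ulim (fun n z => (S n).R2 (cl z))
    (fun n => ((hgood n).R2s hK).continuous.comp hclc) _ hs3
    (fun n z => (hR n).R2 (cl z) (hcls z))
  have hrb : ∀ n x, |(S n).r x - 1| ≤ 80 * es := by
    intro n x
    refine ((hI n).r1 x).trans ?_
    have : 0 ≤ (975 / 1000 : ℝ) ^ n := by positivity
    have h2 : 80 * es * (1 - (975 / 1000 : ℝ) ^ n) ≤ 80 * es * 1 :=
      mul_le_mul_of_nonneg_left (by linarith) (by positivity)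
    linarith
  -- force
  have hfm : ∀ n i, MemLp (ff (S n) i) 2 (volume : Measure X) := fun n i =>
    memLp_cc (((hgood n).R1s.mul ((hgood n).gps i)).continuous)
      (HasCompactSupport.intro hK fun z hz => by simp [ff, (hgood n).gp_zero hz])
  have hvm : ∀ n, MemLp (nv (fun i z => ff (S (n + 1)) i z - ff (S n) i z)) 2
      (volume : Measure X) := fun n =>
    nv_memLp (fun i => (((hgood (n + 1)).R1s.mul ((hgood (n + 1)).gps i)).continuous).sub
      (((hgood n).R1s.mul ((hgood n).gps i)).continuous)) hK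
      (fun z hz i => by simp [ff, (hgood n).gp_zero hz, (hgood (n + 1)).gp_zero hz])
  have hf := fun i => exists_L2lim hK (fun n => ff (S n) i) (fun n => hfm n i)
    (fun n z hz => by simp [ff, (hgood n).gp_zero hz]) _ hs4
    (fun n => (n2_mono (hvm n) fun z =>
      abs_le_nv (fun i z => ff (S (n + 1)) i z - ff (S n) i z) i z).trans (hR n).f)
  choose fL fm fz fl using hf
  refine ⟨S, uL, xL, rL, RL, fL, ⟨hgood, uc,
    ⟨_, hz (b := fun n => d * (1 / 2 : ℝ) ^ (n + 1)), fun i n z => ub i n z⟩, xc,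
    ⟨_, hz (b := fun n => d * (1 / 2 : ℝ) ^ (n + 1)), fun i j n z => xb i j n z⟩, rc, rl, Rc, ?_, ?_, ?_, fm, fz, fl, ?_⟩, ?_⟩
  · intro z hz'
    have := Rl z
    rwa [hcle z hz'] at this
  · intro x
    exact le_of_tendsto' ((rl x).sub_const 1).abs fun n => hrb n x
  · intro z
    exact le_of_tendsto' ((Rl z).sub_const 1).abs fun n => hrb n _
  · intro i
    have h1 : Tendsto (fun n : ℕ => D₀ * (955 / 1000 : ℝ) ^ n) atTop (𝓝 0) := by
      have := (tendsto_pow_atTop_nhds_zero_of_lt_one (r := (955 / 1000 : ℝ)) (by norm_num)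
        (by norm_num)).const_mul D₀
      simpa using this
    refine squeeze_zero (fun n => n2_nonneg _) (fun n => ?_) h1
    refine le_trans ?_ (hI n).ee
    exact n2_mono (nv_memLp (fun i => ((hgood n).es hK i).continuous) hK
      fun z hz i => (hgood n).e_zero hz i) fun z => abs_le_nv _ i z
  · intro i z
    have := ub i 0 z
    rw [h0] at this
    refine this.trans ?_
    simpa using hsum

lemma BT.of_unif {A : Set X} (hA : IsCompact A) {F : ℕ → X → ℝ} {f : X → ℝ}
    (hc : ∀ n, Continuous (F n)) (hf : Continuous f) {c : ℕ → ℝ} (h0 : Tendsto c atTop (𝓝 0))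
    (h : ∀ n z, |F n z - f z| ≤ c n) : BT A F f := by
  obtain ⟨C, hC⟩ := bounded_on hA hf
  obtain ⟨C', hC'⟩ := h0.bddAbove_range
  refine ⟨hc, ⟨|C| + |C'|, by positivity, fun n z hz => ?_⟩, fun z _ => ?_⟩
  · have h1 := hC' (mem_range_self n)
    have h2 := h n z
    have h3 := hC z hz
    have h4 : |F n z| ≤ |F n z - f z| + |f z| := by
      have := abs_add_le (F n z - f z) (f z)
      simpa using this
    linarith [le_abs_self C, le_abs_self C']
  · rw [tendsto_iff_dist_tendsto_zero]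
    refine squeeze_zero (fun n => dist_nonneg) (fun n => ?_) h0
    rw [Real.dist_eq]
    exact h n z

end

end Pool.Agent.H729R2
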