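import Pool.Agent.H729R2.Osc

open scoped ContDiff
open Set

namespace Pool.Agent.H729R2

noncomputable section

variable {K : Set X} {a b : ℤ} {F G : ℕ → X → ℝ}

lemma Osc.congr' (hF : Osc K a F) (hs : ∀ N, ContDiff ℝ ∞ (G N))
    (h : ∀ N : ℕ, 1 ≤ N → ∀ z, G N z = F N z) : Osc K a G := by
  refine ⟨hs, fun l => ?_⟩
  obtain ⟨C, hC⟩ := hF.bound l
  refine ⟨C, fun N hN z hz => ?_⟩
  have : G N = F N := by ext z; exact h N hN z
  rw [this]
  exact hC N hN z hz

lemma D_comm {F : X → ℝ} (hF : ContDiff ℝ ∞ F) (v w : X) : D v (D w F) = D w (D v F) := by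
  ext z
  have h1 : IsSymmSndFDerivAt ℝ F z :=
    (hF.contDiffAt).isSymmSndFDerivAt (by simp; exact WithTop.coe_le_coe.2 le_top)
  have hd : DifferentiableAt ℝ (fderiv ℝ F) z :=
    (hF.fderiv_right (m := ∞) (by simp)).differentiable (by simp) z
  have h2 : ∀ v w : X, D v (D w F) z = fderiv ℝ (fderiv ℝ F) z v w := by
    intro v w
    unfold D
    have : (fun z => fderiv ℝ F z w) = fun z => (ContinuousLinearMap.apply ℝ ℝ w) (fderiv ℝ F z) := by
      ext z; simp
    rw [this]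
    rw [show fderiv ℝ (fun z => (ContinuousLinearMap.apply ℝ ℝ w) (fderiv ℝ F z)) z =
      (ContinuousLinearMap.apply ℝ ℝ w).comp (fderiv ℝ (fderiv ℝ F) z) from
      ((ContinuousLinearMap.apply ℝ ℝ w).hasFDerivAt.comp z hd.hasFDerivAt).fderiv]
    simp
  rw [h2, h2]
  exact h1.eq v w

lemma tsupport_D_subset (v : X) (F : X → ℝ) : tsupport (D v F) ⊆ tsupport F := by
  have h1 : D v F = fun z => (ContinuousLinearMap.apply ℝ ℝ v) (fderiv ℝ F z) := by
    ext z; simp [D]
  have h2 : Function.support (D v F) ⊆ Function.support (fderiv ℝ F) := by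
    intro z hz
    simp only [Function.mem_support, D] at hz ⊢
    intro h
    apply hz
    rw [h]; simp
  exact (closure_mono h2).trans (tsupport_fderiv_subset ℝ)

lemma D_eq_zero_of_notMem {F : X → ℝ} {z : X} (v : X) (h : z ∉ tsupport F) : D v F z = 0 :=
  image_eq_zero_of_notMem_tsupport (fun h' => h (tsupport_D_subset v F h'))

lemma D_congr_nhds {F G : X → ℝ} {z : X} (v : X) (h : F =ᶠ[nhds z] G) : D v F z = D v G z := by
  unfold D
  rw [h.fderiv_eq]

lemma contDiff_div_of_tsupport {A S : X → ℝ} (hA : ContDiff ℝ ∞ A) (hS : ContDiff ℝ ∞ S)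
    (h : ∀ z ∈ tsupport A, S z ≠ 0) : ContDiff ℝ ∞ (fun z => A z / S z) := by
  rw [contDiff_iff_contDiffAt]
  intro z
  by_cases hz : z ∈ tsupport A
  · exact hA.contDiffAt.div hS.contDiffAt (h z hz)
  · have h1 : (fun z => A z / S z) =ᶠ[nhds z] fun _ => 0 := by
      have h2 : ∀ᶠ y in nhds z, y ∉ tsupport A :=
        (isClosed_tsupport A).isOpen_compl.mem_nhds hz
      filter_upwards [h2] with y hy
      rw [image_eq_zero_of_notMem_tsupport hy, zero_div]
    exact contDiffAt_const.congr_of_eventuallyEq h1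

lemma zpow_mul_nat {N : ℕ} (hN : 1 ≤ N) (a : ℤ) : (N:ℝ) ^ a * N = (N:ℝ) ^ (a + 1) := by
  have : (N:ℝ) ≠ 0 := by
    have : (1:ℝ) ≤ N := by exact_mod_cast hN
    linarith
  rw [zpow_add₀ this, zpow_one]

lemma D_sum {ι : Type} (s : Finset ι) {F : ι → X → ℝ} (h : ∀ i ∈ s, ContDiff ℝ ∞ (F i)) (v : X) :
    D v (fun z => ∑ i ∈ s, F i z) = fun z => ∑ i ∈ s, D v (F i) z := by
  ext z
  unfold D
  rw [fderiv_fun_sum (fun i hi => smooth_diff (h i hi) z)]
  simp

/-- leading order of the derivative of `N^a f sin(NΦ)` -/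
lemma osc_D_sin (hK : IsCompact K) {Φ f : X → ℝ} (hΦ : ContDiff ℝ ∞ Φ) (hf : ContDiff ℝ ∞ f)
    (a : ℤ) (v : X) :
    Osc K a (fun N z => D v (fun z => (N:ℝ) ^ a * (f z * Real.sin (N * Φ z))) z
      - (N:ℝ) ^ (a + 1) * ((f z * D v Φ z) * Real.cos (N * Φ z))) := by
  have hsin : ∀ N : ℕ, ContDiff ℝ ∞ (fun z => Real.sin (N * Φ z)) := fun N =>
      Real.contDiff_sin.comp (contDiff_const.mul hΦ)
  have hcos : ∀ N : ℕ, ContDiff ℝ ∞ (fun z => Real.cos (N * Φ z)) := fun N =>
      Real.contDiff_cos.comp (contDiff_const.mul hΦ)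
  have h1 : Osc K a (fun N z => (N:ℝ) ^ a * (D v f z * Real.sin (N * Φ z))) := by
    have := (Osc.zpow K a).mul ((Osc.const hK (D_smooth hf v)).mul (Osc.sin hK hΦ))
    simpa using this
  refine h1.congr' (fun N => ?_) fun N hN z => ?_
  · exact (D_smooth (contDiff_const.mul (hf.mul (hsin N))) v).sub
      (contDiff_const.mul ((hf.mul (D_smooth hΦ v)).mul (hcos N)))
  · rw [D_const_mul (hf.mul (hsin N)), D_mul hf (hsin N), D_sin hΦ, ← zpow_mul_nat hN]
    ring

/-- leading order of the derivative of `N^a f cos(NΦ)` -/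
lemma osc_D_cos (hK : IsCompact K) {Φ f : X → ℝ} (hΦ : ContDiff ℝ ∞ Φ) (hf : ContDiff ℝ ∞ f)
    (a : ℤ) (v : X) :
    Osc K a (fun N z => D v (fun z => (N:ℝ) ^ a * (f z * Real.cos (N * Φ z))) z
      + (N:ℝ) ^ (a + 1) * ((f z * D v Φ z) * Real.sin (N * Φ z))) := by
  have hsin : ∀ N : ℕ, ContDiff ℝ ∞ (fun z => Real.sin (N * Φ z)) := fun N =>
      Real.contDiff_sin.comp (contDiff_const.mul hΦ)
  have hcos : ∀ N : ℕ, ContDiff ℝ ∞ (fun z => Real.cos (N * Φ z)) := fun N =>
      Real.contDiff_cos.comp (contDiff_const.mul hΦ)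
  have h1 : Osc K a (fun N z => (N:ℝ) ^ a * (D v f z * Real.cos (N * Φ z))) := by
    have := (Osc.zpow K a).mul ((Osc.const hK (D_smooth hf v)).mul (Osc.cos hK hΦ))
    simpa using this
  refine h1.congr' (fun N => ?_) fun N hN z => ?_
  · exact (D_smooth (contDiff_const.mul (hf.mul (hcos N))) v).add
      (contDiff_const.mul ((hf.mul (D_smooth hΦ v)).mul (hsin N)))
  · rw [D_const_mul (hf.mul (hcos N)), D_mul hf (hcos N), D_cos hΦ, ← zpow_mul_nat hN]
    ring

/-- second derivative -/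
lemma osc_DD_cos (hK : IsCompact K) {Φ f : X → ℝ} (hΦ : ContDiff ℝ ∞ Φ) (hf : ContDiff ℝ ∞ f)
    (v : X) :
    Osc K (-1) (fun N z => D v (D v (fun z => (N:ℝ) ^ (-2:ℤ) * (f z * Real.cos (N * Φ z)))) z
      + (f z * (D v Φ z) ^ 2) * Real.cos (N * Φ z)) := by
  have hsin : ∀ N : ℕ, ContDiff ℝ ∞ (fun z => Real.sin (N * Φ z)) := fun N =>
      Real.contDiff_sin.comp (contDiff_const.mul hΦ)
  have hcos : ∀ N : ℕ, ContDiff ℝ ∞ (fun z => Real.cos (N * Φ z)) := fun N =>
      Real.contDiff_cos.comp (contDiff_const.mul hΦ)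
  have hg := hf.mul (D_smooth hΦ v)
  have h1 := (osc_D_cos hK hΦ hf (-2) v).deriv v
  have h2 := osc_D_sin hK hΦ hg (-1) v
  have e0 : (-2:ℤ) + 1 = -1 := by norm_num
  have e0' : (-1:ℤ) + 1 = 0 := by norm_num
  rw [e0] at h1
  rw [e0'] at h2
  refine (h1.sub h2).congr' (fun N => ?_) fun N hN z => ?_
  · exact (D_smooth (D_smooth (contDiff_const.mul (hf.mul (hcos N))) v) v).add
      ((hf.mul ((D_smooth hΦ v).pow 2)).mul (hcos N))
  · have e1 := D_add (D_smooth (contDiff_const.mul (hf.mul (hcos N))) v (F := fun z =>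
      (N:ℝ) ^ (-2:ℤ) * (f z * Real.cos (N * Φ z))))
      (contDiff_const.mul (hg.mul (hsin N)) (f := fun _ => ((N:ℝ) ^ (-1:ℤ)))) v
    have e2 := congrFun e1 z
    rw [e2]
    simp only [zpow_zero]
    ring

/-- The basic building block: a small divergence free field and a small pressure which absorb the
high frequency force `A cos(NΦ)` through the viscosity. -/
theorem micro (hK : IsCompact K) {A : Fin 3 → X → ℝ} {Φ : X → ℝ}
    (hA : ∀ i, ContDiff ℝ ∞ (A i)) (hΦ : ContDiff ℝ ∞ Φ) (hAK : ∀ i, tsupport (A i) ⊆ K)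
    (hnd : ∀ i, ∀ z ∈ tsupport (A i), ∑ j, (D (ev j) Φ z) ^ 2 ≠ 0) :
    ∃ (w : ℕ → Fin 3 → X → ℝ) (π : ℕ → X → ℝ),
      (∀ i, Osc K (-2) (fun N => w N i)) ∧ Osc K (-1) π ∧
      (∀ N i, tsupport (w N i) ⊆ K) ∧ (∀ N, tsupport (π N) ⊆ K) ∧
      (∀ N z, ∑ i, D (ev i) (w N i) z = 0) ∧
      (∀ i, Osc K (-1) (fun N z => - (∑ j, D (ev j) (D (ev j) (w N i)) z) + D (ev i) (π N) z
        - A i z * Real.cos (N * Φ z))) := by
  have hsin : ∀ N : ℕ, ContDiff ℝ ∞ (fun z => Real.sin (N * Φ z)) := fun N =>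
      Real.contDiff_sin.comp (contDiff_const.mul hΦ)
  have hcos : ∀ N : ℕ, ContDiff ℝ ∞ (fun z => Real.cos (N * Φ z)) := fun N =>
      Real.contDiff_cos.comp (contDiff_const.mul hΦ)
  set S : X → ℝ := fun z => ∑ j, (D (ev j) Φ z) ^ 2 with hS
  have hSs : ContDiff ℝ ∞ S := ContDiff.sum fun j _ => (D_smooth hΦ (ev j)).pow 2
  -- A / S^2 and A / S
  set B : Fin 3 → X → ℝ := fun i z => A i z / (S z) ^ 2 with hB
  set B1 : Fin 3 → X → ℝ := fun i z => A i z / S z with hB1
  have hBs : ∀ i, ContDiff ℝ ∞ (B i) := fun i =>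
    contDiff_div_of_tsupport (hA i) (hSs.pow 2) fun z hz => pow_ne_zero 2 (hnd i z hz)
  have hB1s : ∀ i, ContDiff ℝ ∞ (B1 i) := fun i =>
    contDiff_div_of_tsupport (hA i) hSs fun z hz => (hnd i z hz)
  have hz0 : ∀ i z, S z = 0 → A i z = 0 := by
    intro i z hz
    by_contra hne
    exact hnd i z (subset_tsupport _ hne) hz
  set C : Fin 3 → Fin 3 → X → ℝ := fun i j z => D (ev j) Φ z * B i z - D (ev i) Φ z * B j z with hC
  have hCs : ∀ i j, ContDiff ℝ ∞ (C i j) := fun i j =>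
    ((D_smooth hΦ (ev j)).mul (hBs i)).sub ((D_smooth hΦ (ev i)).mul (hBs j))
  set P : X → ℝ := fun z => ∑ j, B1 j z * D (ev j) Φ z with hP
  have hPs : ContDiff ℝ ∞ P := ContDiff.sum fun j _ => (hB1s j).mul (D_smooth hΦ (ev j))
  set Ψ : ℕ → Fin 3 → Fin 3 → X → ℝ := fun N i j z =>
    (N:ℝ) ^ (-3:ℤ) * (C i j z * Real.sin (N * Φ z)) with hΨ
  have hΨs : ∀ N i j, ContDiff ℝ ∞ (Ψ N i j) := fun N i j =>
    contDiff_const.mul ((hCs i j).mul (hsin N))
  set g : Fin 3 → X → ℝ := fun i z => ∑ j, C i j z * D (ev j) Φ z with hg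
  have hgs : ∀ i, ContDiff ℝ ∞ (g i) := fun i =>
    ContDiff.sum fun j _ => (hCs i j).mul (D_smooth hΦ (ev j))
  have hKc : IsClosed K := hK.isClosed
  have hsub : ∀ (f : X → ℝ), (∀ z, f z ≠ 0 → ∃ i, A i z ≠ 0) → tsupport f ⊆ K := by
    intro f hf
    refine closure_minimal (fun z hz => ?_) hKc
    obtain ⟨i, hi⟩ := hf z hz
    exact hAK i (subset_tsupport _ hi)
  have hsuppC : ∀ i j z, C i j z ≠ 0 → ∃ i, A i z ≠ 0 := by
    intro i j z h
    by_contra hcon
    push Not at hcon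
    apply h
    simp only [hC, hB, hcon, zero_div, mul_zero, sub_zero]
  have hsuppΨ : ∀ N i j, tsupport (Ψ N i j) ⊆ K := by
    intro N i j
    refine hsub _ fun z h => ?_
    refine hsuppC i j z fun h0 => h ?_
    simp only [hΨ, h0, zero_mul, mul_zero]
  have hws : ∀ N i, ContDiff ℝ ∞ (fun z => ∑ j, D (ev j) (Ψ N i j) z) := fun N i =>
    ContDiff.sum fun j _ => D_smooth (hΨs N i j) (ev j)
  -- leading order of w
  have hw1 : ∀ i, Osc K (-3) (fun N z => ∑ j, D (ev j) (Ψ N i j) z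
      - (N:ℝ) ^ (-2:ℤ) * (g i z * Real.cos (N * Φ z))) := by
    intro i
    have h1 := Osc.sum (Finset.univ : Finset (Fin 3)) (a := -3) (K := K)
      (F := fun j N z => D (ev j) (Ψ N i j) z - (N:ℝ) ^ (-3 + 1 : ℤ) *
        ((C i j z * D (ev j) Φ z) * Real.cos (N * Φ z)))
      (fun j _ => osc_D_sin hK hΦ (hCs i j) (-3) (ev j))
    refine h1.congr fun N z => ?_
    rw [Finset.sum_sub_distrib]
    congr 1
    simp only [hg]
    rw [← Finset.mul_sum, ← Finset.sum_mul]
    norm_num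
  have hw2 : ∀ i, Osc K (-2) (fun N z => (N:ℝ) ^ (-2:ℤ) * (g i z * Real.cos (N * Φ z))) := by
    intro i
    have := (Osc.zpow K (-2)).mul ((Osc.const hK (hgs i)).mul (Osc.cos hK hΦ))
    simpa using this
  have hw : ∀ i, Osc K (-2) (fun N z => ∑ j, D (ev j) (Ψ N i j) z) := by
    intro i
    exact (((hw1 i).mono (by norm_num)).add (hw2 i)).congr fun N z => by ring
  have hwK : ∀ N i, tsupport (fun z => ∑ j, D (ev j) (Ψ N i j) z) ⊆ K := by
    intro N i
    refine closure_minimal (fun z hz => ?_) hKc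
    by_contra hzK
    apply hz
    refine Finset.sum_eq_zero fun j _ => ?_
    exact D_eq_zero_of_notMem (ev j) fun h => hzK (hsuppΨ N i j h)
  refine ⟨fun N i z => ∑ j, D (ev j) (Ψ N i j) z,
    fun N z => (N:ℝ) ^ (-1:ℤ) * (P z * Real.sin (N * Φ z)), hw, ?_, hwK, ?_, ?_, ?_⟩
  · have := (Osc.zpow K (-1)).mul ((Osc.const hK hPs).mul (Osc.sin hK hΦ))
    simpa using this
  · intro N
    refine hsub _ fun z h => ?_
    by_contra hcon
    push Not at hcon
    apply h
    simp only [hP, hB1, hcon, zero_div, zero_mul, Finset.sum_const_zero, mul_zero]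
  · -- divergence free
    intro N z
    have h1 : ∀ i, D (ev i) (fun z => ∑ j, D (ev j) (Ψ N i j) z) z
        = ∑ j, D (ev i) (D (ev j) (Ψ N i j)) z := by
      intro i
      rw [D_sum _ (fun j _ => D_smooth (hΨs N i j) (ev j))]
    simp only [h1]
    have hanti : ∀ i j, Ψ N i j = fun z => - Ψ N j i z := by
      intro i j
      ext z
      simp only [hΨ, hC]
      ring
    have h2 : ∀ i j, D (ev i) (D (ev j) (Ψ N i j)) z = - D (ev j) (D (ev i) (Ψ N j i)) z := by
      intro i j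
      rw [D_comm (hΨs N i j), hanti i j, D_neg, D_neg]
    have h3 : ∑ i, ∑ j, D (ev i) (D (ev j) (Ψ N i j)) z
        = - ∑ i, ∑ j, D (ev i) (D (ev j) (Ψ N i j)) z := by
      conv_lhs => rw [Finset.sum_comm]
      rw [← Finset.sum_neg_distrib]
      refine Finset.sum_congr rfl fun i _ => ?_
      rw [← Finset.sum_neg_distrib]
      refine Finset.sum_congr rfl fun j _ => ?_
      exact h2 j i
    linarith
  · intro i
    -- second derivatives of w
    have h1 : ∀ j, Osc K (-1) (fun N z => D (ev j) (D (ev j) (fun z => ∑ j, D (ev j) (Ψ N i j) z)) z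
        + (g i z * (D (ev j) Φ z) ^ 2) * Real.cos (N * Φ z)) := by
      intro j
      have h2 := (((hw1 i).deriv (ev j)).deriv (ev j)).mono (b := -1) (by norm_num)
      refine (h2.add (osc_DD_cos hK hΦ (hgs i) (ev j))).congr fun N z => ?_
      have hc : ContDiff ℝ ∞ (fun z => (N:ℝ) ^ (-2:ℤ) * (g i z * Real.cos (N * Φ z))) :=
        contDiff_const.mul ((hgs i).mul (hcos N))
      rw [D_sub (hws N i) hc, D_sub (D_smooth (hws N i) (ev j)) (D_smooth hc (ev j))]
      ring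
    have h3 := Osc.sum (Finset.univ : Finset (Fin 3)) (a := -1) (K := K) (fun j _ => h1 j)
    have h4 := osc_D_sin hK hΦ hPs (-1) (ev i)
    refine (h4.sub h3).congr' (fun N => ?_) fun N hN z => ?_
    · refine ((ContDiff.neg (ContDiff.sum fun j _ => D_smooth (D_smooth (hws N i) (ev j))
        (ev j))).add (D_smooth (contDiff_const.mul (hPs.mul (hsin N))) (ev i))).sub
        ((hA i).mul (hcos N))
    · rw [Finset.sum_add_distrib]
      have h5 : ∑ j, g i z * (D (ev j) Φ z) ^ 2 * Real.cos (N * Φ z)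
          = (A i z - P z * D (ev i) Φ z) * Real.cos (N * Φ z) := by
        rw [← Finset.sum_mul, ← Finset.mul_sum]
        congr 1
        have h6 : ∑ j, (D (ev j) Φ z) ^ 2 = S z := rfl
        rw [h6]
        by_cases hz : S z = 0
        · rw [hz, hz0 i z hz]
          have : P z = 0 := by
            simp only [hP, hB1, hz0 _ z hz, zero_div, zero_mul, Finset.sum_const_zero]
          rw [this]; ring
        · have h7 : g i z = (A i z * S z - D (ev i) Φ z * (P z * S z)) / (S z) ^ 2 := by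
            simp only [hg, hC, hP, hB, hB1]
            have e1 : ∀ j, (D (ev j) Φ z * (A i z / S z ^ 2) - D (ev i) Φ z * (A j z / S z ^ 2))
              * D (ev j) Φ z = (A i z * (D (ev j) Φ z) ^ 2 - D (ev i) Φ z *
                (A j z * D (ev j) Φ z)) / S z ^ 2 := fun j => by ring
            simp only [e1]
            rw [← Finset.sum_div, Finset.sum_sub_distrib, ← Finset.mul_sum, ← Finset.mul_sum, h6]
            have e2 : (∑ j, A j z / S z * D (ev j) Φ z) * S z = ∑ j, A j z * D (ev j) Φ z := by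
              rw [Finset.sum_mul]
              refine Finset.sum_congr rfl fun j _ => ?_
              field_simp
            rw [e2]
          rw [h7]
          field_simp
      rw [h5]
      norm_num
      ring

end

end Pool.Agent.H729R2
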