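import Pool.Agent.H729R2.State

open scoped ContDiff
open Set

namespace Pool.Agent.H729R2

noncomputable section

lemma zpow_neg_two_le {N : ℕ} (hN : 1 ≤ N) : (N:ℝ) ^ (-2:ℤ) = 1 / (N:ℝ) ^ 2 := by
  rw [zpow_neg]
  norm_num

lemma Osc.everywhere {K : Set X} {a : ℤ} {F : ℕ → X → ℝ} (h : Osc K a F)
    (hs : ∀ N z, z ∉ K → F N z = 0) : ∃ C : ℝ, 0 ≤ C ∧ ∀ N : ℕ, 1 ≤ N → ∀ z,
    |F N z| ≤ C * (N:ℝ) ^ a := by
  obtain ⟨C, h0, hC⟩ := h.sup
  refine ⟨C, h0, fun N hN z => ?_⟩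
  by_cases hz : z ∈ K
  · exact hC N hN z hz
  · rw [hs N z hz, abs_zero]
    positivity

/-- the building block with several phases -/
theorem micro4 {K : Set X} (hK : IsCompact K) {n : ℕ} {A : Fin n → Fin 3 → X → ℝ} {Φ : Fin n → X → ℝ}
    (hA : ∀ m i, ContDiff ℝ ∞ (A m i)) (hΦ : ∀ m, ContDiff ℝ ∞ (Φ m))
    (hAK : ∀ m i, tsupport (A m i) ⊆ K)
    (hnd : ∀ m, ∀ z ∈ K, ∑ j, (D (ev j) (Φ m) z) ^ 2 ≠ 0) :
    ∃ (w : ℕ → Fin 3 → X → ℝ) (π : ℕ → X → ℝ) (C : ℝ), 0 ≤ C ∧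
      (∀ N i, ContDiff ℝ ∞ (w N i)) ∧ (∀ N, ContDiff ℝ ∞ (π N)) ∧
      (∀ N i, tsupport (w N i) ⊆ K) ∧ (∀ N, tsupport (π N) ⊆ K) ∧
      (∀ N z, ∑ i, D (ev i) (w N i) z = 0) ∧
      (∀ N : ℕ, 1 ≤ N → ∀ i z, |w N i z| ≤ C / (N:ℝ) ^ 2 ∧ |D et (w N i) z| ≤ C / N ∧
        (∀ j, |D (ev j) (w N i) z| ≤ C / N) ∧
        |- (∑ j, D (ev j) (D (ev j) (w N i)) z) + D (ev i) (π N) z
          - ∑ m, A m i z * Real.cos (N * Φ m z)| ≤ C / N) := by
  have h := fun m => micro hK (hA m) (hΦ m) (hAK m) (fun i z hz => hnd m z (hAK m i hz))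
  choose w π hw hπ hwK hπK hdiv hap using h
  have hws : ∀ N i, ContDiff ℝ ∞ (fun z => ∑ m, w m N i z) := fun N i =>
    ContDiff.sum fun m _ => (hw m i).smooth N
  have hπs : ∀ N, ContDiff ℝ ∞ (fun z => ∑ m, π m N z) := fun N =>
    ContDiff.sum fun m _ => (hπ m).smooth N
  have hKc : IsClosed K := hK.isClosed
  have hwK' : ∀ N i, tsupport (fun z => ∑ m, w m N i z) ⊆ K := by
    intro N i
    refine closure_minimal (fun z hz => ?_) hKc
    by_contra hzK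
    refine hz (Finset.sum_eq_zero fun m _ => ?_)
    exact image_eq_zero_of_notMem_tsupport fun h => hzK (hwK m N i h)
  have hπK' : ∀ N, tsupport (fun z => ∑ m, π m N z) ⊆ K := by
    intro N
    refine closure_minimal (fun z hz => ?_) hKc
    by_contra hzK
    refine hz (Finset.sum_eq_zero fun m _ => ?_)
    exact image_eq_zero_of_notMem_tsupport fun h => hzK (hπK m N h)
  have hW : ∀ i, Osc K (-2) (fun N z => ∑ m, w m N i z) := fun i =>
    Osc.sum Finset.univ fun m _ => hw m i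
  have hP : Osc K (-1) (fun N z => ∑ m, π m N z) := Osc.sum Finset.univ fun m _ => hπ m
  have hE : ∀ i, Osc K (-1) (fun N z => - (∑ j, D (ev j) (D (ev j) (fun z => ∑ m, w m N i z)) z)
      + D (ev i) (fun z => ∑ m, π m N z) z - ∑ m, A m i z * Real.cos (N * Φ m z)) := by
    intro i
    refine (Osc.sum (Finset.univ : Finset (Fin n)) (fun m _ => hap m i)).congr fun N z => ?_
    rw [D_sum _ (fun m _ => (hπ m).smooth N)]
    have e1 : ∀ j, D (ev j) (D (ev j) (fun z => ∑ m, w m N i z)) z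
        = ∑ m, D (ev j) (D (ev j) (w m N i)) z := by
      intro j
      rw [D_sum _ (fun m _ => (hw m i).smooth N),
        D_sum _ (fun m _ => D_smooth ((hw m i).smooth N) (ev j))]
    rw [Finset.sum_congr rfl fun j _ => e1 j, Finset.sum_comm, ← Finset.sum_neg_distrib,
      ← Finset.sum_add_distrib, ← Finset.sum_sub_distrib]
  -- constants
  have c1 : ∀ i, ∃ C : ℝ, 0 ≤ C ∧ ∀ N : ℕ, 1 ≤ N → ∀ z,
      |∑ m, w m N i z| ≤ C * (N:ℝ) ^ (-2:ℤ) := fun i =>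
    (hW i).everywhere fun N z hz => image_eq_zero_of_notMem_tsupport
      (f := fun z => ∑ m, w m N i z) fun h => hz (hwK' N i h)
  have c2 : ∀ i, ∃ C : ℝ, 0 ≤ C ∧ ∀ N : ℕ, 1 ≤ N → ∀ z,
      |D et (fun z => ∑ m, w m N i z) z| ≤ C * (N:ℝ) ^ (-2 + 1 : ℤ) := fun i =>
    ((hW i).deriv et).everywhere fun N z hz => D_eq_zero_of_notMem _ fun h => hz (hwK' N i h)
  have c3 : ∀ i j, ∃ C : ℝ, 0 ≤ C ∧ ∀ N : ℕ, 1 ≤ N → ∀ z,
      |D (ev j) (fun z => ∑ m, w m N i z) z| ≤ C * (N:ℝ) ^ (-2 + 1 : ℤ) := fun i j =>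
    ((hW i).deriv (ev j)).everywhere fun N z hz => D_eq_zero_of_notMem _ fun h => hz (hwK' N i h)
  have c4 : ∀ i, ∃ C : ℝ, 0 ≤ C ∧ ∀ N : ℕ, 1 ≤ N → ∀ z,
      |- (∑ j, D (ev j) (D (ev j) (fun z => ∑ m, w m N i z)) z)
      + D (ev i) (fun z => ∑ m, π m N z) z - ∑ m, A m i z * Real.cos (N * Φ m z)|
      ≤ C * (N:ℝ) ^ (-1:ℤ) := fun i =>
    (hE i).everywhere fun N z hz => by
      rw [D_eq_zero_of_notMem _ fun h => hz (hπK' N h)]
      have e1 : ∀ j, D (ev j) (D (ev j) (fun z => ∑ m, w m N i z)) z = 0 := fun j =>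
        D_eq_zero_of_notMem _ fun h' => hz (hwK' N i (tsupport_D_subset _ _ h'))
      have e2 : ∀ m, A m i z = 0 := fun m =>
        image_eq_zero_of_notMem_tsupport fun h => hz (hAK m i h)
      simp [e1, e2]
  choose C1 C1p hC1 using c1
  choose C2 C2p hC2 using c2
  choose C3 C3p hC3 using c3
  choose C4 C4p hC4 using c4
  set C : ℝ := ∑ i, C1 i + ∑ i, C2 i + ∑ i, ∑ j, C3 i j + ∑ i, C4 i with hC
  have s1 : ∀ i, C1 i ≤ ∑ i, C1 i := fun i =>
    Finset.single_le_sum (fun i _ => C1p i) (Finset.mem_univ i)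
  have s2 : ∀ i, C2 i ≤ ∑ i, C2 i := fun i =>
    Finset.single_le_sum (fun i _ => C2p i) (Finset.mem_univ i)
  have s4 : ∀ i, C4 i ≤ ∑ i, C4 i := fun i =>
    Finset.single_le_sum (fun i _ => C4p i) (Finset.mem_univ i)
  have s3 : ∀ i j, C3 i j ≤ ∑ i, ∑ j, C3 i j := fun i j =>
    (Finset.single_le_sum (fun j _ => C3p i j) (Finset.mem_univ j)).trans
      (Finset.single_le_sum (f := fun i => ∑ j, C3 i j)
        (fun i _ => Finset.sum_nonneg fun j _ => C3p i j) (Finset.mem_univ i))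
  have p1 : 0 ≤ ∑ i, C1 i := Finset.sum_nonneg fun i _ => C1p i
  have p2 : 0 ≤ ∑ i, C2 i := Finset.sum_nonneg fun i _ => C2p i
  have p4 : 0 ≤ ∑ i, C4 i := Finset.sum_nonneg fun i _ => C4p i
  have p3 : 0 ≤ ∑ i, ∑ j, C3 i j := Finset.sum_nonneg fun i _ => Finset.sum_nonneg fun j _ => C3p i j
  refine ⟨fun N i z => ∑ m, w m N i z, fun N z => ∑ m, π m N z, C, by positivity, hws, hπs, hwK',
    hπK', ?_, ?_⟩
  · intro N z
    have e1 : ∀ i, D (ev i) (fun z => ∑ m, w m N i z) z = ∑ m, D (ev i) (w m N i) z := by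
      intro i
      rw [D_sum _ (fun m _ => (hw m i).smooth N)]
    rw [Finset.sum_congr rfl fun i _ => e1 i, Finset.sum_comm]
    exact Finset.sum_eq_zero fun m _ => hdiv m N z
  · intro N hN i z
    have hN' : (0:ℝ) < N := by exact_mod_cast hN
    have hz1 : (N:ℝ) ^ (-2 + 1 : ℤ) = 1 / N := by
      norm_num
    have hz2 : (N:ℝ) ^ (-1 : ℤ) = 1 / N := by
      norm_num
    have hz3 := zpow_neg_two_le hN
    refine ⟨?_, ?_, ?_, ?_⟩
    · refine (hC1 i N hN z).trans ?_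
      rw [hz3, mul_one_div]
      exact div_le_div_of_nonneg_right (by linarith [s1 i]) (by positivity)
    · refine (hC2 i N hN z).trans ?_
      rw [hz1, mul_one_div]
      exact div_le_div_of_nonneg_right (by linarith [s2 i]) (by positivity)
    · intro j
      refine (hC3 i j N hN z).trans ?_
      rw [hz1, mul_one_div]
      exact div_le_div_of_nonneg_right (by linarith [s3 i j]) (by positivity)
    · refine (hC4 i N hN z).trans ?_
      rw [hz2, mul_one_div]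
      exact div_le_div_of_nonneg_right (by linarith [s4 i]) (by positivity)

end

end Pool.Agent.H729R2
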