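import Pool.Agent.H729R2.Micro4

open scoped ContDiff
open Set MeasureTheory Filter Topology

namespace Pool.Agent.H729R2

noncomputable section

/-- the `L²` norm on space-time -/
def n2 (f : X → ℝ) : ℝ := (eLpNorm f 2 (volume : Measure X)).toReal

/-- pointwise norm of a vector field -/
def nv (F : Fin 3 → X → ℝ) : X → ℝ := fun z => ‖vec (fun i => F i z)‖

lemma n2_nonneg (f : X → ℝ) : 0 ≤ n2 f := ENNReal.toReal_nonneg

lemma n2_mono {f g : X → ℝ} (hg : MemLp g 2 (volume : Measure X)) (h : ∀ z, |f z| ≤ g z) :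
    n2 f ≤ n2 g := by
  refine ENNReal.toReal_mono hg.2.ne ?_
  refine eLpNorm_mono fun z => ?_
  rw [Real.norm_eq_abs, Real.norm_eq_abs]
  exact (h z).trans (le_abs_self _)

lemma n2_add_le {f g : X → ℝ} (hf : MemLp f 2 (volume : Measure X))
    (hg : MemLp g 2 (volume : Measure X)) : n2 (fun z => f z + g z) ≤ n2 f + n2 g := by
  unfold n2
  rw [← ENNReal.toReal_add hf.2.ne hg.2.ne]
  refine ENNReal.toReal_mono (ENNReal.add_ne_top.2 ⟨hf.2.ne, hg.2.ne⟩) ?_
  exact eLpNorm_add_le hf.1 hg.1 (by norm_num)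

lemma n2_const_mul (c : ℝ) (f : X → ℝ) : n2 (fun z => c * f z) = |c| * n2 f := by
  unfold n2
  have : (fun z => c * f z) = c • f := rfl
  rw [this, eLpNorm_const_smul, ENNReal.toReal_mul]
  simp

lemma n2_sq {f : X → ℝ} (hf : MemLp f 2 (volume : Measure X)) : n2 f ^ 2 = ∫ z, f z ^ 2 := by
  unfold n2
  rw [hf.eLpNorm_eq_integral_rpow_norm (by norm_num) (by norm_num)]
  have h0 : 0 ≤ ∫ z, ‖f z‖ ^ (2:ENNReal).toReal :=
    integral_nonneg fun z => by positivity
  rw [ENNReal.toReal_ofReal (by positivity)]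
  rw [← Real.rpow_natCast, ← Real.rpow_mul h0]
  norm_num

lemma n2_lin {ι : Type} (s : Finset ι) {c : ι → ℝ} (hc : ∀ i ∈ s, 0 ≤ c i) {g : ι → X → ℝ}
    (hg : ∀ i ∈ s, MemLp (g i) 2 (volume : Measure X)) :
    MemLp (fun z => ∑ i ∈ s, c i * g i z) 2 (volume : Measure X) ∧
    n2 (fun z => ∑ i ∈ s, c i * g i z) ≤ ∑ i ∈ s, c i * n2 (g i) := by
  classical
  induction s using Finset.induction_on with
  | empty =>
    simp only [Finset.sum_empty]
    refine ⟨MemLp.zero', ?_⟩
    unfold n2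
    simp
  | insert i s hi ih =>
    simp only [Finset.sum_insert hi]
    obtain ⟨h1, h2⟩ := ih (fun j hj => hc j (Finset.mem_insert_of_mem hj))
      (fun j hj => hg j (Finset.mem_insert_of_mem hj))
    have h3 : MemLp (fun z => c i * g i z) 2 (volume : Measure X) :=
      (hg i (Finset.mem_insert_self i s)).const_mul _
    refine ⟨h3.add h1, (n2_add_le h3 h1).trans ?_⟩
    rw [n2_const_mul, abs_of_nonneg (hc i (Finset.mem_insert_self i s))]
    linarith

lemma n2_le_lin {n : ℕ} {c : Fin n → ℝ} (hc : ∀ i, 0 ≤ c i) {g : Fin n → X → ℝ}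
    (hg : ∀ i, MemLp (g i) 2 (volume : Measure X)) {f : X → ℝ}
    (h : ∀ z, |f z| ≤ ∑ i, c i * g i z) : n2 f ≤ ∑ i, c i * n2 (g i) := by
  obtain ⟨h1, h2⟩ := n2_lin (Finset.univ : Finset (Fin n)) (fun i _ => hc i) (fun i _ => hg i)
  exact (n2_mono h1 h).trans h2

lemma memLp_cc {f : X → ℝ} (hf : Continuous f) (hc : HasCompactSupport f) :
    MemLp f 2 (volume : Measure X) := hf.memLp_of_hasCompactSupport hc

lemma nv_nonneg (F : Fin 3 → X → ℝ) (z : X) : 0 ≤ nv F z := norm_nonneg _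

lemma nv_sq (F : Fin 3 → X → ℝ) (z : X) : nv F z ^ 2 = ∑ i, F i z ^ 2 := by
  unfold nv
  rw [EuclideanSpace.norm_sq_eq]
  simp

lemma nv_continuous {F : Fin 3 → X → ℝ} (hF : ∀ i, Continuous (F i)) : Continuous (nv F) := by
  have : Continuous fun z => vec (fun i => F i z) := by
    have h := contDiff_vec (n := 0) (f := fun i => F i) (fun i => contDiff_zero.2 (hF i))
    exact h.continuous
  exact this.norm

lemma nv_zero {F : Fin 3 → X → ℝ} {z : X} (h : ∀ i, F i z = 0) : nv F z = 0 := by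
  have : (fun i => F i z) = fun _ => 0 := by ext i; exact h i
  unfold nv
  rw [this, vec_zero, norm_zero]

lemma abs_le_nv (F : Fin 3 → X → ℝ) (i : Fin 3) (z : X) : |F i z| ≤ nv F z := by
  have := PiLp.norm_apply_le (vec fun i => F i z) i
  simpa [nv] using this

lemma nv_memLp {F : Fin 3 → X → ℝ} (hF : ∀ i, Continuous (F i)) {K : Set X} (hK : IsCompact K)
    (h : ∀ z, z ∉ K → ∀ i, F i z = 0) : MemLp (nv F) 2 (volume : Measure X) :=
  memLp_cc (nv_continuous hF) (HasCompactSupport.intro hK fun z hz => nv_zero (h z hz))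

lemma memLp_ind {K : Set X} (hK : IsCompact K) :
    MemLp (K.indicator fun _ => (1:ℝ)) 2 (volume : Measure X) :=
  memLp_indicator_const 2 hK.measurableSet 1 (Or.inr hK.measure_lt_top.ne)

/-- the square root of the volume -/
def vK (K : Set X) : ℝ := n2 (K.indicator fun _ => (1:ℝ))

lemma vK_nonneg (K : Set X) : 0 ≤ vK K := n2_nonneg _

end

end Pool.Agent.H729R2
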