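import Pool.Agent.H729R2.Lab

open scoped ContDiff Manifold
open Set MeasureTheory Filter Topology

namespace Pool.Agent.H729R2

noncomputable section

instance : Measure.IsAddHaarMeasure (volume : Measure X) :=
  inferInstanceAs (Measure.IsAddHaarMeasure ((volume : Measure ℝ).prod (volume : Measure E3)))

/-- almost everywhere on the zero set of a smooth function its derivative vanishes -/
lemma ae_D_zero {F : X → ℝ} (hF : ContDiff ℝ ∞ F) (v : X) :
    ∀ᵐ z : X, F z = 0 → D v F z = 0 := by
  set s : Set X := {z | F z = 0 → D v F z = 0} with hs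
  have hms : MeasurableSet s := by
    have : s = {z | F z = 0}ᶜ ∪ {z | D v F z = 0} := by
      ext z
      simp only [hs, mem_ofPred_eq, mem_union, mem_compl_iff]
      tauto
    rw [this]
    exact ((isClosed_eq hF.continuous continuous_const).measurableSet.compl).union
      (isClosed_eq (D_smooth hF v).continuous continuous_const).measurableSet
  refine ae_mem_of_ae_add_linearMap_mem (LinearMap.toSpanSingleton ℝ X v) volume volume hms
    fun y => ?_
  rw [ae_iff]
  refine measure_null_of_locally_null _ fun a ha => ?_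
  have ha' : ¬ (F (y + a • v) = 0 → D v F (y + a • v) = 0) := ha
  obtain ⟨ha1, ha2⟩ := Classical.not_imp.1 ha'
  have hd : HasDerivAt (fun a : ℝ => F (y + a • v)) (D v F (y + a • v)) a := by
    have hc : HasDerivAt (fun a : ℝ => y + a • v) v a := by
      have := ((hasDerivAt_id a).smul_const v).const_add y
      rw [one_smul] at this
      exact this
    exact ((smooth_diff hF) (y + a • v)).hasFDerivAt.comp_hasDerivAt a hc
  have h1 : ∀ᶠ b in 𝓝[≠] a, F (y + b • v) ≠ 0 := hd.eventually_ne ha2
  refine ⟨{a}, ?_, by simp⟩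
  rw [mem_nhdsWithin_iff_eventually]
  rw [eventually_nhdsWithin_iff] at h1
  filter_upwards [h1] with b hb hb2
  by_contra hne
  have hb' : ¬ (F (y + b • v) = 0 → D v F (y + b • v) = 0) := hb2
  exact hb hne (Classical.not_imp.1 hb').1

/-- integral of a derivative of a compactly supported function -/
lemma integral_D_eq_zero {F : X → ℝ} (hF : ContDiff ℝ ∞ F) (hc : HasCompactSupport F) (v : X) :
    ∫ z, D v F z = 0 := by
  have hDc : HasCompactSupport (D v F) := hc.mono' (subset_closure.trans (tsupport_D_subset v F))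
  have h := integral_mul_fderiv_eq_neg_fderiv_mul_of_integrable (μ := (volume : Measure X))
    (f := fun _ : X => (1:ℝ)) (g := F) (v := v) (by simp)
    (by
      have h0 : (fun z => 1 * fderiv ℝ F z v) = D v F := by ext z; simp [D]
      rw [h0]
      exact (D_smooth hF v).continuous.integrable_of_hasCompactSupport hDc)
    (by
      simp only [one_mul]
      exact hF.continuous.integrable_of_hasCompactSupport hc)
    (fun z _ => differentiableAt_const _) (fun z _ => smooth_diff hF z)
  simpa [D] using h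

/-- the Riemann-Lebesgue lemma with a nondegenerate smooth phase -/
lemma riemann_lebesgue {g θ : X → ℝ} (hg : ContDiff ℝ ∞ g) (hc : HasCompactSupport g)
    (hθ : ContDiff ℝ ∞ θ) (hnd : ∀ z ∈ tsupport g, D et θ z ≠ 0) :
    ∃ C : ℝ, ∀ N : ℕ, 1 ≤ N → |∫ z, g z * Real.cos (N * θ z)| ≤ C / N := by
  set h : X → ℝ := fun z => g z / D et θ z with hh
  have hhs : ContDiff ℝ ∞ h := contDiff_div_of_tsupport hg (D_smooth hθ et) hnd
  have hhc : HasCompactSupport h := by
    refine hc.mono fun z hz => ?_
    simp only [hh, Function.mem_support] at hz ⊢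
    intro h0
    exact hz (by rw [h0, zero_div])
  have hsin : ∀ N : ℕ, ContDiff ℝ ∞ (fun z => Real.sin (N * θ z)) := fun N =>
      Real.contDiff_sin.comp (contDiff_const.mul hθ)
  have hcos : ∀ N : ℕ, ContDiff ℝ ∞ (fun z => Real.cos (N * θ z)) := fun N =>
      Real.contDiff_cos.comp (contDiff_const.mul hθ)
  have hDc : HasCompactSupport (D et h) :=
    hhc.mono' (subset_closure.trans (tsupport_D_subset et h))
  refine ⟨∫ z, |D et h z|, fun N hN => ?_⟩
  have hN' : (0:ℝ) < N := by exact_mod_cast hN
  have h1 := integral_D_eq_zero (hhs.mul (hsin N)) hhc.mul_right et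
  rw [D_mul hhs (hsin N), D_sin hθ] at h1
  have h2 : ∀ z, D et h z * Real.sin (N * θ z) + h z * (N * D et θ z * Real.cos (N * θ z))
      = D et h z * Real.sin (N * θ z) + N * (g z * Real.cos (N * θ z)) := by
    intro z
    by_cases hz : D et θ z = 0
    · have hg0 : g z = 0 := by
        by_contra hne
        exact hnd z (subset_tsupport _ hne) hz
      simp [hh, hg0]
    · simp only [hh]
      field_simp
  simp only [h2] at h1
  have i1 : Integrable (fun z => D et h z * Real.sin (N * θ z)) :=
    ((D_smooth hhs et).mul (hsin N)).continuous.integrable_of_hasCompactSupport hDc.mul_right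
  have i2 : Integrable (fun z => g z * Real.cos (N * θ z)) :=
    (hg.mul (hcos N)).continuous.integrable_of_hasCompactSupport hc.mul_right
  rw [integral_add i1 (i2.const_mul _), integral_const_mul] at h1
  have h3 : ∫ z, g z * Real.cos (N * θ z) = - (∫ z, D et h z * Real.sin (N * θ z)) / N := by
    field_simp
    linarith
  rw [h3, abs_div, abs_neg, abs_of_pos hN']
  apply div_le_div_of_nonneg_right _ hN'.le
  refine (abs_integral_le_integral_abs).trans ?_
  refine integral_mono i1.abs
    ((D_smooth hhs et).continuous.abs.integrable_of_hasCompactSupport hDc.abs) fun z => ?_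
  simp only [abs_mul]
  have := Real.abs_sin_le_one (N * θ z)
  nlinarith [abs_nonneg (D et h z), abs_nonneg (Real.sin (N * θ z))]

/-- cutoffs -/
lemma exists_cutoff {O : Set X} (hO : IsOpen O) {G : X → ℝ} (hG : Continuous G)
    (hG0 : ∀ z, 0 ≤ G z) (hc : HasCompactSupport G) (hae : ∀ᵐ z, z ∉ O → G z = 0)
    {δ : ℝ} (hδ : 0 < δ) : ∃ ζ : X → ℝ, ContDiff ℝ ∞ ζ ∧ HasCompactSupport ζ ∧ tsupport ζ ⊆ O ∧
      (∀ z, 0 ≤ ζ z) ∧ (∀ z, ζ z ≤ 1) ∧ ∫ z, (1 - ζ z) * G z ≤ δ := by
  set μ : Measure X := volume.withDensity (fun z => ENNReal.ofReal (G z)) with hμ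
  have hGi : Integrable G := hG.integrable_of_hasCompactSupport hc
  have hfin : IsFiniteMeasure μ := by
    rw [hμ]
    exact isFiniteMeasure_withDensity_ofReal hGi.2
  obtain ⟨K, hKO, hK, hlt⟩ := hO.measurableSet.exists_isCompact_sdiff_lt (μ := μ)
    (measure_ne_top μ O) (ε := ENNReal.ofReal δ) (by simpa using hδ)
  obtain ⟨K', hK', hKK', hK'O⟩ := exists_compact_between hK hO hKO
  obtain ⟨f, hf1, hf0, hf⟩ := exists_contMDiffMap_one_nhds_of_subset_interior (n := ⊤)
    𝓘(ℝ, X) hK.isClosed hKK'
  have hfs : ContDiff ℝ ∞ (f : X → ℝ) := f.contMDiff.contDiff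
  have hsub : tsupport (f : X → ℝ) ⊆ K' := by
    refine closure_minimal (fun z hz => ?_) hK'.isClosed
    by_contra hzK
    exact hz (hf0 z hzK)
  refine ⟨f, hfs, HasCompactSupport.of_support_subset_isCompact hK' (subset_closure.trans hsub),
    hsub.trans hK'O, fun z => (hf z).1, fun z => (hf z).2, ?_⟩
  have hfK : ∀ z ∈ K, f z = 1 := fun z hz => hf1.self_of_nhdsSet z hz
  have h1 : ∫ z, (1 - f z) * G z ≤ ∫ z in Kᶜ, G z := by
    rw [← integral_indicator hK.measurableSet.compl]
    refine integral_mono_of_nonneg (Eventually.of_forall fun z => ?_)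
      (hGi.indicator hK.measurableSet.compl) (Eventually.of_forall fun z => ?_)
    · exact mul_nonneg (by linarith [(hf z).2]) (hG0 z)
    · by_cases hz : z ∈ K
      · simp [hfK z hz, hz]
      · simp only [mem_compl_iff, hz, not_false_eq_true, indicator_of_mem]
        nlinarith [(hf z).1, hG0 z]
  refine h1.trans ?_
  have h2 : ∫ z in Kᶜ, G z = (μ Kᶜ).toReal := by
    rw [hμ, withDensity_apply _ hK.measurableSet.compl,
      integral_eq_lintegral_of_nonneg_ae (Eventually.of_forall hG0) hG.aestronglyMeasurable]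
  rw [h2]
  have h3 : μ Kᶜ ≤ μ (O \ K) := by
    have h4 : μ Oᶜ = 0 := by
      rw [hμ, withDensity_apply _ hO.measurableSet.compl, lintegral_eq_zero_iff
        (by fun_prop)]
      rw [EventuallyEq, ae_restrict_iff' hO.measurableSet.compl]
      filter_upwards [hae] with z hz hz2
      simp [hz hz2]
    calc μ Kᶜ ≤ μ ((O \ K) ∪ Oᶜ) := by
          refine measure_mono fun z hz => ?_
          by_cases hzO : z ∈ O
          · exact Or.inl ⟨hzO, hz⟩
          · exact Or.inr hzO
      _ ≤ μ (O \ K) + μ Oᶜ := measure_union_le _ _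
      _ = μ (O \ K) := by rw [h4, add_zero]
  exact ENNReal.toReal_le_of_le_ofReal hδ.le (h3.trans hlt.le)

/-- linear forms vanish only on a null set -/
lemma ae_linear_ne {V : Fin 3 → ℝ} (hV : V ≠ 0) : ∀ᵐ k : Fin 3 → ℝ, ∑ i, k i * V i ≠ 0 := by
  set L : (Fin 3 → ℝ) →ₗ[ℝ] ℝ :=
    { toFun := fun k => ∑ i, k i * V i
      map_add' := fun k l => by simp [add_mul, Finset.sum_add_distrib]
      map_smul' := fun c k => by simp [Finset.mul_sum, mul_assoc] } with hL
  have h1 : LinearMap.ker L ≠ ⊤ := by
    intro h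
    apply hV
    ext i
    have : Pi.single i (1:ℝ) ∈ LinearMap.ker L := by rw [h]; trivial
    rw [LinearMap.mem_ker] at this
    simpa [hL, Pi.single_apply] using this
  have h2 := Measure.addHaar_submodule (volume : Measure (Fin 3 → ℝ)) (LinearMap.ker L) h1
  rw [ae_iff]
  convert h2 using 2
  ext k
  simp [hL]

lemma ae_good_dir {u Y : Fin 3 → X → ℝ} (hu : ∀ i, Continuous (u i)) (hY : IsLabel u Y) :
    ∀ᵐ k : Fin 3 → ℝ, ∀ᵐ z : X, (∃ i, u i z ≠ 0) →
      (∑ i, k i * D et (Y i) z ≠ 0 ∧
        ∑ j, (k j + ∑ i, k i * D (ev j) (Y i) z) ^ 2 ≠ 0) := by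
  have hm : MeasurableSet {x : (Fin 3 → ℝ) × X | (∃ i, u i x.2 ≠ 0) →
      (∑ i, x.1 i * D et (Y i) x.2 ≠ 0 ∧
        ∑ j, (x.1 j + ∑ i, x.1 i * D (ev j) (Y i) x.2) ^ 2 ≠ 0)} := by
    have hc1 : Continuous fun x : (Fin 3 → ℝ) × X => ∑ i, x.1 i * D et (Y i) x.2 := by
      refine continuous_finsetSum _ fun i _ => ?_
      exact ((continuous_apply i).comp continuous_fst).mul
        ((D_smooth (hY.smooth i) et).continuous.comp continuous_snd)
    have hc2 : Continuous fun x : (Fin 3 → ℝ) × X =>
        ∑ j, (x.1 j + ∑ i, x.1 i * D (ev j) (Y i) x.2) ^ 2 := by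
      refine continuous_finsetSum _ fun j _ => ?_
      refine Continuous.pow (((continuous_apply j).comp continuous_fst).add ?_) 2
      refine continuous_finsetSum _ fun i _ => ?_
      exact ((continuous_apply i).comp continuous_fst).mul
        ((D_smooth (hY.smooth i) (ev j)).continuous.comp continuous_snd)
    have hA : MeasurableSet {x : (Fin 3 → ℝ) × X | ∃ i, u i x.2 ≠ 0} := by
      have : {x : (Fin 3 → ℝ) × X | ∃ i, u i x.2 ≠ 0} = ⋃ i, {x | u i x.2 ≠ 0} := by
        ext x; simp
      rw [this]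
      exact MeasurableSet.iUnion fun i =>
        (isOpen_ne_fun ((hu i).comp continuous_snd) continuous_const).measurableSet
    have : {x : (Fin 3 → ℝ) × X | (∃ i, u i x.2 ≠ 0) →
      (∑ i, x.1 i * D et (Y i) x.2 ≠ 0 ∧
        ∑ j, (x.1 j + ∑ i, x.1 i * D (ev j) (Y i) x.2) ^ 2 ≠ 0)} =
        {x : (Fin 3 → ℝ) × X | ∃ i, u i x.2 ≠ 0}ᶜ ∪
        ({x | ∑ i, x.1 i * D et (Y i) x.2 ≠ 0} ∩
          {x | ∑ j, (x.1 j + ∑ i, x.1 i * D (ev j) (Y i) x.2) ^ 2 ≠ 0}) := by
      ext x
      simp only [mem_ofPred_eq, mem_union, mem_compl_iff, mem_inter_iff]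
      tauto
    rw [this]
    exact hA.compl.union ((isOpen_ne_fun hc1 continuous_const).measurableSet.inter
      (isOpen_ne_fun hc2 continuous_const).measurableSet)
  rw [Measure.ae_ae_comm (p := fun (k : Fin 3 → ℝ) (z : X) => (∃ i, u i z ≠ 0) →
      (∑ i, k i * D et (Y i) z ≠ 0 ∧
        ∑ j, (k j + ∑ i, k i * D (ev j) (Y i) z) ^ 2 ≠ 0)) hm]
  refine Eventually.of_forall fun z => ?_
  by_cases hz : ∃ i, u i z ≠ 0
  · have hV : (fun i => D et (Y i) z) ≠ 0 := by
      intro h0
      obtain ⟨i, hi⟩ := hz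
      apply hi
      have := hY.inj z (fun j => u j z) fun i => by
        have h1 := hY.transport i z
        have h2 := congrFun h0 i
        simp only [Pi.zero_apply] at h2
        rw [h2] at h1
        linarith
      exact congrFun this i
    -- the second condition
    have h2 : ∀ᵐ k : Fin 3 → ℝ, ∑ j, (k j + ∑ i, k i * D (ev j) (Y i) z) ^ 2 ≠ 0 := by
      have hne := hY.ne_neg z
      push Not at hne
      obtain ⟨i, j, hij⟩ := hne
      -- linear form k ↦ k j + ∑ i, k i D_j Y_i
      have hV2 : (fun l : Fin 3 => (if l = j then (1:ℝ) else 0) + D (ev j) (Y l) z) ≠ 0 := by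
        intro h0
        apply hij
        have := congrFun h0 i
        simp only [Pi.zero_apply] at this
        split_ifs with h
        · rw [if_pos h] at this; linarith
        · rw [if_neg h] at this; linarith
      filter_upwards [ae_linear_ne hV2] with k hk h0
      apply hk
      have h3 := (Finset.sum_eq_zero_iff_of_nonneg (fun j _ => sq_nonneg _)).1 h0 j
        (Finset.mem_univ j)
      have h4 : k j + ∑ i, k i * D (ev j) (Y i) z = 0 := by
        exact pow_eq_zero_iff (two_ne_zero) |>.1 h3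
      refine Eq.trans ?_ h4
      have h5 : ∀ l, k l * ((if l = j then (1:ℝ) else 0) + D (ev j) (Y l) z)
          = (if l = j then k l else 0) + k l * D (ev j) (Y l) z := by
        intro l
        split_ifs <;> ring
      rw [Finset.sum_congr rfl fun l _ => h5 l, Finset.sum_add_distrib]
      congr 1
      exact (Finset.sum_ite_eq' Finset.univ j k).trans (if_pos (Finset.mem_univ j))
    filter_upwards [ae_linear_ne hV, h2] with k h1 h2 _
    exact ⟨h1, h2⟩
  · exact Eventually.of_forall fun k h => absurd h hz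

end

end Pool.Agent.H729R2
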