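import Mathlib

open scoped ContDiff
open Set

namespace Pool.Agent.H729R2

noncomputable section

/-- three dimensional space -/
abbrev E3 := EuclideanSpace ℝ (Fin 3)
/-- space-time -/
abbrev X := ℝ × E3

/-- the spatial unit vectors of space-time -/
def ev (i : Fin 3) : X := (0, EuclideanSpace.single i 1)
/-- the time unit vector of space-time -/
def et : X := (1, 0)

/-- directional derivative -/
def D (v : X) (F : X → ℝ) : X → ℝ := fun z => fderiv ℝ F z v

/-- iterated directional derivatives -/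
def Dl : List X → (X → ℝ) → X → ℝ
  | [], F => F
  | v :: l, F => Dl l (D v F)

lemma D_smooth {F : X → ℝ} (hF : ContDiff ℝ ∞ F) (v : X) : ContDiff ℝ ∞ (D v F) := by
  unfold D
  exact (hF.fderiv_right (m := ∞) (by simp)).clm_apply contDiff_const

lemma smooth_diff {F : X → ℝ} (hF : ContDiff ℝ ∞ F) : Differentiable ℝ F :=
  hF.differentiable (by simp)

lemma D_add {F G : X → ℝ} (hF : ContDiff ℝ ∞ F) (hG : ContDiff ℝ ∞ G) (v : X) :
    D v (fun z => F z + G z) = fun z => D v F z + D v G z := by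
  ext z
  unfold D
  rw [fderiv_fun_add (smooth_diff hF z) (smooth_diff hG z)]
  rfl

lemma D_sub {F G : X → ℝ} (hF : ContDiff ℝ ∞ F) (hG : ContDiff ℝ ∞ G) (v : X) :
    D v (fun z => F z - G z) = fun z => D v F z - D v G z := by
  ext z
  unfold D
  rw [fderiv_fun_sub (smooth_diff hF z) (smooth_diff hG z)]
  rfl

lemma D_neg {F : X → ℝ} (v : X) :
    D v (fun z => - F z) = fun z => - D v F z := by
  ext z
  unfold D
  rw [fderiv_fun_neg]
  rfl

lemma D_mul {F G : X → ℝ} (hF : ContDiff ℝ ∞ F) (hG : ContDiff ℝ ∞ G) (v : X) :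
    D v (fun z => F z * G z) = fun z => D v F z * G z + F z * D v G z := by
  ext z
  unfold D
  rw [fderiv_fun_mul (smooth_diff hF z) (smooth_diff hG z)]
  simp
  ring

lemma D_const (c : ℝ) (v : X) : D v (fun _ => c) = fun _ => 0 := by
  ext z
  unfold D
  simp

lemma D_const_mul {F : X → ℝ} (hF : ContDiff ℝ ∞ F) (c : ℝ) (v : X) :
    D v (fun z => c * F z) = fun z => c * D v F z := by
  rw [D_mul contDiff_const hF, D_const]
  ext z
  ring

lemma D_cos {Φ : X → ℝ} (hΦ : ContDiff ℝ ∞ Φ) (c : ℝ) (v : X) :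
    D v (fun z => Real.cos (c * Φ z)) = fun z => - (c * D v Φ z) * Real.sin (c * Φ z) := by
  ext z
  unfold D
  have h : DifferentiableAt ℝ (fun z => c * Φ z) z := ((smooth_diff hΦ) z).const_mul c
  have h1 := h.hasFDerivAt.cos
  rw [h1.fderiv]
  rw [fderiv_const_mul (smooth_diff hΦ z)]
  simp
  ring

lemma D_sin {Φ : X → ℝ} (hΦ : ContDiff ℝ ∞ Φ) (c : ℝ) (v : X) :
    D v (fun z => Real.sin (c * Φ z)) = fun z => (c * D v Φ z) * Real.cos (c * Φ z) := by
  ext z
  unfold D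
  have h : DifferentiableAt ℝ (fun z => c * Φ z) z := ((smooth_diff hΦ) z).const_mul c
  have h1 := h.hasFDerivAt.sin
  rw [h1.fderiv]
  rw [fderiv_const_mul (smooth_diff hΦ z)]
  simp
  ring

lemma Dl_smooth (l : List X) {F : X → ℝ} (hF : ContDiff ℝ ∞ F) : ContDiff ℝ ∞ (Dl l F) := by
  induction l generalizing F with
  | nil => exact hF
  | cons v l ih => exact ih (D_smooth hF v)

lemma Dl_add (l : List X) {F G : X → ℝ} (hF : ContDiff ℝ ∞ F) (hG : ContDiff ℝ ∞ G) :
    Dl l (fun z => F z + G z) = fun z => Dl l F z + Dl l G z := by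
  induction l generalizing F G with
  | nil => rfl
  | cons v l ih =>
    simp only [Dl]
    rw [D_add hF hG, ih (D_smooth hF v) (D_smooth hG v)]

lemma Dl_neg (l : List X) {F : X → ℝ} :
    Dl l (fun z => - F z) = fun z => - Dl l F z := by
  induction l generalizing F with
  | nil => rfl
  | cons v l ih =>
    simp only [Dl]
    rw [D_neg, ih]

/-- Families of smooth functions whose derivatives of order `j` are `O(N^(a+j))` on `K`. -/
structure Osc (K : Set X) (a : ℤ) (F : ℕ → X → ℝ) : Prop where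
  smooth : ∀ N, ContDiff ℝ ∞ (F N)
  bound : ∀ l : List X, ∃ C : ℝ, ∀ N : ℕ, 1 ≤ N → ∀ z ∈ K,
    |Dl l (F N) z| ≤ C * (N:ℝ) ^ (a + l.length)

variable {K : Set X} {a b : ℤ} {F G : ℕ → X → ℝ}

lemma Osc.bound_nonneg (h : Osc K a F) (l : List X) : ∃ C : ℝ, 0 ≤ C ∧ ∀ N : ℕ, 1 ≤ N → ∀ z ∈ K,
    |Dl l (F N) z| ≤ C * (N:ℝ) ^ (a + l.length) := by
  obtain ⟨C, hC⟩ := h.bound l
  refine ⟨|C|, abs_nonneg C, fun N hN z hz => (hC N hN z hz).trans ?_⟩
  have : (0:ℝ) ≤ (N:ℝ) ^ (a + l.length) := by positivity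
  exact mul_le_mul_of_nonneg_right (le_abs_self C) this

lemma Osc.deriv (h : Osc K a F) (v : X) : Osc K (a + 1) (fun N => D v (F N)) := by
  refine ⟨fun N => D_smooth (h.smooth N) v, fun l => ?_⟩
  obtain ⟨C, hC⟩ := h.bound (v :: l)
  refine ⟨C, fun N hN z hz => ?_⟩
  have := hC N hN z hz
  simp only [Dl, List.length_cons, Nat.cast_add, Nat.cast_one] at this
  have h2 : a + 1 + (l.length : ℤ) = a + ((l.length : ℤ) + 1) := by ring
  rw [h2]
  exact this

lemma Osc.add (hF : Osc K a F) (hG : Osc K a G) : Osc K a (fun N z => F N z + G N z) := by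
  refine ⟨fun N => (hF.smooth N).add (hG.smooth N), fun l => ?_⟩
  obtain ⟨C, hC⟩ := hF.bound l
  obtain ⟨C', hC'⟩ := hG.bound l
  refine ⟨C + C', fun N hN z hz => ?_⟩
  rw [Dl_add l (hF.smooth N) (hG.smooth N), add_mul]
  exact (abs_add_le _ _).trans (add_le_add (hC N hN z hz) (hC' N hN z hz))

lemma Osc.neg (hF : Osc K a F) : Osc K a (fun N z => - F N z) := by
  refine ⟨fun N => (hF.smooth N).neg, fun l => ?_⟩
  obtain ⟨C, hC⟩ := hF.bound l
  refine ⟨C, fun N hN z hz => ?_⟩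
  rw [Dl_neg, abs_neg]
  exact hC N hN z hz

lemma Osc.congr (hF : Osc K a F) (h : ∀ N z, G N z = F N z) : Osc K a G := by
  have : G = F := by ext N z; exact h N z
  rw [this]; exact hF

lemma Osc.sub (hF : Osc K a F) (hG : Osc K a G) : Osc K a (fun N z => F N z - G N z) :=
  (hF.add hG.neg).congr fun N z => by ring

lemma Osc.mono (hF : Osc K a F) (hab : a ≤ b) : Osc K b F := by
  refine ⟨hF.smooth, fun l => ?_⟩
  obtain ⟨C, h0, hC⟩ := hF.bound_nonneg l
  refine ⟨C, fun N hN z hz => (hC N hN z hz).trans ?_⟩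
  have hN' : (1:ℝ) ≤ N := by exact_mod_cast hN
  exact mul_le_mul_of_nonneg_left (zpow_le_zpow_right₀ hN' (by linarith)) h0

lemma Osc.mul (hF : Osc K a F) (hG : Osc K b G) : Osc K (a + b) (fun N z => F N z * G N z) := by
  refine ⟨fun N => (hF.smooth N).mul (hG.smooth N), fun l => ?_⟩
  induction l generalizing a b F G with
  | nil =>
    obtain ⟨C, h0, hC⟩ := hF.bound_nonneg []
    obtain ⟨C', h0', hC'⟩ := hG.bound_nonneg []
    refine ⟨C * C', fun N hN z hz => ?_⟩
    have hN' : (N:ℝ) ≠ 0 := by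
      have : (1:ℝ) ≤ N := by exact_mod_cast hN
      linarith
    have h1 := hC N hN z hz
    have h2 := hC' N hN z hz
    simp only [Dl, List.length_nil, Nat.cast_zero, add_zero] at h1 h2 ⊢
    rw [abs_mul, zpow_add₀ hN']
    calc |F N z| * |G N z| ≤ (C * (N:ℝ) ^ a) * (C' * (N:ℝ) ^ b) :=
          mul_le_mul h1 h2 (abs_nonneg _) (by positivity)
      _ = C * C' * ((N:ℝ) ^ a * (N:ℝ) ^ b) := by ring
  | cons v l ih =>
    obtain ⟨C, hC⟩ := ih (hF.deriv v) hG
    obtain ⟨C', hC'⟩ := ih hF (hG.deriv v)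
    refine ⟨C + C', fun N hN z hz => ?_⟩
    simp only [Dl]
    rw [D_mul (hF.smooth N) (hG.smooth N), Dl_add l
      ((D_smooth (hF.smooth N) v).mul (hG.smooth N)) ((hF.smooth N).mul (D_smooth (hG.smooth N) v))]
    refine (abs_add_le _ _).trans ?_
    have h1 := hC N hN z hz
    have h2 := hC' N hN z hz
    have e1 : a + 1 + b + (l.length : ℤ) = a + b + ((v :: l).length : ℤ) := by
      simp; ring
    have e2 : a + (b + 1) + (l.length : ℤ) = a + b + ((v :: l).length : ℤ) := by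
      simp; ring
    rw [e1] at h1
    rw [e2] at h2
    rw [add_mul]
    exact add_le_add h1 h2

lemma bounded_on (hK : IsCompact K) {f : X → ℝ} (hf : Continuous f) :
    ∃ C : ℝ, ∀ z ∈ K, |f z| ≤ C := by
  obtain ⟨C, hC⟩ := hK.exists_bound_of_continuousOn (f := f) hf.continuousOn
  exact ⟨C, hC⟩

lemma Osc.const (hK : IsCompact K) {f : X → ℝ} (hf : ContDiff ℝ ∞ f) :
    Osc K 0 (fun _ => f) := by
  refine ⟨fun _ => hf, fun l => ?_⟩
  obtain ⟨C, hC⟩ := bounded_on hK (Dl_smooth l hf).continuous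
  refine ⟨|C|, fun N hN z hz => ?_⟩
  have hN' : (1:ℝ) ≤ N := by exact_mod_cast hN
  have h1 : (1:ℝ) ≤ (N:ℝ) ^ (0 + (l.length:ℤ)) := by
    rw [zero_add, zpow_natCast]
    exact one_le_pow₀ hN'
  calc |Dl l f z| ≤ |C| := (hC z hz).trans (le_abs_self C)
    _ = |C| * 1 := (mul_one _).symm
    _ ≤ _ := mul_le_mul_of_nonneg_left h1 (abs_nonneg C)

lemma Osc.zpow (K : Set X) (a : ℤ) : Osc K a (fun N _ => (N:ℝ) ^ a) := by
  refine ⟨fun _ => contDiff_const, fun l => ?_⟩
  cases l with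
  | nil =>
    refine ⟨1, fun N hN z hz => ?_⟩
    simp only [Dl, List.length_nil, Nat.cast_zero, add_zero, one_mul]
    rw [abs_of_nonneg (by positivity)]
  | cons v l =>
    refine ⟨0, fun N hN z hz => ?_⟩
    simp only [Dl, D_const]
    have : ∀ l : List X, Dl l (fun _ => (0:ℝ)) = fun _ => 0 := by
      intro l
      induction l with
      | nil => rfl
      | cons v l ih => simp only [Dl, D_const, ih]
    rw [this]
    simp

lemma osc_trig_bound (hK : IsCompact K) {Φ : X → ℝ} (hΦ : ContDiff ℝ ∞ Φ) (l : List X) :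
    ∀ f : X → ℝ, ContDiff ℝ ∞ f → (∃ C : ℝ, ∀ N : ℕ, 1 ≤ N → ∀ z ∈ K,
      |Dl l (fun z => f z * Real.cos (N * Φ z)) z| ≤ C * (N:ℝ) ^ ((l.length : ℤ))) ∧
      (∃ C : ℝ, ∀ N : ℕ, 1 ≤ N → ∀ z ∈ K,
      |Dl l (fun z => f z * Real.sin (N * Φ z)) z| ≤ C * (N:ℝ) ^ ((l.length : ℤ))) := by
  induction l with
  | nil =>
    intro f hf
    obtain ⟨C, hC⟩ := bounded_on hK hf.continuous
    refine ⟨⟨C, fun N hN z hz => ?_⟩, ⟨C, fun N hN z hz => ?_⟩⟩
    · simp only [Dl, List.length_nil, Nat.cast_zero, zpow_zero, mul_one]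
      rw [abs_mul]
      have := Real.abs_cos_le_one (N * Φ z)
      have h2 := hC z hz
      nlinarith [abs_nonneg (f z), abs_nonneg (Real.cos (N * Φ z))]
    · simp only [Dl, List.length_nil, Nat.cast_zero, zpow_zero, mul_one]
      rw [abs_mul]
      have := Real.abs_sin_le_one (N * Φ z)
      have h2 := hC z hz
      nlinarith [abs_nonneg (f z), abs_nonneg (Real.sin (N * Φ z))]
  | cons v l ih =>
    intro f hf
    obtain ⟨⟨C1, hC1⟩, ⟨C2, hC2⟩⟩ := ih _ (D_smooth hf v)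
    obtain ⟨⟨C3, hC3⟩, ⟨C4, hC4⟩⟩ := ih (fun z => f z * D v Φ z) (hf.mul (D_smooth hΦ v))
    have hcos : ∀ N : ℕ, ContDiff ℝ ∞ (fun z => Real.cos (N * Φ z)) := fun N =>
      Real.contDiff_cos.comp (contDiff_const.mul hΦ)
    have hsin : ∀ N : ℕ, ContDiff ℝ ∞ (fun z => Real.sin (N * Φ z)) := fun N =>
      Real.contDiff_sin.comp (contDiff_const.mul hΦ)
    have key : ∀ (C C' : ℝ) (N : ℕ) (A B : X → ℝ) (z : X), 1 ≤ N → ContDiff ℝ ∞ A →
        ContDiff ℝ ∞ B → |Dl l A z| ≤ C * (N:ℝ) ^ ((l.length : ℤ)) →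
        |Dl l B z| ≤ C' * (N:ℝ) ^ ((l.length : ℤ)) →
        |Dl l (fun z => A z + N * B z) z| ≤ (|C| + C') * (N:ℝ) ^ (((v :: l).length : ℤ)) := by
      intro C C' N A B z hN hA hB h1 h2
      have hN' : (1:ℝ) ≤ N := by exact_mod_cast hN
      have h3 : Dl l (fun z => (N:ℝ) * B z) = fun z => N * Dl l B z := by
        clear h1 h2 ih hC1 hC2 hC3 hC4
        induction l generalizing B with
        | nil => rfl
        | cons v l ih =>
          simp only [Dl]
          rw [D_const_mul hB, ih (D v B) (D_smooth hB v)]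
      rw [Dl_add l hA (contDiff_const.mul hB), h3]
      have e1 : (N:ℝ) ^ (((v :: l).length : ℤ)) = N * (N:ℝ) ^ ((l.length : ℤ)) := by
        simp only [List.length_cons, Nat.cast_add, Nat.cast_one]
        rw [zpow_add₀ (by linarith), zpow_one]
        ring
      rw [e1]
      have hp : (0:ℝ) ≤ (N:ℝ) ^ ((l.length : ℤ)) := by positivity
      refine (abs_add_le _ _).trans ?_
      rw [abs_mul, abs_of_nonneg (by linarith : (0:ℝ) ≤ N)]
      have h4 : |Dl l A z| ≤ |C| * (N:ℝ) ^ ((l.length : ℤ)) :=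
        h1.trans (mul_le_mul_of_nonneg_right (le_abs_self C) hp)
      have h5 : |C| * (N:ℝ) ^ ((l.length : ℤ)) ≤ |C| * (N * (N:ℝ) ^ ((l.length : ℤ))) := by
        apply mul_le_mul_of_nonneg_left _ (abs_nonneg C)
        nlinarith
      nlinarith [mul_le_mul_of_nonneg_left h2 (by linarith : (0:ℝ) ≤ N)]
    refine ⟨⟨|C1| + C4, fun N hN z hz => ?_⟩, ⟨|C2| + C3, fun N hN z hz => ?_⟩⟩
    · simp only [Dl]
      rw [D_mul hf (hcos N), D_cos hΦ]
      have h1 := key C1 C4 N (fun z => D v f z * Real.cos (N * Φ z))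
        (fun z => - (f z * D v Φ z * Real.sin (N * Φ z))) z hN
        ((D_smooth hf v).mul (hcos N)) (((hf.mul (D_smooth hΦ v)).mul (hsin N)).neg)
        (hC1 N hN z hz) (by rw [Dl_neg, abs_neg]; exact hC4 N hN z hz)
      refine le_of_eq_of_le ?_ h1
      congr 3
      ext z
      ring
    · simp only [Dl]
      rw [D_mul hf (hsin N), D_sin hΦ]
      have h1 := key C2 C3 N (fun z => D v f z * Real.sin (N * Φ z))
        (fun z => (f z * D v Φ z * Real.cos (N * Φ z))) z hN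
        ((D_smooth hf v).mul (hsin N)) (((hf.mul (D_smooth hΦ v)).mul (hcos N)))
        (hC2 N hN z hz) (hC3 N hN z hz)
      refine le_of_eq_of_le ?_ h1
      congr 3
      ext z
      ring

lemma Osc.cos (hK : IsCompact K) {Φ : X → ℝ} (hΦ : ContDiff ℝ ∞ Φ) :
    Osc K 0 (fun N z => Real.cos (N * Φ z)) := by
  refine ⟨fun N => Real.contDiff_cos.comp (contDiff_const.mul hΦ), fun l => ?_⟩
  obtain ⟨⟨C, hC⟩, -⟩ := osc_trig_bound hK hΦ l (fun _ => 1) contDiff_const
  refine ⟨C, fun N hN z hz => ?_⟩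
  have := hC N hN z hz
  simpa using this

lemma Osc.sin (hK : IsCompact K) {Φ : X → ℝ} (hΦ : ContDiff ℝ ∞ Φ) :
    Osc K 0 (fun N z => Real.sin (N * Φ z)) := by
  refine ⟨fun N => Real.contDiff_sin.comp (contDiff_const.mul hΦ), fun l => ?_⟩
  obtain ⟨-, ⟨C, hC⟩⟩ := osc_trig_bound hK hΦ l (fun _ => 1) contDiff_const
  refine ⟨C, fun N hN z hz => ?_⟩
  have := hC N hN z hz
  simpa using this

lemma Osc.sum {ι : Type} (s : Finset ι) {F : ι → ℕ → X → ℝ} (h : ∀ i ∈ s, Osc K a (F i)) :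
    Osc K a (fun N z => ∑ i ∈ s, F i N z) := by
  classical
  induction s using Finset.induction_on with
  | empty =>
    refine ⟨fun N => by simpa using contDiff_const, fun l => ⟨0, fun N hN z hz => ?_⟩⟩
    have : ∀ l : List X, Dl l (fun _ => (0:ℝ)) = fun _ => 0 := by
      intro l
      induction l with
      | nil => rfl
      | cons v l ih => simp only [Dl, D_const, ih]
    simp [this]
  | insert i s hi ih =>
    simp only [Finset.sum_insert hi]
    exact (h i (Finset.mem_insert_self i s)).add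
      (ih fun j hj => h j (Finset.mem_insert_of_mem hj))

lemma Osc.sup (h : Osc K a F) : ∃ C : ℝ, 0 ≤ C ∧ ∀ N : ℕ, 1 ≤ N → ∀ z ∈ K,
    |F N z| ≤ C * (N:ℝ) ^ a := by
  obtain ⟨C, h0, hC⟩ := h.bound_nonneg []
  refine ⟨C, h0, fun N hN z hz => ?_⟩
  simpa [Dl] using hC N hN z hz

end

end Pool.Agent.H729R2
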