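import Pool.Agent.H729R2.Norm

open scoped ContDiff
open Set MeasureTheory Filter Topology

namespace Pool.Agent.H729R2

noncomputable section

/-- the values at one point -/
structure Pt where
  a : E3
  b : E3
  g : E3
  k : E3
  R1 : ℝ
  R2 : ℝ
  ζ : ℝ
  ε : ℝ
  cx : ℝ
  cy : ℝ
  sx : ℝ
  sy : ℝ

namespace Pt

variable (P : Pt)

def e : E3 := P.a + P.R2 • P.b - P.R1 • P.g
def s : ℝ := ∑ i, P.e i * P.k i
def κ : ℝ := ∑ i, P.k i ^ 2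
def Q : ℝ := P.ζ * P.s / (P.ε * P.R1 * P.κ)
def cs : ℝ := P.cx * P.cy - P.sx * P.sy
def c2 : ℝ := 2 * P.cx ^ 2 - 1
def cθ : ℝ := P.cx * P.cy + P.sx * P.sy
def G : E3 := (-(P.ε * P.ζ * P.cy)) • P.b + ((P.R1 / P.R2) * (P.ε * P.ζ) * P.cx) • P.g
  + ((P.R1 / P.R2) * P.Q * P.cx) • P.k + (-(P.ε / 2 * (P.R1 / P.R2) * P.Q * P.cs)) • P.k
  + (P.ε / 2 * (P.R1 / P.R2) * P.Q * P.c2) • P.k
def et' : E3 := P.a + (P.R2 * (1 + P.ε * P.cy)) • (P.b + P.G)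
  - (P.R1 * (1 + P.ε * P.cx)) • (P.g + (P.Q * P.cx) • P.k)
def m : E3 := P.e - (P.ζ * P.s / (2 * P.κ) * (1 - P.cθ)) • P.k

structure Ok : Prop where
  κ0 : P.κ ≠ 0
  ε0 : 0 < P.ε
  ε1 : P.ε ≤ 1 / 10
  R10 : 1 / 2 ≤ P.R1
  R11 : P.R1 ≤ 2
  R20 : 1 / 2 ≤ P.R2
  R21 : P.R2 ≤ 2
  ζ0 : 0 ≤ P.ζ
  ζ1 : P.ζ ≤ 1
  hcx : |P.cx| ≤ 1
  hcy : |P.cy| ≤ 1
  hcs : |P.cs| ≤ 1
  hc2 : |P.c2| ≤ 1

variable {P}

namespace Ok

variable (h : P.Ok)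
include h

omit h in
lemma κ_eq : P.κ = ‖P.k‖ ^ 2 := by
  rw [EuclideanSpace.norm_sq_eq]
  simp [κ]

lemma k_pos : 0 < ‖P.k‖ := by
  have h1 := h.κ0
  rw [κ_eq] at h1
  exact (norm_nonneg _).lt_of_ne fun h0 => h1 (by rw [← h0]; norm_num)

omit h in
lemma s_le : |P.s| ≤ ‖P.e‖ * ‖P.k‖ := by
  have h1 : P.s = inner ℝ P.e P.k := by
    simp [s, PiLp.inner_apply, mul_comm]
  rw [h1]
  exact abs_real_inner_le_norm _ _

/-- main bound for `Q` -/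
lemma Q_le : P.ε * P.R1 * (|P.Q| * ‖P.k‖) ≤ ‖P.e‖ := by
  have hk := h.k_pos
  have hs := s_le (P := P)
  have e0 := h.ε0
  have r0 : 0 < P.R1 := by linarith [h.R10]
  have z0 := h.ζ0
  have h1 : |P.Q| = P.ζ * |P.s| / (P.ε * P.R1 * ‖P.k‖ ^ 2) := by
    unfold Q
    rw [κ_eq, abs_div, abs_mul, abs_of_nonneg z0, abs_of_pos (by positivity :
      0 < P.ε * P.R1 * ‖P.k‖ ^ 2)]
  rw [h1]
  have h2 : P.ε * P.R1 * (P.ζ * |P.s| / (P.ε * P.R1 * ‖P.k‖ ^ 2) * ‖P.k‖) = P.ζ * (|P.s| / ‖P.k‖) := by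
    field_simp
  rw [h2]
  have h3 : |P.s| / ‖P.k‖ ≤ ‖P.e‖ := by
    rw [div_le_iff₀ hk]; exact hs
  have h4 : 0 ≤ |P.s| / ‖P.k‖ := by positivity
  calc P.ζ * (|P.s| / ‖P.k‖) ≤ 1 * (|P.s| / ‖P.k‖) := mul_le_mul_of_nonneg_right h.ζ1 h4
    _ ≤ ‖P.e‖ := by rw [one_mul]; exact h3

lemma Q_le' : |P.Q| * ‖P.k‖ ≤ 2 / P.ε * ‖P.e‖ := by
  have h1 := h.Q_le
  have e0 := h.ε0
  have r0 := h.R10
  have h2 : 0 ≤ |P.Q| * ‖P.k‖ := by positivity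
  have h3 : P.ε * (|P.Q| * ‖P.k‖) ≤ 2 * ‖P.e‖ := by
    have : P.ε * (1 / 2) * (|P.Q| * ‖P.k‖) ≤ P.ε * P.R1 * (|P.Q| * ‖P.k‖) := by
      apply mul_le_mul_of_nonneg_right _ h2
      exact mul_le_mul_of_nonneg_left r0 e0.le
    linarith
  rw [div_mul_eq_mul_div, le_div_iff₀ e0]
  linarith

lemma identity : P.et' = P.m + (P.ε * (1 - P.ζ) * P.R2 * P.cy) • P.b
    + (-(P.ε * (1 - P.ζ) * P.R1 * P.cx)) • P.g
    + (P.ε * P.R2 * P.cy * (-(P.ε * P.ζ * P.cy))) • P.b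
    + (P.ε * P.R2 * P.cy * ((P.R1 / P.R2) * (P.ε * P.ζ) * P.cx)) • P.g
    + (P.ε * P.R2 * P.cy * (-(P.ε / 2 * (P.R1 / P.R2) * P.Q * P.cs))) • P.k
    + (P.ε * P.R2 * P.cy * (P.ε / 2 * (P.R1 / P.R2) * P.Q * P.c2)) • P.k := by
  have hκ := h.κ0
  have e0 := h.ε0.ne'
  have r1 : P.R1 ≠ 0 := by linarith [h.R10]
  have r2 : P.R2 ≠ 0 := by linarith [h.R20]
  ext i
  simp only [et', m, G, PiLp.add_apply, PiLp.sub_apply, PiLp.smul_apply, smul_eq_mul]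
  have he : P.e i = P.a i + P.R2 * P.b i - P.R1 * P.g i := by
    simp [e]
  rw [he]
  have hQ : P.Q = P.ζ * P.s / (P.ε * P.R1 * P.κ) := rfl
  rw [hQ]
  unfold cs c2 cθ
  field_simp
  ring

omit h in
lemma norm_smul_le' {c C : ℝ} (v : E3) (hc : |c| ≤ C) : ‖c • v‖ ≤ C * ‖v‖ := by
  rw [norm_smul, Real.norm_eq_abs]
  exact mul_le_mul_of_nonneg_right hc (norm_nonneg _)

/-- bound of the new error -/
lemma err_le : ‖P.et' - P.m‖ ≤ P.ε * ‖P.e‖ + 2 * P.ε ^ 2 * (‖P.b‖ + ‖P.g‖)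
    + 2 * P.ε * ((1 - P.ζ) * (‖P.b‖ + ‖P.g‖)) := by
  have e0 := h.ε0
  have r1 : 0 < P.R1 := by linarith [h.R10]
  have r2 : 0 < P.R2 := by linarith [h.R20]
  have z0 := h.ζ0
  have z1 : 0 ≤ 1 - P.ζ := by linarith [h.ζ1]
  have e1 : |P.ε| = P.ε := abs_of_pos e0
  have z1' : |1 - P.ζ| = 1 - P.ζ := abs_of_nonneg z1
  have r1' : |P.R1| = P.R1 := abs_of_pos r1
  have r2' : |P.R2| = P.R2 := abs_of_pos r2
  have z0' : |P.ζ| = P.ζ := abs_of_nonneg z0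
  have b1 : |P.ε * (1 - P.ζ) * P.R2 * P.cy| ≤ 2 * P.ε * (1 - P.ζ) := by
    rw [abs_mul, abs_mul, abs_mul, e1, z1', r2']
    have : P.ε * (1 - P.ζ) * P.R2 * |P.cy| ≤ P.ε * (1 - P.ζ) * 2 * 1 :=
      mul_le_mul (mul_le_mul_of_nonneg_left h.R21 (by positivity)) h.hcy (abs_nonneg _)
        (by positivity)
    linarith
  have b2 : |-(P.ε * (1 - P.ζ) * P.R1 * P.cx)| ≤ 2 * P.ε * (1 - P.ζ) := by
    rw [abs_neg, abs_mul, abs_mul, abs_mul, e1, z1', r1']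
    have : P.ε * (1 - P.ζ) * P.R1 * |P.cx| ≤ P.ε * (1 - P.ζ) * 2 * 1 :=
      mul_le_mul (mul_le_mul_of_nonneg_left h.R11 (by positivity)) h.hcx (abs_nonneg _)
        (by positivity)
    linarith
  have b3 : |P.ε * P.R2 * P.cy * (-(P.ε * P.ζ * P.cy))| ≤ 2 * P.ε ^ 2 := by
    rw [abs_mul, abs_mul, abs_mul, abs_neg, abs_mul, abs_mul, e1, r2', z0']
    have : P.ε * P.R2 * |P.cy| * (P.ε * P.ζ * |P.cy|) ≤ P.ε * 2 * 1 * (P.ε * 1 * 1) := by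
      gcongr
      · exact h.R21
      · exact h.hcy
      · exact h.ζ1
      · exact h.hcy
    linarith
  have b4 : |P.ε * P.R2 * P.cy * ((P.R1 / P.R2) * (P.ε * P.ζ) * P.cx)| ≤ 2 * P.ε ^ 2 := by
    have : P.ε * P.R2 * P.cy * ((P.R1 / P.R2) * (P.ε * P.ζ) * P.cx)
      = P.ε * P.R1 * P.cy * (P.ε * P.ζ * P.cx) := by field_simp
    rw [this, abs_mul, abs_mul, abs_mul, abs_mul, abs_mul, e1, r1', z0']
    have : P.ε * P.R1 * |P.cy| * (P.ε * P.ζ * |P.cx|) ≤ P.ε * 2 * 1 * (P.ε * 1 * 1) := by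
      gcongr
      · exact h.R11
      · exact h.hcy
      · exact h.ζ1
      · exact h.hcx
    linarith
  have hQ := h.Q_le
  have b5 : ‖(P.ε * P.R2 * P.cy * (-(P.ε / 2 * (P.R1 / P.R2) * P.Q * P.cs))) • P.k‖
      ≤ P.ε / 2 * ‖P.e‖ := by
    have : P.ε * P.R2 * P.cy * (-(P.ε / 2 * (P.R1 / P.R2) * P.Q * P.cs))
      = - (P.ε / 2 * (P.ε * P.R1 * P.Q) * (P.cy * P.cs)) := by field_simp
    rw [this, norm_smul, Real.norm_eq_abs, abs_neg, abs_mul, abs_mul, abs_mul, abs_mul, abs_mul,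
      abs_of_pos (by positivity : 0 < P.ε / 2), e1, r1']
    have h3 : |P.cy| * |P.cs| ≤ 1 * 1 := mul_le_mul h.hcy h.hcs (abs_nonneg _) (by norm_num)
    calc P.ε / 2 * (P.ε * P.R1 * |P.Q|) * (|P.cy| * |P.cs|) * ‖P.k‖
        = P.ε / 2 * (P.ε * P.R1 * (|P.Q| * ‖P.k‖)) * (|P.cy| * |P.cs|) := by ring
      _ ≤ P.ε / 2 * ‖P.e‖ * (1 * 1) := by
          gcongr
      _ = _ := by ring
  have b6 : ‖(P.ε * P.R2 * P.cy * (P.ε / 2 * (P.R1 / P.R2) * P.Q * P.c2)) • P.k‖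
      ≤ P.ε / 2 * ‖P.e‖ := by
    have : P.ε * P.R2 * P.cy * (P.ε / 2 * (P.R1 / P.R2) * P.Q * P.c2)
      = (P.ε / 2 * (P.ε * P.R1 * P.Q) * (P.cy * P.c2)) := by field_simp
    rw [this, norm_smul, Real.norm_eq_abs, abs_mul, abs_mul, abs_mul, abs_mul, abs_mul,
      abs_of_pos (by positivity : 0 < P.ε / 2), e1, r1']
    have h3 : |P.cy| * |P.c2| ≤ 1 * 1 := mul_le_mul h.hcy h.hc2 (abs_nonneg _) (by norm_num)
    calc P.ε / 2 * (P.ε * P.R1 * |P.Q|) * (|P.cy| * |P.c2|) * ‖P.k‖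
        = P.ε / 2 * (P.ε * P.R1 * (|P.Q| * ‖P.k‖)) * (|P.cy| * |P.c2|) := by ring
      _ ≤ P.ε / 2 * ‖P.e‖ * (1 * 1) := by
          gcongr
      _ = _ := by ring
  rw [h.identity]
  have c1 := norm_smul_le' P.b b1
  have c2 := norm_smul_le' P.g b2
  have c3 := norm_smul_le' P.b b3
  have c4 := norm_smul_le' P.g b4
  set v1 := (P.ε * (1 - P.ζ) * P.R2 * P.cy) • P.b
  set v2 := (-(P.ε * (1 - P.ζ) * P.R1 * P.cx)) • P.g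
  set v3 := (P.ε * P.R2 * P.cy * (-(P.ε * P.ζ * P.cy))) • P.b
  set v4 := (P.ε * P.R2 * P.cy * ((P.R1 / P.R2) * (P.ε * P.ζ) * P.cx)) • P.g
  set v5 := (P.ε * P.R2 * P.cy * (-(P.ε / 2 * (P.R1 / P.R2) * P.Q * P.cs))) • P.k
  set v6 := (P.ε * P.R2 * P.cy * (P.ε / 2 * (P.R1 / P.R2) * P.Q * P.c2)) • P.k
  have e7 : P.m + v1 + v2 + v3 + v4 + v5 + v6 - P.m = v1 + v2 + v3 + v4 + v5 + v6 := by abel
  rw [e7]
  have t1 := norm_add_le (v1 + v2 + v3 + v4 + v5) v6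
  have t2 := norm_add_le (v1 + v2 + v3 + v4) v5
  have t3 := norm_add_le (v1 + v2 + v3) v4
  have t4 := norm_add_le (v1 + v2) v3
  have t5 := norm_add_le v1 v2
  linarith

lemma r12_le : P.R1 / P.R2 ≤ 4 := by
  rw [div_le_iff₀ (by linarith [h.R20])]
  linarith [h.R11, h.R20]

lemma bG_le : ‖P.b + P.G‖ ≤ (1 + P.ε) * ‖P.b‖ + 4 * P.ε * ‖P.g‖ + (2 / P.ε + 2) * ‖P.e‖ := by
  have e0 := h.ε0
  have r1 : 0 < P.R1 := by linarith [h.R10]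
  have r2 : 0 < P.R2 := by linarith [h.R20]
  have z0 := h.ζ0
  have e1 : |P.ε| = P.ε := abs_of_pos e0
  have r1' : |P.R1| = P.R1 := abs_of_pos r1
  have r2' : |P.R2| = P.R2 := abs_of_pos r2
  have z0' : |P.ζ| = P.ζ := abs_of_nonneg z0
  have hr := h.r12_le
  have hr0 : 0 < P.R1 / P.R2 := by positivity
  have b1 : |-(P.ε * P.ζ * P.cy)| ≤ P.ε := by
    rw [abs_neg, abs_mul, abs_mul, e1, z0']
    have : P.ε * P.ζ * |P.cy| ≤ P.ε * 1 * 1 := by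
      gcongr
      · exact h.ζ1
      · exact h.hcy
    linarith
  have b2 : |(P.R1 / P.R2) * (P.ε * P.ζ) * P.cx| ≤ 4 * P.ε := by
    rw [abs_mul, abs_mul, abs_mul, e1, z0', abs_of_pos hr0]
    have : P.R1 / P.R2 * (P.ε * P.ζ) * |P.cx| ≤ 4 * (P.ε * 1) * 1 := by
      gcongr
      · exact h.ζ1
      · exact h.hcx
    linarith
  -- bound for (R1/R2) |Q| ‖k‖
  have hQ : P.R1 / P.R2 * (|P.Q| * ‖P.k‖) ≤ 2 / P.ε * ‖P.e‖ := by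
    have h1 := h.Q_le
    have h2 : P.R1 / P.R2 * (|P.Q| * ‖P.k‖) = (P.ε * P.R1 * (|P.Q| * ‖P.k‖)) / (P.ε * P.R2) := by
      field_simp
    rw [h2, div_mul_eq_mul_div, div_le_div_iff₀ (by positivity) e0]
    have h3 : P.ε * P.R1 * (|P.Q| * ‖P.k‖) * P.ε ≤ ‖P.e‖ * P.ε :=
      mul_le_mul_of_nonneg_right h1 e0.le
    have h4 : ‖P.e‖ * P.ε * 1 ≤ ‖P.e‖ * P.ε * (2 * P.R2) :=
      mul_le_mul_of_nonneg_left (by linarith [h.R20]) (by positivity)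
    nlinarith
  have b3 : ‖((P.R1 / P.R2) * P.Q * P.cx) • P.k‖ ≤ 2 / P.ε * ‖P.e‖ := by
    rw [norm_smul, Real.norm_eq_abs, abs_mul, abs_mul, abs_of_pos hr0]
    calc P.R1 / P.R2 * |P.Q| * |P.cx| * ‖P.k‖ = P.R1 / P.R2 * (|P.Q| * ‖P.k‖) * |P.cx| := by ring
      _ ≤ 2 / P.ε * ‖P.e‖ * 1 := by
          gcongr
          exact h.hcx
      _ = _ := by ring
  have key : P.ε / 2 * (P.R1 / P.R2 * (|P.Q| * ‖P.k‖)) ≤ ‖P.e‖ := by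
    have : P.ε / 2 * (P.R1 / P.R2 * (|P.Q| * ‖P.k‖)) ≤ P.ε / 2 * (2 / P.ε * ‖P.e‖) := by
      gcongr
    refine this.trans (le_of_eq ?_)
    field_simp
  have b4 : ‖(-(P.ε / 2 * (P.R1 / P.R2) * P.Q * P.cs)) • P.k‖ ≤ ‖P.e‖ := by
    rw [norm_smul, Real.norm_eq_abs, abs_neg, abs_mul, abs_mul, abs_mul, abs_of_pos hr0,
      abs_of_pos (by positivity : 0 < P.ε / 2)]
    calc P.ε / 2 * (P.R1 / P.R2) * |P.Q| * |P.cs| * ‖P.k‖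
        = P.ε / 2 * (P.R1 / P.R2 * (|P.Q| * ‖P.k‖)) * |P.cs| := by ring
      _ ≤ ‖P.e‖ * 1 := by
          gcongr
          exact h.hcs
      _ = _ := by ring
  have b5 : ‖(P.ε / 2 * (P.R1 / P.R2) * P.Q * P.c2) • P.k‖ ≤ ‖P.e‖ := by
    rw [norm_smul, Real.norm_eq_abs, abs_mul, abs_mul, abs_mul, abs_of_pos hr0,
      abs_of_pos (by positivity : 0 < P.ε / 2)]
    calc P.ε / 2 * (P.R1 / P.R2) * |P.Q| * |P.c2| * ‖P.k‖
        = P.ε / 2 * (P.R1 / P.R2 * (|P.Q| * ‖P.k‖)) * |P.c2| := by ring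
      _ ≤ ‖P.e‖ * 1 := by
          gcongr
          exact h.hc2
      _ = _ := by ring
  have c1 := norm_smul_le' P.b b1
  have c2 := norm_smul_le' P.g b2
  unfold G
  set v1 := (-(P.ε * P.ζ * P.cy)) • P.b
  set v2 := ((P.R1 / P.R2) * (P.ε * P.ζ) * P.cx) • P.g
  set v3 := ((P.R1 / P.R2) * P.Q * P.cx) • P.k
  set v4 := (-(P.ε / 2 * (P.R1 / P.R2) * P.Q * P.cs)) • P.k
  set v5 := (P.ε / 2 * (P.R1 / P.R2) * P.Q * P.c2) • P.k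
  have t0 := norm_add_le P.b (v1 + v2 + v3 + v4 + v5)
  have t1 := norm_add_le (v1 + v2 + v3 + v4) v5
  have t2 := norm_add_le (v1 + v2 + v3) v4
  have t3 := norm_add_le (v1 + v2) v3
  have t4 := norm_add_le v1 v2
  linarith

lemma gQ_le : ‖P.g + (P.Q * P.cx) • P.k‖ ≤ ‖P.g‖ + 2 / P.ε * ‖P.e‖ := by
  refine (norm_add_le _ _).trans ?_
  have h1 := h.Q_le'
  rw [norm_smul, Real.norm_eq_abs, abs_mul]
  have : |P.Q| * |P.cx| * ‖P.k‖ ≤ |P.Q| * 1 * ‖P.k‖ := by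
    gcongr
    exact h.hcx
  linarith

lemma df_le : ‖(P.R1 * (1 + P.ε * P.cx)) • (P.g + (P.Q * P.cx) • P.k) - P.R1 • P.g‖
    ≤ 2 * P.ε * ‖P.g‖ + 2 / P.ε * ‖P.e‖ := by
  have e0 := h.ε0
  have r1 : 0 < P.R1 := by linarith [h.R10]
  have e1 : |P.ε| = P.ε := abs_of_pos e0
  have r1' : |P.R1| = P.R1 := abs_of_pos r1
  have h1 : (P.R1 * (1 + P.ε * P.cx)) • (P.g + (P.Q * P.cx) • P.k) - P.R1 • P.g
      = (P.R1 * P.ε * P.cx) • P.g + (P.R1 * P.Q * (P.cx * (1 + P.ε * P.cx))) • P.k := by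
    ext i
    simp only [PiLp.add_apply, PiLp.sub_apply, PiLp.smul_apply, smul_eq_mul]
    ring
  rw [h1]
  refine (norm_add_le _ _).trans ?_
  have b1 : |P.R1 * P.ε * P.cx| ≤ 2 * P.ε := by
    rw [abs_mul, abs_mul, e1, r1']
    have : P.R1 * P.ε * |P.cx| ≤ 2 * P.ε * 1 := by
      gcongr
      · exact h.R11
      · exact h.hcx
    linarith
  have b2 : ‖(P.R1 * P.Q * (P.cx * (1 + P.ε * P.cx))) • P.k‖ ≤ 2 / P.ε * ‖P.e‖ := by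
    rw [norm_smul, Real.norm_eq_abs, abs_mul, abs_mul, r1', abs_mul]
    have h2 : |1 + P.ε * P.cx| ≤ 2 := by
      refine (abs_add_le _ _).trans ?_
      rw [abs_one, abs_mul, e1]
      have : P.ε * |P.cx| ≤ 1 / 10 * 1 := by
        gcongr
        · exact h.ε1
        · exact h.hcx
      linarith
    have h3 : |P.cx| * |1 + P.ε * P.cx| ≤ 1 * 2 :=
      mul_le_mul h.hcx h2 (abs_nonneg _) (by norm_num)
    have h4 := h.Q_le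
    have h5 : P.R1 * (|P.Q| * ‖P.k‖) ≤ 1 / P.ε * ‖P.e‖ := by
      rw [div_mul_eq_mul_div, le_div_iff₀ e0]
      linarith
    calc P.R1 * |P.Q| * (|P.cx| * |1 + P.ε * P.cx|) * ‖P.k‖
        = P.R1 * (|P.Q| * ‖P.k‖) * (|P.cx| * |1 + P.ε * P.cx|) := by ring
      _ ≤ 1 / P.ε * ‖P.e‖ * (1 * 2) := by gcongr
      _ = _ := by ring
  have c1 := norm_smul_le' P.g b1
  linarith

lemma m_sq : ‖P.m‖ ^ 2 = ‖P.e‖ ^ 2 - P.s ^ 2 / P.κ * (P.ζ * (1 - P.cθ) - P.ζ ^ 2 / 4 *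
    (1 - P.cθ) ^ 2) := by
  have hκ := h.κ0
  rw [EuclideanSpace.norm_sq_eq, EuclideanSpace.norm_sq_eq]
  simp only [m, PiLp.sub_apply, PiLp.smul_apply, smul_eq_mul, Real.norm_eq_abs, sq_abs]
  set c := P.ζ * P.s / (2 * P.κ) * (1 - P.cθ) with hc
  have h1 : ∀ i, (P.e i - c * P.k i) ^ 2 = P.e i ^ 2 - 2 * c * (P.e i * P.k i)
    + c ^ 2 * (P.k i ^ 2) := fun i => by ring
  simp only [h1]
  rw [Finset.sum_add_distrib, Finset.sum_sub_distrib, ← Finset.mul_sum, ← Finset.mul_sum]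
  have h2 : ∑ i, P.e i * P.k i = P.s := rfl
  have h3 : ∑ i, P.k i ^ 2 = P.κ := rfl
  rw [h2, h3, hc]
  field_simp
  ring

end Ok

end Pt

end

end Pool.Agent.H729R2
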