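import Pool.Agent.H729R2.Null

open scoped ContDiff Manifold
open Set MeasureTheory Filter Topology

namespace Pool.Agent.H729R2

noncomputable section

/-- approximate solution pairs: the second solution has velocity `u`, labels `lab u`, specific
volume `r ∘ lab u` and pressure `q`; the first is at rest, with specific volume `r` and pressure
`p`; the force is `r ∇p` -/
structure St where
  u : Fin 3 → X → ℝ
  r : E3 → ℝ
  p : X → ℝ
  q : X → ℝ

namespace St

variable (S : St)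

def R1 (z : X) : ℝ := S.r z.2
def R2 (z : X) : ℝ := S.r (vec fun i => lab S.u i z)
def b (i : Fin 3) (z : X) : ℝ := - (∑ j, D (ev j) (D (ev j) (S.u i)) z) + D (ev i) S.q z
def acc (i : Fin 3) (z : X) : ℝ := D et (S.u i) z + ∑ j, S.u j z * D (ev j) (S.u i) z
def gp (i : Fin 3) (z : X) : ℝ := D (ev i) S.p z
/-- the error in the momentum equation of the second solution, divided by the density -/
def e (i : Fin 3) (z : X) : ℝ := S.acc i z + S.R2 z * S.b i z - S.R1 z * S.gp i z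

end St

/-- admissible states -/
structure Good (K₀ : Set X) (S : St) : Prop where
  hu : ∀ i, ContDiff ℝ ∞ (S.u i)
  hr : ContDiff ℝ ∞ S.r
  hp : ContDiff ℝ ∞ S.p
  hq : ContDiff ℝ ∞ S.q
  uK : ∀ i, tsupport (S.u i) ⊆ K₀
  pu : tsupport S.p ⊆ {z | ∃ i, S.u i z ≠ 0}
  qu : tsupport S.q ⊆ {z | ∃ i, S.u i z ≠ 0}
  div : ∀ z, ∑ i, D (ev i) (S.u i) z = 0
  rlip : ∃ L : NNReal, LipschitzWith L S.r
  rlo : ∀ x, 1 / 2 ≤ S.r x
  rhi : ∀ x, S.r x ≤ 2

variable {K₀ : Set X} {S : St}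

lemma hcs_of_tsupport_subset {F : X → ℝ} (hK : IsCompact K₀) (h : tsupport F ⊆ K₀) :
    HasCompactSupport F :=
  HasCompactSupport.of_support_subset_isCompact hK (subset_closure.trans h)

namespace Good

variable (h : Good K₀ S)
include h

lemma ucs (hK : IsCompact K₀) (i : Fin 3) : HasCompactSupport (S.u i) :=
  hcs_of_tsupport_subset hK (h.uK i)

lemma pK : tsupport S.p ⊆ K₀ := fun z hz => by
  obtain ⟨i, hi⟩ := h.pu hz
  exact h.uK i (subset_tsupport _ hi)

lemma qK : tsupport S.q ⊆ K₀ := fun z hz => by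
  obtain ⟨i, hi⟩ := h.qu hz
  exact h.uK i (subset_tsupport _ hi)

lemma lab_isLabel (hK : IsCompact K₀) : IsLabel S.u (lab S.u) :=
  isLabel_lab h.hu (h.ucs hK)

lemma R1s : ContDiff ℝ ∞ S.R1 := h.hr.comp contDiff_snd

lemma R2s (hK : IsCompact K₀) : ContDiff ℝ ∞ S.R2 :=
  h.hr.comp (contDiff_vec (h.lab_isLabel hK).smooth)

lemma bs (i : Fin 3) : ContDiff ℝ ∞ (S.b i) :=
  (ContDiff.neg (ContDiff.sum fun j _ => D_smooth (D_smooth (h.hu i) (ev j)) (ev j))).add
    (D_smooth h.hq (ev i))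

lemma accs (i : Fin 3) : ContDiff ℝ ∞ (S.acc i) :=
  (D_smooth (h.hu i) et).add
    (ContDiff.sum fun j _ => (h.hu j).mul (D_smooth (h.hu i) (ev j)))

lemma gps (i : Fin 3) : ContDiff ℝ ∞ (S.gp i) := D_smooth h.hp (ev i)

lemma es (hK : IsCompact K₀) (i : Fin 3) : ContDiff ℝ ∞ (S.e i) :=
  ((h.accs i).add ((h.R2s hK).mul (h.bs i))).sub (h.R1s.mul (h.gps i))

lemma b_zero {z : X} (hz : z ∉ K₀) (i : Fin 3) : S.b i z = 0 := by
  unfold St.b
  rw [D_eq_zero_of_notMem _ fun h' => hz (h.qK h')]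
  have : ∀ j, D (ev j) (D (ev j) (S.u i)) z = 0 := fun j =>
    D_eq_zero_of_notMem _ fun h' => hz (h.uK i (tsupport_D_subset _ _ h'))
  simp [this]

lemma acc_zero {z : X} (hz : z ∉ K₀) (i : Fin 3) : S.acc i z = 0 := by
  unfold St.acc
  rw [D_eq_zero_of_notMem _ fun h' => hz (h.uK i h')]
  have : ∀ j, D (ev j) (S.u i) z = 0 := fun j =>
    D_eq_zero_of_notMem _ fun h' => hz (h.uK i h')
  simp [this]

lemma gp_zero {z : X} (hz : z ∉ K₀) (i : Fin 3) : S.gp i z = 0 :=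
  D_eq_zero_of_notMem _ fun h' => hz (h.pK h')

lemma e_zero {z : X} (hz : z ∉ K₀) (i : Fin 3) : S.e i z = 0 := by
  unfold St.e
  rw [h.acc_zero hz, h.b_zero hz, h.gp_zero hz]
  ring

/-- `e`, `b` and `∇p` vanish almost everywhere on the zero set of `u` -/
lemma ae_zero : ∀ᵐ z : X, (¬ ∃ i, S.u i z ≠ 0) →
    ∀ i, S.b i z = 0 ∧ S.gp i z = 0 ∧ S.e i z = 0 := by
  have h1 : ∀ᵐ z : X, ∀ i, S.u i z = 0 → D et (S.u i) z = 0 :=
    ae_all_iff.2 fun i => ae_D_zero (h.hu i) et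
  have h2 : ∀ᵐ z : X, ∀ i j, S.u i z = 0 → D (ev j) (S.u i) z = 0 :=
    ae_all_iff.2 fun i => ae_all_iff.2 fun j => ae_D_zero (h.hu i) (ev j)
  have h3 : ∀ᵐ z : X, ∀ i j, D (ev j) (S.u i) z = 0 → D (ev j) (D (ev j) (S.u i)) z = 0 :=
    ae_all_iff.2 fun i => ae_all_iff.2 fun j => ae_D_zero (D_smooth (h.hu i) (ev j)) (ev j)
  filter_upwards [h1, h2, h3] with z h1 h2 h3 hz i
  push Not at hz
  have hb : S.b i z = 0 := by
    unfold St.b
    rw [D_eq_zero_of_notMem _ fun h' => by obtain ⟨j, hj⟩ := h.qu h'; exact hj (hz j)]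
    have : ∀ j, D (ev j) (D (ev j) (S.u i)) z = 0 := fun j => h3 i j (h2 i j (hz i))
    simp [this]
  have hg : S.gp i z = 0 := by
    unfold St.gp
    rw [D_eq_zero_of_notMem _ fun h' => by obtain ⟨j, hj⟩ := h.pu h'; exact hj (hz j)]
  refine ⟨hb, hg, ?_⟩
  unfold St.e St.acc
  rw [hb, hg, h1 i (hz i)]
  have : ∀ j, D (ev j) (S.u i) z = 0 := fun j => h2 i j (hz i)
  simp [this]

end Good

/-- the choice of a direction -/
lemma exists_dir {u Y E : Fin 3 → X → ℝ} (hu : ∀ i, Continuous (u i)) (hY : IsLabel u Y)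
    (hE : ∀ i, Continuous (E i)) (hEc : ∀ i, HasCompactSupport (E i)) :
    ∃ k : Fin 3 → ℝ, k ≠ 0 ∧ (∀ᵐ z : X, (∃ i, u i z ≠ 0) →
      (∑ i, k i * D et (Y i) z ≠ 0 ∧
        ∑ j, (k j + ∑ i, k i * D (ev j) (Y i) z) ^ 2 ≠ 0)) ∧
      (1 / 4) * (∑ i, k i ^ 2) * (∫ z, ∑ i, E i z ^ 2) ≤ ∫ z, (∑ i, k i * E i z) ^ 2 := by
  have hP := ae_good_dir hu hY
  have hP0 : ∀ᵐ k : Fin 3 → ℝ, k ≠ 0 := by
    rw [ae_iff]
    simp
  have hI0 : 0 ≤ ∫ z, ∑ i, E i z ^ 2 :=
    integral_nonneg fun z => Finset.sum_nonneg fun i _ => sq_nonneg _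
  have hij : ∀ i j, Integrable (fun z => E i z * E j z) := fun i j =>
    ((hE i).mul (hE j)).integrable_of_hasCompactSupport (hEc i).mul_right
  rcases hI0.eq_or_lt with hI | hI
  · obtain ⟨k, hk1, hk2⟩ := (hP0.and hP).exists
    refine ⟨k, hk1, hk2, ?_⟩
    rw [← hI, mul_zero]
    exact integral_nonneg fun z => sq_nonneg _
  · set m : Fin 3 → Fin 3 → ℝ := fun i j => ∫ z, E i z * E j z with hm
    have hq : ∀ k : Fin 3 → ℝ, ∫ z, (∑ i, k i * E i z) ^ 2 = ∑ i, ∑ j, k i * k j * m i j := by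
      intro k
      have h1 : ∀ z, (∑ i, k i * E i z) ^ 2 = ∑ i, ∑ j, k i * k j * (E i z * E j z) := by
        intro z
        rw [sq, Finset.sum_mul_sum]
        refine Finset.sum_congr rfl fun i _ => Finset.sum_congr rfl fun j _ => by ring
      simp only [h1]
      rw [integral_finsetSum _ fun i _ => integrable_finsetSum _ fun j _ =>
        (hij i j).const_mul _]
      refine Finset.sum_congr rfl fun i _ => ?_
      rw [integral_finsetSum _ fun j _ => (hij i j).const_mul _]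
      refine Finset.sum_congr rfl fun j _ => ?_
      rw [integral_const_mul]
    have hIs : ∫ z, ∑ i, E i z ^ 2 = ∑ i, m i i := by
      rw [integral_finsetSum _ fun i _ => by simpa [sq] using hij i i]
      refine Finset.sum_congr rfl fun i _ => ?_
      simp only [hm, sq]
    set I := ∫ z, ∑ i, E i z ^ 2 with hIdef
    set U : Set (Fin 3 → ℝ) := {k | (1 / 4) * (∑ i, k i ^ 2) * I < ∑ i, ∑ j, k i * k j * m i j}
      with hU
    have hUo : IsOpen U := by
      refine isOpen_lt ?_ ?_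
      · exact (continuous_const.mul (continuous_finsetSum _ fun i _ =>
          (continuous_apply i).pow 2)).mul continuous_const
      · exact continuous_finsetSum _ fun i _ => continuous_finsetSum _ fun j _ =>
          ((continuous_apply i).mul (continuous_apply j)).mul continuous_const
    have hUne : U.Nonempty := by
      have : ∃ l, I / 3 ≤ m l l := by
        by_contra hcon
        push Not at hcon
        have h3 : ∑ i, m i i < ∑ i : Fin 3, I / 3 :=
          Finset.sum_lt_sum_of_nonempty Finset.univ_nonempty fun i _ => hcon i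
        rw [← hIs] at h3
        simp at h3
        linarith
      obtain ⟨l, hl⟩ := this
      refine ⟨Pi.single l 1, ?_⟩
      have e1 : ∑ i, (Pi.single l (1:ℝ) : Fin 3 → ℝ) i ^ 2 = 1 := by
        simp [Pi.single_apply]
      have e2 : ∑ i, ∑ j, (Pi.single l (1:ℝ) : Fin 3 → ℝ) i * (Pi.single l (1:ℝ) : Fin 3 → ℝ) j
          * m i j = m l l := by
        simp [Pi.single_apply]
      change (1 / 4) * _ * I < _
      rw [e1, e2]
      linarith
    have hpos := hUo.measure_pos (volume : Measure (Fin 3 → ℝ)) hUne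
    by_contra hcon
    push Not at hcon
    have hsub : U ⊆ {k | ¬ (k ≠ 0 ∧ (∀ᵐ z : X, (∃ i, u i z ≠ 0) →
      (∑ i, k i * D et (Y i) z ≠ 0 ∧
        ∑ j, (k j + ∑ i, k i * D (ev j) (Y i) z) ^ 2 ≠ 0)))} := by
      intro k hk hk2
      have h4 := hcon k hk2.1 hk2.2
      have hk' : (1 / 4) * (∑ i, k i ^ 2) * I < ∑ i, ∑ j, k i * k j * m i j := hk
      rw [hq] at h4
      linarith
    have hz : volume {k : Fin 3 → ℝ | ¬ (k ≠ 0 ∧ (∀ᵐ z : X, (∃ i, u i z ≠ 0) →
      (∑ i, k i * D et (Y i) z ≠ 0 ∧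
        ∑ j, (k j + ∑ i, k i * D (ev j) (Y i) z) ^ 2 ≠ 0)))} = 0 := by
      exact ae_iff.1 (hP0.and hP)
    exact absurd (measure_mono_null hsub hz) hpos.ne'

end

end Pool.Agent.H729R2
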