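import Pool.Agent.H729R2.Approx3

open scoped ContDiff
open Set MeasureTheory Filter Topology

namespace Pool.Agent.H729R2

noncomputable section

set_option linter.unusedSectionVars false
set_option linter.unusedVariables false

/-- size of the error -/
def ee (S : St) : ℝ := n2 (nv S.e)
/-- size of the highest derivatives -/
def mm (S : St) : ℝ := n2 (nv S.b) + n2 (nv S.gp)
/-- the force -/
def ff (S : St) (i : Fin 3) (z : X) : ℝ := S.R1 z * S.gp i z

lemma ee_nonneg (S : St) : 0 ≤ ee S := n2_nonneg _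
lemma mm_nonneg (S : St) : 0 ≤ mm S := add_nonneg (n2_nonneg _) (n2_nonneg _)

lemma O1.small {A : Set X} {F : ℕ → X → ℝ} (h : O1 A F) {η : ℝ} (hη : 0 < η) :
    ∃ N₀ : ℕ, 1 ≤ N₀ ∧ ∀ N ≥ N₀, ∀ z ∈ A, |F N z| ≤ η := by
  obtain ⟨C, h0, hC⟩ := h
  obtain ⟨N₀, hN₀⟩ := exists_nat_gt (C / η)
  refine ⟨N₀ + 1, by omega, fun N hN z hz => (hC N (by omega) z hz).trans ?_⟩
  have hN' : (N₀:ℝ) + 1 ≤ N := by exact_mod_cast hN
  have hN0 : (0:ℝ) ≤ N₀ := by positivity
  rw [div_le_iff₀ (by linarith)]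
  rw [div_lt_iff₀ hη] at hN₀
  nlinarith

variable {S : St} {k : Fin 3 → ℝ} {ζ : X → ℝ} {ε : ℝ} {K₀ : Set X}

namespace Req

variable (h : Req S k ζ ε K₀)
include h

lemma htK : tsupport ζ ⊆ K₀ := fun z hz' => by
  obtain ⟨i, hi⟩ := (h.ζt z hz').1
  exact h.good.uK i (subset_tsupport _ hi)

lemma e_mem : MemLp (nv S.e) 2 (volume : Measure X) :=
  nv_memLp (fun i => (h.good.es h.hK i).continuous) h.hK fun z hz i => h.good.e_zero hz i

lemma b_mem : MemLp (nv S.b) 2 (volume : Measure X) :=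
  nv_memLp (fun i => (h.good.bs i).continuous) h.hK fun z hz i => h.good.b_zero hz i

lemma g_mem : MemLp (nv S.gp) 2 (volume : Measure X) :=
  nv_memLp (fun i => (h.good.gps i).continuous) h.hK fun z hz i => h.good.gp_zero hz i

/-- the field `m` -/
def mf (_h : Req S k ζ ε K₀) (N : ℕ) (i : Fin 3) (z : X) : ℝ :=
  S.e i z - ζ z * edk S k z / (2 * ∑ i, k i ^ 2) *
    (1 - Real.cos (N * (phx k z - phy S.u k z))) * k i

lemma pnt_m (N : ℕ) (z : X) : (pnt S k ζ ε N z).m = vec fun i => h.mf N i z := by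
  have h1 := h.pnt_e N z
  have h2 := h.pnt_s N z
  have h3 := h.pnt_cθ N z
  unfold Pt.m
  rw [h1, h2, h3]
  ext i
  simp only [PiLp.sub_apply, PiLp.smul_apply, smul_eq_mul, vec_apply]
  rfl

lemma norm_pnt_m (N : ℕ) (z : X) : ‖(pnt S k ζ ε N z).m‖ = nv (h.mf N) z := by
  rw [h.pnt_m]; rfl

lemma edk_zero {z : X} (hz : z ∉ K₀) : edk S k z = 0 :=
  Finset.sum_eq_zero fun i _ => by rw [h.good.e_zero hz, zero_mul]

lemma mf_cont (N : ℕ) (i : Fin 3) : Continuous (h.mf N i) := by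
  have h1 := (h.good.es h.hK i).continuous
  have h2 := h.ζs.continuous
  have h3 := h.edks.continuous
  have h4 := (phx_smooth k).continuous
  have h5 := h.phys.continuous
  unfold mf
  fun_prop

lemma mf_mem (N : ℕ) : MemLp (nv (h.mf N)) 2 (volume : Measure X) :=
  nv_memLp (h.mf_cont N) h.hK fun z hz i => by
    simp [mf, h.good.e_zero hz, h.edk_zero hz]

/-- squared component -/
def Ek (_h : Req S k ζ ε K₀) (z : X) : ℝ := edk S k z ^ 2 / ∑ i, k i ^ 2

lemma κpos : 0 < ∑ i, k i ^ 2 :=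
  (Finset.sum_nonneg fun i _ => sq_nonneg (k i)).lt_of_ne h.κ0.symm

lemma Eks : ContDiff ℝ ∞ h.Ek := (h.edks.pow 2).div_const _

lemma Ek_nonneg (z : X) : 0 ≤ h.Ek z := div_nonneg (sq_nonneg _) h.κpos.le

lemma Ek_le (z : X) : h.Ek z ≤ nv S.e z ^ 2 := by
  unfold Ek edk
  rw [nv_sq, div_le_iff₀ h.κpos]
  exact Finset.sum_mul_sq_le_sq_mul_sq _ _ _

lemma Ek_cs : HasCompactSupport h.Ek :=
  HasCompactSupport.intro h.hK fun z hz => by simp [Ek, h.edk_zero hz]

lemma m_sq' (N : ℕ) (z : X) : nv (h.mf N) z ^ 2 = nv S.e z ^ 2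
    - h.Ek z * (ζ z - 3 / 8 * ζ z ^ 2)
    + h.Ek z * (ζ z - 1 / 2 * ζ z ^ 2) * Real.cos (N * (phx k z - phy S.u k z))
    + h.Ek z * (1 / 8 * ζ z ^ 2) * Real.cos (N * (2 * (phx k z - phy S.u k z))) := by
  have h1 := (h.pnt_ok N z).m_sq
  rw [h.norm_pnt_m, h.pnt_s, h.pnt_cθ, h.pnt_κ, h.pnt_e] at h1
  have h2 : (N:ℝ) * (2 * (phx k z - phy S.u k z)) = 2 * (N * (phx k z - phy S.u k z)) := by ring
  rw [h1, h2, Real.cos_two_mul]
  have h3 : ‖vec fun i => S.e i z‖ = nv S.e z := rfl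
  have h4 : (pnt S k ζ ε N z).ζ = ζ z := rfl
  rw [h3, h4]
  unfold Ek
  ring

lemma RL (g : X → ℝ) (hg : ContDiff ℝ ∞ g) (hz : ∀ z, ζ z = 0 → g z = 0) (c : ℝ) (hc : c ≠ 0) :
    ∃ C : ℝ, ∀ N : ℕ, 1 ≤ N →
      |∫ z, g z * Real.cos (N * (c * (phx k z - phy S.u k z)))| ≤ C / N := by
  have hsub : tsupport g ⊆ tsupport ζ := by
    refine closure_mono fun z hz' => ?_
    intro h0
    exact hz' (hz z h0)
  refine riemann_lebesgue hg (HasCompactSupport.of_support_subset_isCompact h.ζc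
    (subset_closure.trans hsub)) (contDiff_const.mul ((phx_smooth k).sub h.phys)) ?_
  intro z hz'
  rw [D_const_mul ((phx_smooth k).sub h.phys), D_sub (phx_smooth k) h.phys]
  beta_reduce
  rw [Dt_phx]
  refine mul_ne_zero hc ?_
  rw [zero_sub, neg_ne_zero]
  unfold phy
  rw [D_phy (h.good.lab_isLabel h.hK).smooth]
  exact (h.ζt z (hsub hz')).2.1

lemma m_int {δ₁ : ℝ} (hdir : (1 / 4) * (∑ i, k i ^ 2) * (∫ z, ∑ i, S.e i z ^ 2)
      ≤ ∫ z, (∑ i, k i * S.e i z) ^ 2)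
    (hcut : ∫ z, (1 - ζ z) * (nv S.e z ^ 2 + nv S.b z ^ 2 + nv S.gp z ^ 2) ≤ δ₁) :
    ∃ C : ℝ, ∀ N : ℕ, 1 ≤ N → n2 (nv (h.mf N)) ^ 2 ≤ 27 / 32 * ee S ^ 2 + δ₁ + C / N := by
  have hEs := h.Eks
  have hζs := h.ζs
  have hEc := h.Ek_cs
  have hζc := hζs.continuous
  have hEcont := hEs.continuous
  have he := (nv_continuous fun i => (h.good.es h.hK i).continuous)
  have hb := (nv_continuous fun i => (h.good.bs i).continuous)
  have hg := (nv_continuous fun i => (h.good.gps i).continuous)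
  have hz : ∀ z, z ∉ K₀ → nv S.e z = 0 ∧ nv S.b z = 0 ∧ nv S.gp z = 0 := fun z hz =>
    ⟨nv_zero fun i => h.good.e_zero hz i, nv_zero fun i => h.good.b_zero hz i,
      nv_zero fun i => h.good.gp_zero hz i⟩
  obtain ⟨C1, hC1⟩ := h.RL (fun z => h.Ek z * (ζ z - 1 / 2 * ζ z ^ 2))
    (hEs.mul (hζs.sub (contDiff_const.mul (hζs.pow 2)))) (fun z hz => by simp [hz]) 1 one_ne_zero
  obtain ⟨C2, hC2⟩ := h.RL (fun z => h.Ek z * (1 / 8 * ζ z ^ 2))
    (hEs.mul (contDiff_const.mul (hζs.pow 2))) (fun z hz => by simp [hz]) 2 two_ne_zero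
  refine ⟨C1 + C2, fun N hN => ?_⟩
  have a1 := hC1 N hN
  have a2 := hC2 N hN
  simp only [one_mul] at a1
  rw [n2_sq (h.mf_mem N)]
  simp only [h.m_sq']
  set I1 := ∫ z, h.Ek z * (ζ z - 1 / 2 * ζ z ^ 2) * Real.cos (N * (phx k z - phy S.u k z)) with hI1
  set I2 := ∫ z, h.Ek z * (1 / 8 * ζ z ^ 2) * Real.cos (N * (2 * (phx k z - phy S.u k z))) with hI2
  have cx := (phx_smooth k).continuous
  have cy := h.phys.continuous
  have i0 : Integrable (fun z => nv S.e z ^ 2) := by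
    refine Continuous.integrable_of_hasCompactSupport (he.pow 2)
      (HasCompactSupport.intro h.hK fun z hz' => ?_)
    simp [(hz z hz').1]
  have i1 : Integrable (fun z => h.Ek z * (ζ z - 3 / 8 * ζ z ^ 2)) :=
    Continuous.integrable_of_hasCompactSupport (by fun_prop) hEc.mul_right
  have i2 : Integrable (fun z => h.Ek z * (ζ z - 1 / 2 * ζ z ^ 2) *
      Real.cos (N * (phx k z - phy S.u k z))) :=
    Continuous.integrable_of_hasCompactSupport (by fun_prop) (hEc.mul_right.mul_right)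
  have i3 : Integrable (fun z => h.Ek z * (1 / 8 * ζ z ^ 2) *
      Real.cos (N * (2 * (phx k z - phy S.u k z)))) :=
    Continuous.integrable_of_hasCompactSupport (by fun_prop) (hEc.mul_right.mul_right)
  have i01 : Integrable (fun z => nv S.e z ^ 2 - h.Ek z * (ζ z - 3 / 8 * ζ z ^ 2)) := i0.sub i1
  have i012 : Integrable (fun z => nv S.e z ^ 2 - h.Ek z * (ζ z - 3 / 8 * ζ z ^ 2)
      + h.Ek z * (ζ z - 1 / 2 * ζ z ^ 2) * Real.cos (N * (phx k z - phy S.u k z))) := i01.add i2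
  rw [integral_add i012 i3, integral_add i01 i2, integral_sub i0 i1]
  have hee : ∫ z, nv S.e z ^ 2 = ee S ^ 2 := (n2_sq h.e_mem).symm
  rw [hee, ← hI1, ← hI2]
  -- main term
  have iE : Integrable h.Ek := hEcont.integrable_of_hasCompactSupport hEc
  have iEζ : Integrable (fun z => (1 - ζ z) * h.Ek z) :=
    Continuous.integrable_of_hasCompactSupport (by fun_prop) hEc.mul_left
  have m1 : (5 / 8) * (∫ z, h.Ek z) - (5 / 8) * (∫ z, (1 - ζ z) * h.Ek z)
      ≤ ∫ z, h.Ek z * (ζ z - 3 / 8 * ζ z ^ 2) := by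
    rw [← integral_const_mul, ← integral_const_mul, ← integral_sub (iE.const_mul _)
      (iEζ.const_mul _)]
    refine integral_mono ((iE.const_mul _).sub (iEζ.const_mul _)) i1 fun z => ?_
    have h0 := h.ζ0 z
    have h1 := h.ζ1 z
    have h2 := h.Ek_nonneg z
    have h3 : 5 / 8 * ζ z ≤ ζ z - 3 / 8 * ζ z ^ 2 := by nlinarith
    have h4 := mul_le_mul_of_nonneg_left h3 h2
    beta_reduce
    linarith
  have m2 : ∫ z, (1 - ζ z) * h.Ek z ≤ δ₁ := by
    refine le_trans (integral_mono iEζ ?_ fun z => ?_) hcut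
    · refine Continuous.integrable_of_hasCompactSupport (by fun_prop)
        (HasCompactSupport.intro h.hK fun z hz' => ?_)
      obtain ⟨q1, q2, q3⟩ := hz z hz'
      simp [q1, q2, q3]
    · refine mul_le_mul_of_nonneg_left ?_ (by linarith [h.ζ1 z])
      have := h.Ek_le z
      nlinarith [sq_nonneg (nv S.b z), sq_nonneg (nv S.gp z)]
  have m3 : (1 / 4) * ee S ^ 2 ≤ ∫ z, h.Ek z := by
    have e1 : ∫ z, h.Ek z = (∫ z, (∑ i, k i * S.e i z) ^ 2) / ∑ i, k i ^ 2 := by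
      rw [← integral_div]
      refine integral_congr_ae (Eventually.of_forall fun z => ?_)
      unfold Ek edk
      simp only [mul_comm]
    have e2 : ∫ z, ∑ i, S.e i z ^ 2 = ee S ^ 2 := by
      rw [← hee]
      simp only [nv_sq]
    rw [e2] at hdir
    rw [e1, le_div_iff₀ h.κpos]
    linarith
  have a1' := (abs_le.1 a1).2
  have a2' := (abs_le.1 a2).2
  rw [add_div]
  have h0 : 0 ≤ δ₁ := by
    refine le_trans (integral_nonneg fun z => ?_) m2
    exact mul_nonneg (by linarith [h.ζ1 z]) (h.Ek_nonneg z)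
  linarith

end Req

end

end Pool.Agent.H729R2
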