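import Pool.Agent.H729R2.Step

open scoped ContDiff
open Set MeasureTheory Filter Topology

namespace Pool.Agent.H729R2

noncomputable section

set_option linter.unusedSectionVars false
set_option linter.unusedVariables false

lemma O1.small3 {A : Set X} {F : Fin 3 → ℕ → X → ℝ} (h : ∀ i, O1 A (F i)) {η : ℝ} (hη : 0 < η) :
    ∃ N₀ : ℕ, 1 ≤ N₀ ∧ ∀ N ≥ N₀, ∀ z ∈ A, ∀ i, |F i N z| ≤ η := by
  choose N₀ h1 h2 using fun i => (h i).small hη
  refine ⟨N₀ 0 + N₀ 1 + N₀ 2, by have := h1 0; omega, fun N hN z hz i => h2 i N ?_ z hz⟩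
  fin_cases i <;> simp only [Fin.zero_eta, Fin.mk_one, Fin.reduceFinMk] <;> omega

/-- comparison of the norm of a field with a model -/
lemma nv_le_of {F : Fin 3 → X → ℝ} {z : X} {v : E3} {η : ℝ} (h : ∀ i, |F i z - v i| ≤ η) :
    nv F z ≤ ‖v‖ + 2 * η := by
  have h1 : vec (fun i => F i z) = v + vec (fun i => F i z - v i) := by
    ext i; simp
  unfold nv
  rw [h1]
  exact (norm_add_le _ _).trans (add_le_add le_rfl (norm_vec_le h))

theorem step {T₀ : ℝ} {K₀ : Set X} (hK : IsCompact K₀) (hKT : K₀ ⊆ slab T₀) {S : St}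
    (hg : Good K₀ S) {ε δ : ℝ} (hε : 0 < ε) (hε1 : ε ≤ 1 / 10) (hδ : 0 < δ)
    (hlo : ∀ x, 1 / 2 ≤ S.r x * (1 - ε)) (hhi : ∀ x, S.r x * (1 + ε) ≤ 2) :
    ∃ S' : St, Good K₀ S' ∧
      ee S' ≤ (92 / 100 + ε) * ee S + 2 * ε ^ 2 * mm S + δ ∧
      mm S' ≤ (1 + 5 * ε) * mm S + 5 / ε * ee S + δ ∧
      n2 (nv (fun i z => ff S' i z - ff S i z)) ≤ 2 * ε * mm S + 5 / ε * ee S + δ ∧
      (∀ i z, |S'.u i z - S.u i z| ≤ δ) ∧
      (∀ i j z, |D (ev j) (S'.u i) z - D (ev j) (S.u i) z| ≤ δ) ∧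
      (∀ i z, |D et (S'.u i) z - D et (S.u i) z| ≤ δ) ∧
      (∀ x, |S'.r x - S.r x| ≤ ε * S.r x) ∧
      (∀ z ∈ slab T₀, |S'.R2 z - S.R2 z| ≤ 2 * ε + δ) := by
  have hY := hg.lab_isLabel hK
  have hEc : ∀ i, HasCompactSupport (S.e i) := fun i =>
    HasCompactSupport.intro hK fun z hz => hg.e_zero hz i
  obtain ⟨k, hk0, hae, hdir⟩ := exists_dir (u := S.u) (fun i => (hg.hu i).continuous) hY
    (E := S.e) (fun i => (hg.es hK i).continuous) hEc
  -- the open set and the cutoff
  set O : Set X := {z | (∃ i, S.u i z ≠ 0) ∧ (∑ i, k i * D et (lab S.u i) z ≠ 0 ∧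
        ∑ j, (k j + ∑ i, k i * D (ev j) (lab S.u i) z) ^ 2 ≠ 0)} with hO
  have hOo : IsOpen O := by
    have c1 : Continuous fun z => ∑ i, k i * D et (lab S.u i) z :=
      continuous_finsetSum _ fun i _ => continuous_const.mul (D_smooth (hY.smooth i) et).continuous
    have c2 : Continuous fun z => ∑ j, (k j + ∑ i, k i * D (ev j) (lab S.u i) z) ^ 2 :=
      continuous_finsetSum _ fun j _ => (continuous_const.add (continuous_finsetSum _ fun i _ =>
        continuous_const.mul (D_smooth (hY.smooth i) (ev j)).continuous)).pow 2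
    have e1 : {z | ∃ i, S.u i z ≠ 0} = ⋃ i, {z | S.u i z ≠ 0} := by ext z; simp
    have o1 : IsOpen {z | ∃ i, S.u i z ≠ 0} := by
      rw [e1]
      exact isOpen_iUnion fun i => isOpen_ne_fun (hg.hu i).continuous continuous_const
    exact o1.inter ((isOpen_ne_fun c1 continuous_const).inter (isOpen_ne_fun c2 continuous_const))
  have he := (nv_continuous fun i => (hg.es hK i).continuous)
  have hb := (nv_continuous fun i => (hg.bs i).continuous)
  have hgp := (nv_continuous fun i => (hg.gps i).continuous)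
  obtain ⟨ζ, hζs, hζc, hζO, hζ0, hζ1, hcut⟩ := exists_cutoff hOo
    (G := fun z => nv S.e z ^ 2 + nv S.b z ^ 2 + nv S.gp z ^ 2)
    (by fun_prop) (fun z => by positivity)
    (HasCompactSupport.intro hK fun z hz => by
      rw [nv_zero fun i => hg.e_zero hz i, nv_zero fun i => hg.b_zero hz i,
        nv_zero fun i => hg.gp_zero hz i]
      norm_num)
    (by
      filter_upwards [hae, hg.ae_zero] with z h1 h2 h3
      by_cases hz : ∃ i, S.u i z ≠ 0
      · exact absurd ⟨hz, h1 hz⟩ h3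
      · rw [nv_zero fun i => (h2 hz i).2.2, nv_zero fun i => (h2 hz i).1,
          nv_zero fun i => (h2 hz i).2.1]
        norm_num)
    (δ := (δ / 6) ^ 2) (by positivity)
  have h : Req S k ζ ε K₀ :=
    { good := hg, hK := hK, k0 := hk0, ζs := hζs, ζc := hζc, ζt := fun z hz => hζO hz
      ζ0 := hζ0, ζ1 := hζ1, ε0 := hε, ε1 := hε1 }
  obtain ⟨w, π, C, m⟩ := h.exists_mic
  obtain ⟨C1, hC1⟩ := h.m_int hdir hcut
  -- smallness
  set η : ℝ := δ / (12 * (vK K₀ + 1)) with hη
  have hvK := vK_nonneg K₀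
  have hη0 : 0 < η := by positivity
  have hηv : η * vK K₀ ≤ δ / 12 := by
    have h1 : η * (12 * (vK K₀ + 1)) = δ := by rw [hη]; field_simp
    nlinarith
  have hηδ : η ≤ δ := by
    have h1 : η * (12 * (vK K₀ + 1)) = δ := by rw [hη]; field_simp
    nlinarith
  obtain ⟨N1, -, hN1⟩ := m.good h hlo hhi
  obtain ⟨N2, -, hN2⟩ := O1.small3 (m.e_close h hKT) hη0
  obtain ⟨N3, -, hN3⟩ := O1.small3 (m.b_close h) hη0
  obtain ⟨N4, -, hN4⟩ := O1.small3 (m.gp_close h) (η := η / 3) (by positivity)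
  obtain ⟨N5, -, hN5⟩ := (m.R2_close h T₀).small hδ
  obtain ⟨N6, hN6⟩ := exists_nat_gt (C / δ)
  obtain ⟨N7, hN7⟩ := exists_nat_gt (C1 / (δ / 6) ^ 2)
  set N : ℕ := N1 + N2 + N3 + N4 + N5 + N6 + N7 + 1 with hN
  have hN1' : 1 ≤ N := by omega
  have hNr : (1:ℝ) ≤ N := by exact_mod_cast hN1'
  have hN6' : (N6:ℝ) ≤ N := by
    have : N6 ≤ N := by omega
    exact_mod_cast this
  have hN7' : (N7:ℝ) ≤ N := by
    have : N7 ≤ N := by omega
    exact_mod_cast this
  have hCN : C / N ≤ δ := by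
    rw [div_le_iff₀ (by linarith)]
    rw [div_lt_iff₀ hδ] at hN6
    nlinarith
  have hCN1 : C1 / N ≤ (δ / 6) ^ 2 := by
    rw [div_le_iff₀ (by linarith)]
    rw [div_lt_iff₀ (by positivity)] at hN7
    nlinarith [sq_nonneg (δ / 6)]
  set S' := nst S k ζ ε (w N) (π N) N with hS'
  have hg' : Good K₀ S' := hN1 N (by omega)
  set ind : X → ℝ := K₀.indicator fun _ => (1:ℝ) with hind
  have hindm : MemLp ind 2 (volume : Measure X) := memLp_ind hK
  have hind1 : ∀ z ∈ K₀, ind z = 1 := fun z hz => by simp [hind, hz]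
  have hind0 : ∀ z, z ∉ K₀ → ind z = 0 := fun z hz => by simp [hind, hz]
  have hnind : n2 ind = vK K₀ := rfl
  have hem := h.e_mem
  have hbm := h.b_mem
  have hgm := h.g_mem
  have hζc' := hζs.continuous
  -- the cut off parts
  have hcutm : ∀ {f : X → ℝ}, Continuous f → (∀ z, z ∉ K₀ → f z = 0) →
      MemLp (fun z => (1 - ζ z) * f z) 2 (volume : Measure X) := by
    intro f hf hf0
    refine memLp_cc (by fun_prop) (HasCompactSupport.intro hK fun z hz => ?_)
    simp [hf0 z hz]
  have hcutb : ∀ {f : X → ℝ}, Continuous f → (∀ z, z ∉ K₀ → f z = 0) →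
      (∀ z, f z ^ 2 ≤ nv S.e z ^ 2 + nv S.b z ^ 2 + nv S.gp z ^ 2) →
      n2 (fun z => (1 - ζ z) * f z) ≤ δ / 6 := by
    intro f hf hf0 hfle
    refine abs_le_of_sq_le_sq' ?_ (by positivity) |>.2
    rw [n2_sq (hcutm hf hf0)]
    refine le_trans (integral_mono ?_ ?_ fun z => ?_) hcut
    · refine Continuous.integrable_of_hasCompactSupport (by fun_prop)
        (HasCompactSupport.intro hK fun z hz => ?_)
      simp [hf0 z hz]
    · refine Continuous.integrable_of_hasCompactSupport (by fun_prop)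
        (HasCompactSupport.intro hK fun z hz => ?_)
      rw [nv_zero fun i => hg.e_zero hz i, nv_zero fun i => hg.b_zero hz i,
        nv_zero fun i => hg.gp_zero hz i]
      norm_num
    · have h0 := hζ0 z
      have h1 := hζ1 z
      have h2 := hfle z
      have h3 : (1 - ζ z) ^ 2 ≤ 1 - ζ z := by nlinarith
      calc ((1 - ζ z) * f z) ^ 2 = (1 - ζ z) ^ 2 * f z ^ 2 := by ring
        _ ≤ (1 - ζ z) * f z ^ 2 := mul_le_mul_of_nonneg_right h3 (sq_nonneg _)
        _ ≤ _ := mul_le_mul_of_nonneg_left h2 (by linarith)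
  have hbz : ∀ z, z ∉ K₀ → nv S.b z = 0 := fun z hz => nv_zero fun i => hg.b_zero hz i
  have hgz : ∀ z, z ∉ K₀ → nv S.gp z = 0 := fun z hz => nv_zero fun i => hg.gp_zero hz i
  have hez : ∀ z, z ∉ K₀ → nv S.e z = 0 := fun z hz => nv_zero fun i => hg.e_zero hz i
  have hcb := hcutb hb hbz fun z => by nlinarith [sq_nonneg (nv S.e z), sq_nonneg (nv S.gp z)]
  have hcg := hcutb hgp hgz fun z => by nlinarith [sq_nonneg (nv S.e z), sq_nonneg (nv S.b z)]
  have hcbm := hcutm hb hbz
  have hcgm := hcutm hgp hgz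
  -- the main part
  have hmain : n2 (nv (h.mf N)) ≤ 92 / 100 * ee S + δ / 3 := by
    refine abs_le_of_sq_le_sq' ?_ (by have := ee_nonneg S; positivity) |>.2
    have h1 := hC1 N hN1'
    have h2 := ee_nonneg S
    nlinarith
  have hee0 := ee_nonneg S
  have hmm0 := mm_nonneg S
  -- sizes
  have hε2 : 2 ≤ 1 / ε := by
    rw [le_div_iff₀ hε]; linarith
  refine ⟨S', hg', ?_, ?_, ?_, ?_, ?_, ?_, ?_, ?_⟩
  · -- error
    have hpt : ∀ z, |nv S'.e z| ≤ ∑ l, (![1, ε, 2 * ε ^ 2, 2 * ε ^ 2, 2 * ε, 2 * ε, 2 * η] :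
        Fin 7 → ℝ) l * (![nv (h.mf N), nv S.e, nv S.b, nv S.gp, fun z => (1 - ζ z) * nv S.b z,
          fun z => (1 - ζ z) * nv S.gp z, ind] : Fin 7 → X → ℝ) l z := by
      intro z
      rw [abs_of_nonneg (nv_nonneg _ _)]
      simp only [Fin.sum_univ_seven]
      change _ ≤ 1 * nv (h.mf N) z + ε * nv S.e z + 2 * ε ^ 2 * nv S.b z + 2 * ε ^ 2 * nv S.gp z
        + 2 * ε * ((1 - ζ z) * nv S.b z) + 2 * ε * ((1 - ζ z) * nv S.gp z) + 2 * η * ind z
      by_cases hz : z ∈ K₀
      · rw [hind1 z hz]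
        have h1 := nv_le_of (F := S'.e) (z := z) (v := (pnt S k ζ ε N z).et')
          (fun i => hN2 N (by omega) z hz i)
        have h2 := (h.pnt_ok N z).err_le
        have h3 := h.norm_pnt_m N z
        have h4 : ‖(pnt S k ζ ε N z).e‖ = nv S.e z := by rw [h.pnt_e]; rfl
        have h5 : ‖(pnt S k ζ ε N z).b‖ = nv S.b z := rfl
        have h6 : ‖(pnt S k ζ ε N z).g‖ = nv S.gp z := rfl
        have h7 : (pnt S k ζ ε N z).ε = ε := rfl
        have h8 : (pnt S k ζ ε N z).ζ = ζ z := rfl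
        rw [h4, h5, h6, h7, h8] at h2
        have h9 : ‖(pnt S k ζ ε N z).et'‖ ≤ ‖(pnt S k ζ ε N z).m‖
            + ‖(pnt S k ζ ε N z).et' - (pnt S k ζ ε N z).m‖ := by
          have := norm_add_le (pnt S k ζ ε N z).m ((pnt S k ζ ε N z).et' - (pnt S k ζ ε N z).m)
          rwa [add_sub_cancel] at this
        rw [h3] at h9
        linarith
      · rw [nv_zero fun i => hg'.e_zero hz i, hind0 z hz, hez z hz, hbz z hz, hgz z hz]
        have := nv_nonneg (h.mf N) z
        linarith
    have := n2_le_lin (n := 7)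
      (c := ![1, ε, 2 * ε ^ 2, 2 * ε ^ 2, 2 * ε, 2 * ε, 2 * η])
      (g := ![nv (h.mf N), nv S.e, nv S.b, nv S.gp, fun z => (1 - ζ z) * nv S.b z,
          fun z => (1 - ζ z) * nv S.gp z, ind])
      (by intro l; fin_cases l <;> simp <;> positivity)
      (by
        intro l
        fin_cases l
        · exact h.mf_mem N
        · exact hem
        · exact hbm
        · exact hgm
        · exact hcbm
        · exact hcgm
        · exact hindm) hpt
    simp only [Fin.sum_univ_seven] at this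
    change ee S' ≤ 1 * n2 (nv (h.mf N)) + ε * n2 (nv S.e) + 2 * ε ^ 2 * n2 (nv S.b)
      + 2 * ε ^ 2 * n2 (nv S.gp) + 2 * ε * n2 (fun z => (1 - ζ z) * nv S.b z)
      + 2 * ε * n2 (fun z => (1 - ζ z) * nv S.gp z) + 2 * η * n2 ind at this
    rw [hnind] at this
    have e1 : n2 (nv S.e) = ee S := rfl
    have e2 : mm S = n2 (nv S.b) + n2 (nv S.gp) := rfl
    rw [e1] at this
    rw [e2]
    have f1 : 2 * ε * n2 (fun z => (1 - ζ z) * nv S.b z) ≤ 2 * (1 / 10) * (δ / 6) :=
      mul_le_mul (by linarith) hcb (n2_nonneg _) (by norm_num)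
    have f2 : 2 * ε * n2 (fun z => (1 - ζ z) * nv S.gp z) ≤ 2 * (1 / 10) * (δ / 6) :=
      mul_le_mul (by linarith) hcg (n2_nonneg _) (by norm_num)
    linarith
  · -- size
    have hpt : ∀ z, |nv S'.b z| ≤ ∑ l, (![1 + ε, 4 * ε, 2 / ε + 2, 2 * η] :
        Fin 4 → ℝ) l * (![nv S.b, nv S.gp, nv S.e, ind] : Fin 4 → X → ℝ) l z := by
      intro z
      rw [abs_of_nonneg (nv_nonneg _ _)]
      simp only [Fin.sum_univ_four]
      change _ ≤ (1 + ε) * nv S.b z + 4 * ε * nv S.gp z + (2 / ε + 2) * nv S.e z + 2 * η * ind z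
      by_cases hz : z ∈ K₀
      · rw [hind1 z hz]
        have h1 := nv_le_of (F := S'.b) (z := z) (v := (pnt S k ζ ε N z).b + (pnt S k ζ ε N z).G)
          (fun i => hN3 N (by omega) z hz i)
        have h2 := (h.pnt_ok N z).bG_le
        have h4 : ‖(pnt S k ζ ε N z).e‖ = nv S.e z := by rw [h.pnt_e]; rfl
        have h5 : ‖(pnt S k ζ ε N z).b‖ = nv S.b z := rfl
        have h6 : ‖(pnt S k ζ ε N z).g‖ = nv S.gp z := rfl
        have h7 : (pnt S k ζ ε N z).ε = ε := rfl
        rw [h4, h5, h6, h7] at h2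
        linarith
      · rw [nv_zero fun i => hg'.b_zero hz i, hind0 z hz, hez z hz, hbz z hz, hgz z hz]
        norm_num
    have hpt2 : ∀ z, |nv S'.gp z| ≤ ∑ l, (![1, 2 / ε, 2 * η] :
        Fin 3 → ℝ) l * (![nv S.gp, nv S.e, ind] : Fin 3 → X → ℝ) l z := by
      intro z
      rw [abs_of_nonneg (nv_nonneg _ _)]
      simp only [Fin.sum_univ_three]
      change _ ≤ 1 * nv S.gp z + 2 / ε * nv S.e z + 2 * η * ind z
      by_cases hz : z ∈ K₀
      · rw [hind1 z hz]
        have h1 := nv_le_of (F := S'.gp) (z := z) (v := (pnt S k ζ ε N z).g +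
          ((pnt S k ζ ε N z).Q * (pnt S k ζ ε N z).cx) • (pnt S k ζ ε N z).k) (η := η)
          (fun i => by
            have h0 := hN4 N (by omega) z hz i
            have hQ := h.pnt_Q N z
            rw [hQ]
            refine (le_of_eq ?_).trans (h0.trans (by linarith))
            rfl)
        have h2 := (h.pnt_ok N z).gQ_le
        have h4 : ‖(pnt S k ζ ε N z).e‖ = nv S.e z := by rw [h.pnt_e]; rfl
        have h6 : ‖(pnt S k ζ ε N z).g‖ = nv S.gp z := rfl
        have h7 : (pnt S k ζ ε N z).ε = ε := rfl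
        rw [h4, h6, h7] at h2
        linarith
      · rw [nv_zero fun i => hg'.gp_zero hz i, hind0 z hz, hez z hz, hgz z hz]
        norm_num
    have t1 := n2_le_lin (n := 4)
      (c := ![1 + ε, 4 * ε, 2 / ε + 2, 2 * η])
      (g := ![nv S.b, nv S.gp, nv S.e, ind])
      (by intro l; fin_cases l <;> simp <;> positivity)
      (by
        intro l
        fin_cases l
        · exact hbm
        · exact hgm
        · exact hem
        · exact hindm) hpt
    have t2 := n2_le_lin (n := 3)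
      (c := ![1, 2 / ε, 2 * η])
      (g := ![nv S.gp, nv S.e, ind])
      (by intro l; fin_cases l <;> simp <;> positivity)
      (by
        intro l
        fin_cases l
        · exact hgm
        · exact hem
        · exact hindm) hpt2
    simp only [Fin.sum_univ_four] at t1
    simp only [Fin.sum_univ_three] at t2
    change n2 (nv S'.b) ≤ (1 + ε) * n2 (nv S.b) + 4 * ε * n2 (nv S.gp) + (2 / ε + 2) * n2 (nv S.e)
      + 2 * η * n2 ind at t1
    change n2 (nv S'.gp) ≤ 1 * n2 (nv S.gp) + 2 / ε * n2 (nv S.e) + 2 * η * n2 ind at t2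
    rw [hnind] at t1 t2
    have e1 : n2 (nv S.e) = ee S := rfl
    have e2 : mm S = n2 (nv S.b) + n2 (nv S.gp) := rfl
    have e3 : mm S' = n2 (nv S'.b) + n2 (nv S'.gp) := rfl
    rw [e1] at t1 t2
    rw [e2, e3]
    have f0 := n2_nonneg (nv S.b)
    have f00 := n2_nonneg (nv S.gp)
    have f1 : 2 * ee S ≤ 1 / ε * ee S := mul_le_mul_of_nonneg_right hε2 hee0
    have f2 : 5 / ε * ee S = 5 * (1 / ε * ee S) := by ring
    have f3 : 2 / ε * ee S = 2 * (1 / ε * ee S) := by ring
    have f4 : (2 / ε + 2) * ee S = 2 * (1 / ε * ee S) + 2 * ee S := by ring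
    rw [f2]
    rw [f3] at t2
    rw [f4] at t1
    have f5 : 0 ≤ ε * n2 (nv S.b) := by positivity
    have f6 : 0 ≤ ε * n2 (nv S.gp) := by positivity
    linarith
  · -- force
    have hpt : ∀ z, |nv (fun i z => ff S' i z - ff S i z) z| ≤ ∑ l, (![2 * ε, 2 / ε, 2 * η] :
        Fin 3 → ℝ) l * (![nv S.gp, nv S.e, ind] : Fin 3 → X → ℝ) l z := by
      intro z
      rw [abs_of_nonneg (nv_nonneg _ _)]
      simp only [Fin.sum_univ_three]
      change _ ≤ 2 * ε * nv S.gp z + 2 / ε * nv S.e z + 2 * η * ind z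
      by_cases hz : z ∈ K₀
      · rw [hind1 z hz]
        have h1 := nv_le_of (F := fun i z => ff S' i z - ff S i z) (z := z)
          (v := ((pnt S k ζ ε N z).R1 * (1 + (pnt S k ζ ε N z).ε * (pnt S k ζ ε N z).cx)) •
            ((pnt S k ζ ε N z).g + ((pnt S k ζ ε N z).Q * (pnt S k ζ ε N z).cx) •
            (pnt S k ζ ε N z).k) - (pnt S k ζ ε N z).R1 • (pnt S k ζ ε N z).g) (η := η)
          (fun i => by
            have h0 := hN4 N (by omega) z hz i
            have hQ := h.pnt_Q N z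
            rw [hQ]
            have e1 : ff S' i z - ff S i z - (((pnt S k ζ ε N z).R1 * (1 + (pnt S k ζ ε N z).ε *
              (pnt S k ζ ε N z).cx)) • ((pnt S k ζ ε N z).g + (Qf S k ζ ε z *
              (pnt S k ζ ε N z).cx) • (pnt S k ζ ε N z).k) -
              (pnt S k ζ ε N z).R1 • (pnt S k ζ ε N z).g : E3) i
              = (S.R1 z * (1 + ε * Real.cos (N * phx k z))) *
                (S'.gp i z - (S.gp i z + Qf S k ζ ε z * Real.cos (N * phx k z) * k i)) := by
              have g1 : ff S' i z = S.R1 z * (1 + ε * Real.cos (N * phx k z)) * S'.gp i z := rfl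
              have g2 : ff S i z = S.R1 z * S.gp i z := rfl
              rw [g1, g2]
              simp only [PiLp.add_apply, PiLp.sub_apply, PiLp.smul_apply, smul_eq_mul]
              simp only [pnt, vec_apply]
              ring
            rw [e1, abs_mul, abs_mul]
            have b1 : |S.R1 z| ≤ 2 := abs_le.2 ⟨by linarith [h.R1lo z], h.R1hi z⟩
            have b2 : |1 + ε * Real.cos (N * phx k z)| ≤ 3 / 2 := by
              refine (abs_add_le _ _).trans ?_
              rw [abs_one, abs_mul, abs_of_pos hε]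
              have := mul_le_mul hε1 (Real.abs_cos_le_one (N * phx k z)) (abs_nonneg _)
                (by norm_num)
              linarith
            have b3 : |S.R1 z| * |1 + ε * Real.cos (N * phx k z)| ≤ 2 * (3 / 2) :=
              mul_le_mul b1 b2 (abs_nonneg _) (by norm_num)
            have b4 := mul_le_mul b3 h0 (abs_nonneg _) (by norm_num)
            linarith)
        have h2 := (h.pnt_ok N z).df_le
        have h4 : ‖(pnt S k ζ ε N z).e‖ = nv S.e z := by rw [h.pnt_e]; rfl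
        have h6 : ‖(pnt S k ζ ε N z).g‖ = nv S.gp z := rfl
        have h7 : (pnt S k ζ ε N z).ε = ε := rfl
        rw [h4, h6] at h2
        rw [h7] at h1 h2
        linarith
      · have : nv (fun i z => ff S' i z - ff S i z) z = 0 := nv_zero fun i => by
          simp [ff, hg'.gp_zero hz, hg.gp_zero hz]
        rw [this, hind0 z hz, hez z hz, hgz z hz]
        norm_num
    have t2 := n2_le_lin (n := 3)
      (c := ![2 * ε, 2 / ε, 2 * η])
      (g := ![nv S.gp, nv S.e, ind])
      (by intro l; fin_cases l <;> simp <;> positivity)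
      (by
        intro l
        fin_cases l
        · exact hgm
        · exact hem
        · exact hindm) hpt
    simp only [Fin.sum_univ_three] at t2
    change n2 (nv (fun i z => ff S' i z - ff S i z)) ≤ 2 * ε * n2 (nv S.gp) + 2 / ε * n2 (nv S.e)
      + 2 * η * n2 ind at t2
    rw [hnind] at t2
    have e1 : n2 (nv S.e) = ee S := rfl
    have e2 : mm S = n2 (nv S.b) + n2 (nv S.gp) := rfl
    rw [e1] at t2
    rw [e2]
    have f0 := n2_nonneg (nv S.b)
    have f2 : 5 / ε * ee S = 5 * (1 / ε * ee S) := by ring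
    have f3 : 2 / ε * ee S = 2 * (1 / ε * ee S) := by ring
    rw [f2]
    rw [f3] at t2
    have f5 : 0 ≤ ε * n2 (nv S.b) := by positivity
    have f6 : 0 ≤ 1 / ε * ee S := by positivity
    linarith
  · intro i z
    have h1 := m.w0 N hN1' i z
    have h2 : S'.u i z - S.u i z = w N i z := by simp [hS', nst]
    rw [h2]
    refine h1.trans (le_trans ?_ hCN)
    exact div_le_div_of_nonneg_left m.C0 (by linarith) (by nlinarith)
  · intro i j z
    have h1 := m.wx N hN1' i j z
    have h2 : D (ev j) (S'.u i) z = D (ev j) (S.u i) z + D (ev j) (w N i) z :=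
      congrFun (D_add (hg.hu i) (m.ws N i) (ev j)) z
    rw [h2, add_sub_cancel_left]
    exact h1.trans hCN
  · intro i z
    have h1 := m.wt N hN1' i z
    have h2 : D et (S'.u i) z = D et (S.u i) z + D et (w N i) z :=
      congrFun (D_add (hg.hu i) (m.ws N i) et) z
    rw [h2, add_sub_cancel_left]
    exact h1.trans hCN
  · intro x
    have h1 : S'.r x - S.r x = S.r x * (ε * Real.cos (N * ∑ i, k i * x i)) := by
      simp only [hS', nst]; ring
    have h2 := hg.rlo x
    rw [h1, abs_mul, abs_mul, abs_of_pos hε, abs_of_nonneg (by linarith : (0:ℝ) ≤ S.r x)]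
    have h3 := Real.abs_cos_le_one (N * ∑ i, k i * x i)
    have h4 : S.r x * (ε * |Real.cos (N * ∑ i, k i * x i)|) ≤ S.r x * (ε * 1) := by gcongr
    linarith
  · intro z hz
    have h1 := hN5 N (by omega) z hz
    have h2 : S'.R2 z - S.R2 z = (S'.R2 z - S.R2 z * (1 + ε * Real.cos (N * phy S.u k z)))
        + S.R2 z * (ε * Real.cos (N * phy S.u k z)) := by ring
    rw [h2]
    refine (abs_add_le _ _).trans ?_
    have h3 : |S.R2 z * (ε * Real.cos (N * phy S.u k z))| ≤ 2 * (ε * 1) := by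
      rw [abs_mul, abs_mul, abs_of_pos hε, abs_of_nonneg (by linarith [h.R2lo z] : 0 ≤ S.R2 z)]
      have h4 := Real.abs_cos_le_one (N * phy S.u k z)
      have h5 := h.R2hi z
      gcongr
    linarith

end

end Pool.Agent.H729R2
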