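import Pool.Agent.H729R2.Lim
import Pool.Agent.H729R2.Step2

open scoped ContDiff
open Set MeasureTheory Filter Topology

namespace Pool.Agent.H729R2

noncomputable section

set_option linter.unusedSectionVars false

lemma int_cc {F : X → ℝ} (hF : ContDiff ℝ ∞ F) (hc : HasCompactSupport F) :
    Integrable F (volume : Measure X) := hF.continuous.integrable_of_hasCompactSupport hc

lemma D_hcs {F : X → ℝ} (hc : HasCompactSupport F) (v : X) : HasCompactSupport (D v F) :=
  hc.mono' (subset_closure.trans (tsupport_D_subset v F))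

/-- integration by parts -/
lemma ibp {F G : X → ℝ} (hF : ContDiff ℝ ∞ F) (hG : ContDiff ℝ ∞ G) (hc : HasCompactSupport G)
    (v : X) : ∫ z, F z * D v G z = - ∫ z, D v F z * G z := by
  have h1 := integral_D_eq_zero (hF.mul hG) hc.mul_left v
  rw [D_mul hF hG] at h1
  have i1 : Integrable (fun z => D v F z * G z) (volume : Measure X) :=
    int_cc ((D_smooth hF v).mul hG) hc.mul_left
  have i2 : Integrable (fun z => F z * D v G z) (volume : Measure X) :=
    int_cc (hF.mul (D_smooth hG v)) (D_hcs hc v).mul_left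
  rw [integral_add i1 i2] at h1
  linarith

lemma ibp' {F G : X → ℝ} (hF : ContDiff ℝ ∞ F) (hG : ContDiff ℝ ∞ G) (hc : HasCompactSupport F)
    (v : X) : ∫ z, F z * D v G z = - ∫ z, D v F z * G z := by
  have := ibp hG hF hc v
  have e1 : ∫ z, G z * D v F z = ∫ z, D v F z * G z := by
    simp only [mul_comm]
  have e2 : ∫ z, D v G z * F z = ∫ z, F z * D v G z := by
    simp only [mul_comm]
  rw [e1, e2] at this
  linarith

/-- transport of functions of the labels -/
lemma transport_comp {u Y : Fin 3 → X → ℝ} (hY : IsLabel u Y) {h : E3 → ℝ} (hh : ContDiff ℝ ∞ h)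
    (z : X) : D et (fun z => h (vec fun i => Y i z)) z
      + ∑ j, u j z * D (ev j) (fun z => h (vec fun i => Y i z)) z = 0 := by
  rw [← D_fld]
  have hd : DifferentiableAt ℝ (fun z => vec fun i => Y i z) z :=
    (contDiff_vec hY.smooth).differentiable (by simp) z
  have hh' : DifferentiableAt ℝ h (vec fun i => Y i z) := hh.differentiable (by simp) _
  have h1 : HasFDerivAt (fun z => h (vec fun i => Y i z))
    ((fderiv ℝ h (vec fun i => Y i z)).comp (fderiv ℝ (fun z => vec fun i => Y i z) z)) z :=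
    hh'.hasFDerivAt.comp z hd.hasFDerivAt
  rw [h1.fderiv, ContinuousLinearMap.comp_apply]
  have h2 : fderiv ℝ (fun z => vec fun i => Y i z) z (fld u z) = 0 := by
    ext i
    have h3 : HasFDerivAt (fun z => Y i z)
        ((EuclideanSpace.proj i : E3 →L[ℝ] ℝ).comp (fderiv ℝ (fun z => vec fun i => Y i z) z)) z :=
      (EuclideanSpace.proj i : E3 →L[ℝ] ℝ).hasFDerivAt.comp z hd.hasFDerivAt
    have h4 := hY.transport i z
    rw [← D_fld] at h4
    have h5 : fderiv ℝ (Y i) z = (EuclideanSpace.proj i : E3 →L[ℝ] ℝ).comp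
      (fderiv ℝ (fun z => vec fun i => Y i z) z) := h3.fderiv
    rw [h5] at h4
    simpa using h4
  rw [h2, map_zero]

lemma weak_transport {u : Fin 3 → X → ℝ} (hu : ∀ i, ContDiff ℝ ∞ (u i))
    (hdiv : ∀ z, ∑ i, D (ev i) (u i) z = 0) {P ψ : X → ℝ} (hP : ContDiff ℝ ∞ P)
    (hT : ∀ z, D et P z + ∑ j, u j z * D (ev j) P z = 0)
    (hψ : ContDiff ℝ ∞ ψ) (hc : HasCompactSupport ψ) :
    ∫ z, P z * (D et ψ z + ∑ j, u j z * D (ev j) ψ z) = 0 := by
  have h0 := integral_D_eq_zero (hP.mul hψ) hc.mul_left et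
  have hj : ∀ j, ∫ z, D (ev j) (fun z => P z * (u j z * ψ z)) z = 0 := fun j =>
    integral_D_eq_zero (hP.mul ((hu j).mul hψ)) hc.mul_left.mul_left (ev j)
  have i0 : Integrable (D et (fun z => P z * ψ z)) (volume : Measure X) :=
    int_cc (D_smooth (hP.mul hψ) et) (D_hcs hc.mul_left et)
  have ij : ∀ j, Integrable (D (ev j) (fun z => P z * (u j z * ψ z))) (volume : Measure X) :=
    fun j => int_cc (D_smooth (hP.mul ((hu j).mul hψ)) (ev j)) (D_hcs hc.mul_left.mul_left _)
  have key : ∀ z, P z * (D et ψ z + ∑ j, u j z * D (ev j) ψ z)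
      = D et (fun z => P z * ψ z) z + ∑ j, D (ev j) (fun z => P z * (u j z * ψ z)) z := by
    intro z
    rw [D_mul hP hψ]
    have e1 : ∀ j, D (ev j) (fun z => P z * (u j z * ψ z)) z
        = (u j z * D (ev j) P z) * ψ z + (P z * ψ z) * D (ev j) (u j) z
          + P z * (u j z * D (ev j) ψ z) := by
      intro j
      rw [D_mul hP ((hu j).mul hψ), D_mul (hu j) hψ]
      ring
    rw [Finset.sum_congr rfl fun j _ => e1 j, Finset.sum_add_distrib, Finset.sum_add_distrib,
      ← Finset.sum_mul, ← Finset.mul_sum, ← Finset.mul_sum, hdiv z]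
    have e2 := hT z
    linear_combination (-ψ z) * e2
  simp only [key]
  rw [integral_add i0 (integrable_finsetSum _ fun j _ => ij j),
    integral_finsetSum _ fun j _ => ij j, h0]
  simp [hj]

/-- the density of the second solution -/
def P2 (S : St) (z : X) : ℝ := 1 / S.R2 z
/-- the density of the first solution -/
def P1 (S : St) (z : X) : ℝ := 1 / S.R1 z

namespace Good

variable {K₀ : Set X} {S : St} (h : Good K₀ S) (hK : IsCompact K₀)
include h hK

lemma P2s : ContDiff ℝ ∞ (P2 S) :=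
  contDiff_const.div (h.R2s hK) fun z => by
    have : 1 / 2 ≤ S.R2 z := h.rlo _
    linarith

lemma P1s : ContDiff ℝ ∞ (P1 S) :=
  contDiff_const.div h.R1s fun z => by
    have : 1 / 2 ≤ S.R1 z := h.rlo _
    linarith

lemma P2t (z : X) : D et (P2 S) z + ∑ j, S.u j z * D (ev j) (P2 S) z = 0 := by
  have hh : ContDiff ℝ ∞ (fun y => 1 / S.r y) :=
    contDiff_const.div h.hr fun z => by linarith [h.rlo z]
  exact transport_comp (h.lab_isLabel hK) hh z

lemma transport_eq {ψ : X → ℝ} (hψ : ContDiff ℝ ∞ ψ) (hc : HasCompactSupport ψ) :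
    ∫ z, P2 S z * (D et ψ z + ∑ j, S.u j z * D (ev j) ψ z) = 0 :=
  weak_transport h.hu h.div (h.P2s hK) (h.P2t hK) hψ hc

lemma acc_eq {φ : Fin 3 → X → ℝ} (hφ : ∀ i, ContDiff ℝ ∞ (φ i))
    (hc : ∀ i, HasCompactSupport (φ i)) (i : Fin 3) :
    ∫ z, P2 S z * (S.acc i z * φ i z)
      = - ∫ z, P2 S z * (S.u i z * (D et (φ i) z + ∑ j, S.u j z * D (ev j) (φ i) z)) := by
  have h1 := h.transport_eq hK ((h.hu i).mul (hφ i)) (hc i).mul_left
  have i1 : Integrable (fun z => P2 S z * (S.acc i z * φ i z)) (volume : Measure X) :=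
    int_cc ((h.P2s hK).mul ((h.accs i).mul (hφ i))) (hc i).mul_left.mul_left
  have i2 : Integrable (fun z => P2 S z * (S.u i z * (D et (φ i) z +
      ∑ j, S.u j z * D (ev j) (φ i) z))) (volume : Measure X) := by
    refine int_cc ((h.P2s hK).mul ((h.hu i).mul ((D_smooth (hφ i) et).add
      (ContDiff.sum fun j _ => (h.hu j).mul (D_smooth (hφ i) (ev j)))))) ?_
    exact (HasCompactSupport.mul_right (h.ucs hK i)).mul_left
  have e1 : ∀ z, P2 S z * (D et (fun z => S.u i z * φ i z) z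
      + ∑ j, S.u j z * D (ev j) (fun z => S.u i z * φ i z) z)
      = P2 S z * (S.acc i z * φ i z) + P2 S z * (S.u i z * (D et (φ i) z +
      ∑ j, S.u j z * D (ev j) (φ i) z)) := by
    intro z
    have e2 : ∀ v, D v (fun z => S.u i z * φ i z) z
        = D v (S.u i) z * φ i z + S.u i z * D v (φ i) z := fun v => by
      rw [D_mul (h.hu i) (hφ i)]
    simp only [e2]
    unfold St.acc
    have e3 : ∀ j, S.u j z * (D (ev j) (S.u i) z * φ i z + S.u i z * D (ev j) (φ i) z)
        = (S.u j z * D (ev j) (S.u i) z) * φ i z + S.u i z * (S.u j z * D (ev j) (φ i) z) :=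
      fun j => by ring
    rw [Finset.sum_congr rfl fun j _ => e3 j, Finset.sum_add_distrib, ← Finset.sum_mul,
      ← Finset.mul_sum]
    ring
  simp only [e1] at h1
  rw [integral_add i1 i2] at h1
  linarith

/-- the viscous term and the pressure -/
lemma visc_eq {φ : Fin 3 → X → ℝ} (hφ : ∀ i, ContDiff ℝ ∞ (φ i))
    (hc : ∀ i, HasCompactSupport (φ i)) (hdiv : ∀ z ∈ K₀, ∑ i, D (ev i) (φ i) z = 0) :
    ∑ i, ∫ z, S.b i z * φ i z
      = ∑ i, ∑ j, ∫ z, (D (ev j) (S.u i) z + D (ev i) (S.u j) z) * D (ev j) (φ i) z := by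
  -- first kind
  have a1 : ∀ i j, ∫ z, D (ev j) (D (ev j) (S.u i)) z * φ i z
      = - ∫ z, D (ev j) (S.u i) z * D (ev j) (φ i) z := by
    intro i j
    have := ibp (D_smooth (h.hu i) (ev j)) (hφ i) (hc i) (ev j)
    linarith
  -- second kind: vanishes after summation
  have a2 : ∑ i, ∑ j, ∫ z, D (ev i) (S.u j) z * D (ev j) (φ i) z = 0 := by
    have b1 : ∀ i j, ∫ z, D (ev i) (S.u j) z * D (ev j) (φ i) z
        = - ∫ z, D (ev i) (D (ev j) (S.u j)) z * φ i z := by
      intro i j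
      rw [ibp (D_smooth (h.hu j) (ev i)) (hφ i) (hc i) (ev j), D_comm (h.hu j)]
    have b2 : ∀ i, ∑ j, ∫ z, D (ev i) (D (ev j) (S.u j)) z * φ i z = 0 := by
      intro i
      rw [← integral_finsetSum _ fun j _ =>
        int_cc ((D_smooth (D_smooth (h.hu j) (ev j)) (ev i)).mul (hφ i)) (hc i).mul_left]
      have b3 : ∀ z, ∑ j, D (ev i) (D (ev j) (S.u j)) z * φ i z = 0 := by
        intro z
        rw [← Finset.sum_mul]
        have b4 : ∑ j, D (ev i) (D (ev j) (S.u j)) z
            = D (ev i) (fun z => ∑ j, D (ev j) (S.u j) z) z := by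
          rw [D_sum _ fun j _ => D_smooth (h.hu j) (ev j)]
        have b5 : (fun z => ∑ j, D (ev j) (S.u j) z) = fun _ => 0 := by
          ext z; exact h.div z
        rw [b4, b5, D_const]
        simp
      simp only [b3, integral_zero]
    simp only [b1, Finset.sum_neg_distrib]
    rw [Finset.sum_eq_zero fun i _ => b2 i, neg_zero]
  -- pressure
  have a3 : ∑ i, ∫ z, D (ev i) S.q z * φ i z = 0 := by
    have b1 : ∀ i, ∫ z, D (ev i) S.q z * φ i z = - ∫ z, S.q z * D (ev i) (φ i) z := by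
      intro i
      have := ibp h.hq (hφ i) (hc i) (ev i)
      linarith
    simp only [b1, Finset.sum_neg_distrib]
    rw [← integral_finsetSum _ fun i _ =>
      int_cc (h.hq.mul (D_smooth (hφ i) (ev i))) (D_hcs (hc i) _).mul_left]
    have b3 : ∀ z, ∑ i, S.q z * D (ev i) (φ i) z = 0 := by
      intro z
      rw [← Finset.mul_sum]
      by_cases hz : z ∈ K₀
      · rw [hdiv z hz, mul_zero]
      · rw [image_eq_zero_of_notMem_tsupport fun h' => hz (h.qK h'), zero_mul]
    simp only [b3, integral_zero, neg_zero]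
  have c1 : ∀ i, ∫ z, S.b i z * φ i z = (∑ j, ∫ z, D (ev j) (S.u i) z * D (ev j) (φ i) z)
      + ∫ z, D (ev i) S.q z * φ i z := by
    intro i
    have d1 : ∀ z, S.b i z * φ i z = (∑ j, - (D (ev j) (D (ev j) (S.u i)) z * φ i z))
        + D (ev i) S.q z * φ i z := by
      intro z
      unfold St.b
      rw [Finset.sum_neg_distrib, ← Finset.sum_mul]
      ring
    have j1 : ∀ j, Integrable (fun z => - (D (ev j) (D (ev j) (S.u i)) z * φ i z))
        (volume : Measure X) := fun j =>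
      (int_cc ((D_smooth (D_smooth (h.hu i) (ev j)) (ev j)).mul (hφ i)) (hc i).mul_left).neg
    simp only [d1]
    rw [integral_add (integrable_finsetSum _ fun j _ => j1 j)
      (int_cc ((D_smooth h.hq (ev i)).mul (hφ i)) (hc i).mul_left),
      integral_finsetSum _ fun j _ => j1 j]
    congr 1
    refine Finset.sum_congr rfl fun j _ => ?_
    rw [integral_neg, a1, neg_neg]
  have c2 : ∀ i j, ∫ z, (D (ev j) (S.u i) z + D (ev i) (S.u j) z) * D (ev j) (φ i) z
      = (∫ z, D (ev j) (S.u i) z * D (ev j) (φ i) z)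
        + ∫ z, D (ev i) (S.u j) z * D (ev j) (φ i) z := by
    intro i j
    simp only [add_mul]
    exact integral_add
      (int_cc ((D_smooth (h.hu i) (ev j)).mul (D_smooth (hφ i) (ev j))) (D_hcs (hc i) _).mul_left)
      (int_cc ((D_smooth (h.hu j) (ev i)).mul (D_smooth (hφ i) (ev j))) (D_hcs (hc i) _).mul_left)
  simp only [c1, c2, Finset.sum_add_distrib]
  rw [a3, a2]

/-- first solution -/
lemma first_eq {φ : Fin 3 → X → ℝ} (hφ : ∀ i, ContDiff ℝ ∞ (φ i))
    (hc : ∀ i, HasCompactSupport (φ i)) (hdiv : ∀ z ∈ K₀, ∑ i, D (ev i) (φ i) z = 0) :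
    ∑ i, ∫ z in K₀, (P1 S z * φ i z) * ff S i z = 0 := by
  have e1 : ∀ i, ∫ z in K₀, (P1 S z * φ i z) * ff S i z = ∫ z, D (ev i) S.p z * φ i z := by
    intro i
    rw [setIntegral_eq_integral_of_forall_compl_eq_zero (fun z hz => by
      simp [ff, h.gp_zero hz])]
    refine integral_congr_ae (Eventually.of_forall fun z => ?_)
    have : S.R1 z ≠ 0 := by
      have : 1 / 2 ≤ S.R1 z := h.rlo _
      linarith
    simp only [P1, ff, St.gp]
    field_simp
  simp only [e1]
  have b1 : ∀ i, ∫ z, D (ev i) S.p z * φ i z = - ∫ z, S.p z * D (ev i) (φ i) z := by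
    intro i
    have := ibp h.hp (hφ i) (hc i) (ev i)
    linarith
  simp only [b1, Finset.sum_neg_distrib]
  rw [← integral_finsetSum _ fun i _ =>
    int_cc (h.hp.mul (D_smooth (hφ i) (ev i))) (D_hcs (hc i) _).mul_left]
  have b3 : ∀ z, ∑ i, S.p z * D (ev i) (φ i) z = 0 := by
    intro z
    rw [← Finset.mul_sum]
    by_cases hz : z ∈ K₀
    · rw [hdiv z hz, mul_zero]
    · rw [image_eq_zero_of_notMem_tsupport fun h' => hz (h.pK h'), zero_mul]
  simp only [b3, integral_zero, neg_zero]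

/-- second solution -/
lemma second_eq {φ : Fin 3 → X → ℝ} (hφ : ∀ i, ContDiff ℝ ∞ (φ i))
    (hc : ∀ i, HasCompactSupport (φ i)) (hdiv : ∀ z ∈ K₀, ∑ i, D (ev i) (φ i) z = 0) :
    (∑ i, ∫ z in K₀, P2 S z * (S.u i z * (D et (φ i) z + ∑ j, S.u j z * D (ev j) (φ i) z)))
      - (∑ i, ∑ j, ∫ z in K₀, (D (ev j) (S.u i) z + D (ev i) (S.u j) z) * D (ev j) (φ i) z)
      + ∑ i, ∫ z in K₀, (P2 S z * φ i z) * ff S i z
      = - ∑ i, ∫ z in K₀, (P2 S z * φ i z) * S.e i z := by
  have hDu : ∀ i j z, z ∉ K₀ → D (ev j) (S.u i) z = 0 := fun i j z hz =>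
    D_eq_zero_of_notMem _ fun h' => hz (h.uK i h')
  have hu0 : ∀ i z, z ∉ K₀ → S.u i z = 0 := fun i z hz =>
    image_eq_zero_of_notMem_tsupport fun h' => hz (h.uK i h')
  have r1 : ∀ i, ∫ z in K₀, P2 S z * (S.u i z * (D et (φ i) z + ∑ j, S.u j z * D (ev j) (φ i) z))
      = ∫ z, P2 S z * (S.u i z * (D et (φ i) z + ∑ j, S.u j z * D (ev j) (φ i) z)) := fun i =>
    setIntegral_eq_integral_of_forall_compl_eq_zero (fun z hz => by simp [hu0 i z hz])
  have r2 : ∀ i j, ∫ z in K₀, (D (ev j) (S.u i) z + D (ev i) (S.u j) z) * D (ev j) (φ i) z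
      = ∫ z, (D (ev j) (S.u i) z + D (ev i) (S.u j) z) * D (ev j) (φ i) z := fun i j =>
    setIntegral_eq_integral_of_forall_compl_eq_zero (fun z hz => by
      simp [hDu i j z hz, hDu j i z hz])
  have r3 : ∀ i, ∫ z in K₀, (P2 S z * φ i z) * ff S i z
      = ∫ z, (P2 S z * φ i z) * ff S i z := fun i =>
    setIntegral_eq_integral_of_forall_compl_eq_zero (fun z hz => by simp [ff, h.gp_zero hz])
  have r4 : ∀ i, ∫ z in K₀, (P2 S z * φ i z) * S.e i z
      = ∫ z, (P2 S z * φ i z) * S.e i z := fun i =>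
    setIntegral_eq_integral_of_forall_compl_eq_zero (fun z hz => by simp [h.e_zero hz])
  simp only [r1, r2, r3, r4]
  rw [← h.visc_eq hK hφ hc hdiv]
  have s1 : ∀ i, ∫ z, P2 S z * (S.u i z * (D et (φ i) z + ∑ j, S.u j z * D (ev j) (φ i) z))
      = - ∫ z, P2 S z * (S.acc i z * φ i z) := fun i => by
    rw [h.acc_eq hK hφ hc i, neg_neg]
  have s2 : ∀ i, ∫ z, (P2 S z * φ i z) * ff S i z = (∫ z, P2 S z * (S.acc i z * φ i z))
      + (∫ z, S.b i z * φ i z) - ∫ z, (P2 S z * φ i z) * S.e i z := by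
    intro i
    have i1 : Integrable (fun z => P2 S z * (S.acc i z * φ i z)) (volume : Measure X) :=
      int_cc ((h.P2s hK).mul ((h.accs i).mul (hφ i))) (hc i).mul_left.mul_left
    have i2 : Integrable (fun z => S.b i z * φ i z) (volume : Measure X) :=
      int_cc ((h.bs i).mul (hφ i)) (hc i).mul_left
    have i3 : Integrable (fun z => (P2 S z * φ i z) * S.e i z) (volume : Measure X) :=
      int_cc (((h.P2s hK).mul (hφ i)).mul (h.es hK i)) ((hc i).mul_left).mul_right
    have i12 : Integrable (fun z => P2 S z * (S.acc i z * φ i z) + S.b i z * φ i z)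
      (volume : Measure X) := i1.add i2
    rw [← integral_add i1 i2, ← integral_sub i12 i3]
    refine integral_congr_ae (Eventually.of_forall fun z => ?_)
    have : S.R2 z ≠ 0 := by
      have : 1 / 2 ≤ S.R2 z := h.rlo _
      linarith
    simp only [P2, ff, St.e]
    field_simp
    ring
  simp only [s1, s2, Finset.sum_add_distrib, Finset.sum_sub_distrib, Finset.sum_neg_distrib]
  ring

end Good

end

end Pool.Agent.H729R2
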